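import Pool.Agent.Helper38.Fol.Defs

open AlgebraicGeometry CategoryTheory

set_option linter.all false

noncomputable section
namespace Pool.Agent.Helper38.Fol

section
variable {K : CommRingCat.{0}} {W : Scheme.{0}} (g : Spec K ⟶ W)

/-- Pullback of a section to the field. -/
def pull (U : W.Opens) (hU : ⊤ ≤ g ⁻¹ᵁ U) : Γ(W, U) →+* K :=
  (Scheme.ΓSpecIso K).hom.hom.comp (g.appLE U ⊤ hU).hom

lemma pull_apply (U : W.Opens) (hU : ⊤ ≤ g ⁻¹ᵁ U) (s : Γ(W, U)) :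
    pull g U hU s = (Scheme.ΓSpecIso K).hom (g.appLE U ⊤ hU s) := rfl

lemma pull_res (U V : W.Opens) (hU : ⊤ ≤ g ⁻¹ᵁ U) (hV : ⊤ ≤ g ⁻¹ᵁ V) (i : V ⟶ U) (s : Γ(W, U)) :
    pull g V hV (W.presheaf.map i.op s) = pull g U hU s := by
  rw [pull_apply, pull_apply]
  congr 1
  rw [← Scheme.Hom.map_appLE g hV i.op]
  rfl

lemma exists_pull_eq (hK : IsField K) (U V : W.Opens) (hUa : IsAffineOpen U) (hU : ⊤ ≤ g ⁻¹ᵁ U) (hV : ⊤ ≤ g ⁻¹ᵁ V)
    (s : Γ(W, V)) : ∃ a b : Γ(W, U), pull g U hU b ≠ 0 ∧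
      pull g V hV s * pull g U hU b = pull g U hU a := by
  letI := hK.toField
  let p : Spec K := (⊥ : PrimeSpectrum K)
  have hall : ∀ V' : W.Opens, g p ∈ V' → ⊤ ≤ g ⁻¹ᵁ V' := by
    intro V' h q _
    have : q = p := Subsingleton.elim (α := PrimeSpectrum K) _ _
    rw [this]
    exact h
  obtain ⟨b, hb1, hb2⟩ := hUa.exists_basicOpen_le (V := V) ⟨g p, hV (x := p) trivial⟩
    (hU (x := p) trivial)
  have hD : ⊤ ≤ g ⁻¹ᵁ (W.basicOpen b) := hall _ hb2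
  have := hUa.isLocalization_basicOpen b
  obtain ⟨⟨a, ⟨_, n, rfl⟩⟩, h⟩ := IsLocalization.surj (Submonoid.powers b)
    (W.presheaf.map (homOfLE hb1).op s)
  refine ⟨a, b ^ n, ?_, ?_⟩
  · have hu : IsUnit (pull g _ hD (W.presheaf.map (homOfLE (W.basicOpen_le b)).op b)) := by
      apply RingHom.isUnit_map
      exact W.toRingedSpace.isUnit_res_basicOpen b
    rw [pull_res g U _ hU hD] at hu
    rw [map_pow]
    exact pow_ne_zero _ hu.ne_zero
  · have h2 := congrArg (pull g _ hD) h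
    rw [map_mul, pull_res g V _ hV hD] at h2
    have h3 : ∀ t : Γ(W, U), pull g _ hD (algebraMap Γ(W, U) Γ(W, W.basicOpen b) t) =
        pull g U hU t := fun t => pull_res g U _ hU hD (homOfLE (W.basicOpen_le b)) t
    rw [h3, h3] at h2
    exact h2

end

end Pool.Agent.Helper38.Fol
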