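import Pool.Agent.Helper38.Fol.FolX
import Pool.Agent.Helper38.Fol.Pull

open AlgebraicGeometry CategoryTheory

set_option linter.all false

noncomputable section
namespace Pool.Agent.Helper38.Fol

/-- A derivation that kills the pullbacks of the sections over one affine open set kills the
pullbacks of all sections. -/
lemma der_pull {V : Variety} {W : Scheme.{0}} (g : Spec V.X.functionField ⟶ W)
    (D : Derivation ℂ V.K V.K) (U : W.Opens) (hUa : IsAffineOpen U) (hU : ⊤ ≤ g ⁻¹ᵁ U)
    (h : ∀ s : Γ(W, U), D (pull g U hU s) = 0) (U' : W.Opens) (hU' : ⊤ ≤ g ⁻¹ᵁ U')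
    (s : Γ(W, U')) : D (pull g U' hU' s) = 0 := by
  obtain ⟨a, b, hb, hab⟩ := exists_pull_eq g (Field.toIsField V.K) U U' hUa hU hU' s
  have h1 := congrArg D hab
  rw [h] at h1
  have h2 : D (pull g U' hU' s * pull g U hU b) =
      pull g U' hU' s • D (pull g U hU b) + pull g U hU b • D (pull g U' hU' s) :=
    Derivation.leibniz D _ _
  rw [h2, h, smul_zero, zero_add] at h1
  have h3 : (pull g U hU b : V.K) * D (pull g U' hU' s) = 0 := h1
  exact (mul_eq_zero.mp h3).resolve_left hb

lemma fromSpecStalk_str (V : Variety) :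
    V.X.fromSpecStalk (genericPoint V.X) ≫ V.str =
      Spec.map (CommRingCat.ofHom (algebraMap ℂ V.K)) :=
  (Spec.map_preimage _).symm

/-- The affine plane. -/
abbrev R2 := MvPolynomial (Fin 2) ℂ

abbrev A2 : Variety where
  X := Spec (.of R2)
  str := Spec.map (CommRingCat.ofHom (algebraMap ℂ R2))
  integral := inferInstance
  separated := inferInstance
  locallyOfFiniteType := by
    rw [HasRingHomProperty.Spec_iff (P := @LocallyOfFiniteType)]
    rw [CommRingCat.hom_ofHom, RingHom.finiteType_algebraMap]
    infer_instance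
  quasiCompact := inferInstance

end Pool.Agent.Helper38.Fol
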