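import Pool.Agent.Helper38.Fol.AlgInt

open AlgebraicGeometry CategoryTheory

set_option linter.all false

noncomputable section
namespace Pool.Agent.Helper38.Fol

lemma der_ext (c : ChartData) (D D' : Derivation ℂ KX KX)
    (h : ∀ i, D (monK (c.α i)) = D' (monK (c.α i))) : D = D' := by
  have h1 : ∀ p : R3, D (c.toKX p) = D' (c.toKX p) := by
    intro p
    induction p using MvPolynomial.induction_on with
    | C r =>
      have : c.toKX (MvPolynomial.C r) = algebraMap ℂ KX r := c.toKX.commutes r
      rw [this, Derivation.map_algebraMap, Derivation.map_algebraMap]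
    | add p q hp hq => rw [map_add, map_add, map_add, hp, hq]
    | mul_X p i hp =>
      rw [map_mul, Derivation.leibniz, Derivation.leibniz, hp, c.toKX_X, h i]
  ext g
  obtain ⟨a, b, hb, rfl⟩ := c.exists_fracX g
  rw [Derivation.leibniz_div, Derivation.leibniz_div, h1, h1]

/-- The pullback from the affine plane: the coordinates are `y / x` and `z / x`. -/
def psi2 : R2 →ₐ[ℂ] VX.K := chA0.toKX.comp (MvPolynomial.rename Fin.succ)

lemma psi2_injective : Function.Injective psi2 :=
  chA0.toKX_injective.comp (MvPolynomial.rename_injective _ (Fin.succ_injective 2))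

lemma psi2_X (i : Fin 2) : psi2 (MvPolynomial.X i) = monK (chA0.α i.succ) := by
  unfold psi2
  rw [AlgHom.comp_apply, MvPolynomial.rename_X]
  exact chA0.toKX_X _

lemma chA0_wt0 : chA0.wt 0 = 1 := by simp [wt_eq, chA0, wtM_gen]

lemma Dv_psi2 (p : R2) : DvX (psi2 p) = 0 := by
  induction p using MvPolynomial.induction_on with
  | C r =>
    have : psi2 (MvPolynomial.C r) = algebraMap ℂ VX.K r := psi2.commutes r
    rw [this, Derivation.map_algebraMap]
  | add p q hp hq => rw [map_add, map_add, hp, hq, add_zero]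
  | mul_X p i hp =>
    rw [map_mul, Derivation.leibniz, hp, psi2_X]
    have : DvX (monK (chA0.α i.succ)) = (chA0.wt i.succ : ℂ) • monK (chA0.α i.succ) := by
      change Dv _ = _
      rw [Dv_monK]
      rfl
    rw [this]
    have h0 : chA0.wt i.succ = 0 := by
      fin_cases i
      · exact type_chA0.2.1
      · exact type_chA0.2.2
    rw [h0]
    simp

lemma mem_FX_iff (D : Derivation ℂ VX.K VX.K) : D ∈ FX.T ↔ ∀ p, D (psi2 p) = 0 := by
  constructor
  · intro h p
    obtain ⟨h, rfl⟩ := mem_FX.mp h
    rw [Derivation.smul_apply, Dv_psi2, smul_zero]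
  · intro h
    rw [mem_FX]
    refine ⟨D (monK (chA0.α 0)) / monK (chA0.α 0), ?_⟩
    apply der_ext chA0
    intro i
    refine Fin.cases ?_ (fun j => ?_) i
    · rw [Derivation.smul_apply]
      have : DvX (monK (chA0.α 0)) = monK (chA0.α 0) := by
        change Dv _ = _
        rw [Dv_monK]
        change ((chA0.wt 0 : ℤ) : ℂ) • monK (chA0.α 0) = _
        rw [chA0_wt0]
        simp
      rw [this, smul_eq_mul, div_mul_cancel₀ _ (monK_ne _)]
    · rw [← psi2_X, h, Derivation.smul_apply, Dv_psi2, smul_zero]

/-- The map from the spectrum of the function field to the affine plane. -/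
def gA : Spec VX.X.functionField ⟶ A2.X := Spec.map (CommRingCat.ofHom psi2.toRingHom)

lemma gA_comp : gA ≫ A2.str = VX.X.fromSpecStalk _ ≫ VX.str := by
  rw [fromSpecStalk_str]
  unfold gA
  rw [← Spec.map_comp]
  congr 1
  ext r
  exact psi2.commutes r

instance : LocallyOfFiniteType A2.str := A2.locallyOfFiniteType

instance : IsDominant gA := by
  constructor
  change DenseRange (PrimeSpectrum.comap psi2.toRingHom)
  rw [PrimeSpectrum.denseRange_comap_iff_ker_le_nilRadical]
  have : RingHom.ker psi2.toRingHom = ⊥ := (RingHom.injective_iff_ker_eq_bot _).mp psi2_injective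
  rw [this]
  exact bot_le

/-- The rational map to the affine plane. -/
def fA : VX.X ⤏ A2.X := Scheme.RationalMap.ofFunctionField VX.str A2.str gA gA_comp

lemma fromFunctionField_fA : fA.fromFunctionField = gA :=
  Scheme.RationalMap.fromFunctionField_ofFunctionField _ _ _ _

lemma isDominant_fA : fA.IsDominant := by
  change Scheme.RationalMap.IsDominant (Scheme.PartialMap.toRationalMap _)
  rw [Scheme.PartialMap.isDominant_toRationalMap_iff]
  have h := Scheme.PartialMap.fromSpecStalkOfMem_ofFromSpecStalk VX.str A2.str gA gA_comp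
  unfold Scheme.PartialMap.fromSpecStalkOfMem at h
  have : IsDominant ((Scheme.PartialMap.ofFromSpecStalk VX.str A2.str gA gA_comp).domain.fromSpecStalkOfMem
    _ (Scheme.PartialMap.mem_domain_ofFromSpecStalk VX.str A2.str gA gA_comp) ≫
      (Scheme.PartialMap.ofFromSpecStalk VX.str A2.str gA gA_comp).hom) := by
    rw [h]
    infer_instance
  exact IsDominant.of_comp (H := this) _ _

lemma compHom_fA : fA.compHom A2.str = VX.str.toRationalMap :=
  (Scheme.RationalMap.equivFunctionField VX.str A2.str ⟨gA, gA_comp⟩).2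

lemma pull_gA (s : R2) (hU : ⊤ ≤ gA ⁻¹ᵁ ⊤) :
    pull gA ⊤ hU ((Scheme.ΓSpecIso (.of R2)).inv s) = psi2 s := by
  rw [pull_apply]
  have h1 : gA.appLE ⊤ ⊤ hU = gA.appTop := by
    exact Scheme.Hom.appLE_eq_app gA
  rw [h1]
  have h2 := Scheme.ΓSpecIso_inv_naturality (CommRingCat.ofHom psi2.toRingHom)
  have h3 := congrArg (fun φ => (Scheme.ΓSpecIso VX.X.functionField).hom (φ s)) h2
  have h4 : (Scheme.ΓSpecIso VX.X.functionField).hom
      ((Scheme.ΓSpecIso VX.X.functionField).inv (psi2 s)) = psi2 s := by
    rw [← RingHom.comp_apply, ← CommRingCat.hom_comp, Iso.inv_hom_id]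
    rfl
  exact h3.symm.trans h4

lemma algebraicallyIntegrable_FX : FX.AlgebraicallyIntegrable := by
  refine ⟨A2, fA, isDominant_fA, compHom_fA, fun D => ?_⟩
  rw [fromFunctionField_fA, mem_FX_iff]
  constructor
  · intro h U hU s
    exact der_pull gA D ⊤ (isAffineOpen_top _) (fun _ _ => trivial) (fun s => by
      have : s = (Scheme.ΓSpecIso (.of R2)).inv ((Scheme.ΓSpecIso (.of R2)).hom s) := by
        rw [← RingHom.comp_apply, ← CommRingCat.hom_comp, Iso.hom_inv_id]
        rfl
      rw [this, pull_gA]
      exact h _) U hU s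
  · intro h p
    rw [← pull_gA p (fun _ _ => trivial)]
    exact h ⊤ _ _

end Pool.Agent.Helper38.Fol
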