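import Pool.Agent.Helper38.Fol.Ring

open AlgebraicGeometry CategoryTheory HomogeneousLocalization

noncomputable section
namespace Pool.Agent.Helper38.Fol

open scoped TensorProduct

/-- A derivation of a domain extends to its field of fractions. -/
theorem exists_extend {A K : Type} [CommRing A] [IsDomain A] [Field K] [Algebra ℂ A] [Algebra ℂ K]
    [Algebra A K] [IsScalarTower ℂ A K] [IsFractionRing A K] (d : Derivation ℂ A K) :
    ∃ D : Derivation ℂ K K, ∀ a, D (algebraMap A K a) = d a := by
  have : Algebra.FormallyEtale A K := Algebra.FormallyEtale.of_isLocalization (nonZeroDivisors A)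
  let L : Ω[A⁄ℂ] →ₗ[A] K := d.liftKaehlerDifferential
  let L' : K ⊗[A] Ω[A⁄ℂ] →ₗ[K] K := LinearMap.liftBaseChange K L
  let e := KaehlerDifferential.tensorKaehlerEquivOfFormallyEtale ℂ A K
  refine ⟨(L'.comp e.symm.toLinearMap).compDer (KaehlerDifferential.D ℂ K), fun a => ?_⟩
  simp [L', L, e, KaehlerDifferential.tensorKaehlerEquivOfFormallyEtale_symm_D_algebraMap]

/-- The Euler type derivation of `R3` with weights `w`. -/
def eulerW (w : Fin 3 → ℂ) : Derivation ℂ R3 R3 :=
  MvPolynomial.mkDerivation ℂ fun i => w i • MvPolynomial.X i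

@[simp] lemma eulerW_X (w : Fin 3 → ℂ) (i : Fin 3) :
    eulerW w (MvPolynomial.X i) = w i • MvPolynomial.X i := by
  unfold eulerW
  rw [MvPolynomial.mkDerivation_X]

lemma eulerW_monomial (w : Fin 3 → ℂ) (m : Fin 3 →₀ ℕ) (r : ℂ) :
    eulerW w (MvPolynomial.monomial m r) =
      (∑ i, w i * m i) • MvPolynomial.monomial m r := by
  have h : ∀ m : Fin 3 →₀ ℕ, eulerW w (MvPolynomial.monomial m 1) =
      (∑ i, w i * m i) • MvPolynomial.monomial m 1 := by
    intro m
    induction m using Finsupp.induction_linear with
    | zero => simp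
    | add f g hf hg =>
      have : (MvPolynomial.monomial (f + g) (1 : ℂ) : R3) =
        MvPolynomial.monomial f 1 * MvPolynomial.monomial g 1 := by
        rw [MvPolynomial.monomial_mul, one_mul]
      rw [this, Derivation.leibniz, hf, hg]
      simp only [smul_eq_mul, mul_smul_comm, Finsupp.add_apply, Nat.cast_add, mul_add,
        Finset.sum_add_distrib, add_smul]
      rw [mul_comm (MvPolynomial.monomial g (1 : ℂ)) (MvPolynomial.monomial f 1)]
      ring
    | single i n =>
      have h1 : (MvPolynomial.monomial (Finsupp.single i n) (1 : ℂ) : R3) =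
        MvPolynomial.X i ^ n := by
        rw [MvPolynomial.X_pow_eq_monomial]
      rw [h1, Derivation.leibniz_pow, eulerW_X]
      cases n with
      | zero => simp
      | succ n =>
        rw [Finset.sum_eq_single i]
        · simp only [Finsupp.single_eq_same, Nat.add_sub_cancel]
          rw [smul_eq_mul, mul_smul_comm, ← pow_succ, ← smul_assoc]
          congr 1
          simp [mul_comm]
        · intro j _ hj
          simp [Finsupp.single_eq_of_ne hj]
        · simp
  have h2 : (MvPolynomial.monomial m r : R3) = r • MvPolynomial.monomial m 1 := by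
    rw [MvPolynomial.smul_monomial, smul_eq_mul, mul_one]
  rw [h2, Derivation.map_smul, h, smul_comm]

end Pool.Agent.Helper38.Fol
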