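import Pool.Agent.Helper38.Fol.FieldX
import Pool.Agent.Helper38.Fol.Der

open AlgebraicGeometry CategoryTheory HomogeneousLocalization

noncomputable section
namespace Pool.Agent.Helper38.Fol

/-- The function field. -/
abbrev KX := PX.functionField

/-- Laurent monomials in the function field. -/
def monK (u : Fin 3 → ℤ) : KX := jE.symm (mon u)

lemma j0_monK (u : Fin 3 → ℤ) : j0 (monK u) = mon u := jE.apply_symm_apply _

lemma monK_ne (u : Fin 3 → ℤ) : monK u ≠ 0 := by
  intro h
  apply mon_ne u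
  rw [← j0_monK, h, map_zero]

lemma monK_add (u v : Fin 3 → ℤ) : monK (u + v) = monK u * monK v := by
  apply j0_injective; rw [map_mul, j0_monK, j0_monK, j0_monK, mon_add]

lemma monK_zero : monK 0 = 1 := by
  apply j0_injective; rw [map_one, j0_monK, mon_zero]

lemma monK_neg (u : Fin 3 → ℤ) : monK (-u) = (monK u)⁻¹ := by
  apply j0_injective; rw [map_inv₀, j0_monK, j0_monK, mon_neg]

lemma monK_sub (u v : Fin 3 → ℤ) : monK (u - v) = monK u / monK v := by
  apply j0_injective; rw [map_div₀, j0_monK, j0_monK, j0_monK, mon_sub]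

lemma phi_monomial (m : Fin 3 →₀ ℕ) (r : ℂ) :
    phi (MvPolynomial.monomial m r) = r • monK (toZ m) := by
  apply j0_injective
  rw [j0_phi, algebraMap_monomial, Algebra.smul_def, map_mul, j0_monK]
  congr 1
  exact (j0_alg r).symm

lemma phi_bar_monoS (p : M) : phi (bar (monoS p)) = monK (toZ p.1.1) := by
  apply j0_injective
  rw [j0_phi, ChartData.bar_monoS, j0_monK]

lemma j0_smul (r : ℂ) (g : KX) : j0 (r • g) = r • j0 g := by
  rw [Algebra.smul_def, Algebra.smul_def, map_mul]
  congr 1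
  rw [← C_eq]
  exact j0_alg r

namespace ChartData
variable (c : ChartData)

/-- The chart map to the function field. -/
def toKX : R3 →ₐ[ℂ] KX := MvPolynomial.aeval fun i => monK (c.α i)

lemma toKX_monomial (e : Fin 3 →₀ ℕ) (r : ℂ) :
    c.toKX (MvPolynomial.monomial e r) = r • monK (c.expMap e) := by
  unfold toKX
  rw [MvPolynomial.aeval_monomial, Algebra.smul_def]
  congr 1
  apply j0_injective
  rw [Finsupp.prod_fintype _ _ (by simp), map_prod, j0_monK]
  change _ = mon (∑ i, (e i : ℤ) • c.α i)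
  rw [mon_sum]
  refine Finset.prod_congr rfl fun i _ => ?_
  rw [mon_zsmul, zpow_natCast, map_pow, j0_monK]

lemma j0_toKX (p : R3) : j0 (c.toKX p) = c.toK p := by
  induction p using MvPolynomial.induction_on' with
  | monomial m r => rw [toKX_monomial, toK_monomial, j0_smul, j0_monK]
  | add p q hp hq => rw [map_add, map_add, map_add, hp, hq]

lemma toKX_injective : Function.Injective c.toKX := by
  intro a b h
  apply c.toK_injective
  rw [← j0_toKX, ← j0_toKX, h]

lemma exists_polyX {n : ℕ} (a : S) (ha : a ∈ 𝒜 n) :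
    ∃ p : R3, phi (bar a) = monK (toZ c.v.1.1) ^ n * c.toKX p := by
  obtain ⟨p, hp⟩ := c.exists_poly a ha
  refine ⟨p, ?_⟩
  apply j0_injective
  rw [j0_phi, hp, map_mul, map_pow, j0_monK, j0_toKX]

lemma monK_mem {x : PX} (hx : c.f ∉ x.asHomogeneousIdeal.toIdeal) (i : Fin 3) :
    monK (c.α i) ∈ LR x := by
  rw [mem_LR]
  refine ⟨1, monoS (c.m i), single_mem _ (c.hm i) 1, c.f, c.f_mem, hx, ?_⟩
  unfold f
  rw [phi_bar_monoS, phi_bar_monoS, ← monK_sub]
  rfl

end ChartData

lemma const_mem_LR (x : PX) (r : ℂ) : algebraMap ℂ KX r ∈ LR x := by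
  rw [mem_LR]
  refine ⟨0, algebraMap ℂ S r, ?_, 1, ?_, ?_, ?_⟩
  · exact (algebraMap ℂ (𝒜 0) r).2
  · exact (1 : 𝒜 0).2
  · exact (Ideal.ne_top_iff_one _).mp x.isPrime.ne_top
  · have h1 : bar (algebraMap ℂ S r) = algebraMap ℂ R3 r := bar.commutes r
    have h2 : bar (1 : S) = 1 := map_one bar
    rw [h1, h2, map_one, div_one]
    exact (phi.commutes r).symm

namespace ChartData
variable (c : ChartData)

lemma toKX_mem {x : PX} (hx : c.f ∉ x.asHomogeneousIdeal.toIdeal) (p : R3) :
    c.toKX p ∈ LR x := by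
  induction p using MvPolynomial.induction_on with
  | C r =>
    have : c.toKX (MvPolynomial.C r) = algebraMap ℂ KX r := c.toKX.commutes r
    rw [this]
    exact const_mem_LR x r
  | add p q hp hq => rw [map_add]; exact add_mem hp hq
  | mul_X p i hp =>
    rw [map_mul]
    refine mul_mem hp ?_
    unfold toKX
    rw [MvPolynomial.aeval_X]
    exact c.monK_mem hx i

lemma exists_frac {x : PX} (hx : c.f ∉ x.asHomogeneousIdeal.toIdeal) {g : KX} (hg : g ∈ LR x) :
    ∃ a b : R3, b ≠ 0 ∧ (c.toKX b)⁻¹ ∈ LR x ∧ g = c.toKX a / c.toKX b := by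
  rw [mem_LR] at hg
  obtain ⟨n, a, ha, b, hb, hbx, rfl⟩ := hg
  obtain ⟨p, hp⟩ := c.exists_polyX a ha
  obtain ⟨q, hq⟩ := c.exists_polyX b hb
  have hb0 : b ≠ 0 := fun h => hbx (h ▸ Ideal.zero_mem _)
  have hphib : phi (bar b) ≠ 0 := by
    intro h
    rw [map_eq_zero_iff _ phi_injective] at h
    exact bar_ne_zero hb hb0 h
  have hm := pow_ne_zero n (monK_ne (toZ c.v.1.1))
  have hq0 : c.toKX q ≠ 0 := by
    intro h
    rw [h, mul_zero] at hq
    exact hphib hq
  refine ⟨p, q, ?_, ?_, ?_⟩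
  · rintro rfl
    exact hq0 (map_zero _)
  · rw [mem_LR]
    refine ⟨n, c.f ^ n, ?_, b, hb, hbx, ?_⟩
    · have := SetLike.pow_mem_graded n c.f_mem
      simpa using this
    · rw [map_pow, map_pow]
      unfold f
      rw [phi_bar_monoS, hq]
      field_simp
  · rw [hp, hq]
    field_simp

end ChartData

end Pool.Agent.Helper38.Fol
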