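import Pool.Agent.Helper38.Fol.Defs

open AlgebraicGeometry CategoryTheory

set_option linter.all false

noncomputable section
namespace Pool.Agent.Helper38.Fol

section
variable {K : Type} [Field K] (R : ValuationSubring K) [IsDiscreteValuationRing R]

lemma exists_unit_zpow {ϖ : R} (hϖ : Irreducible ϖ) {y : K} (hy : y ≠ 0) :
    ∃ (u : Rˣ) (k : ℤ), y = ((u : R) : K) * (ϖ : K) ^ k := by
  have key : ∀ z : R, z ≠ 0 → ∃ (u : Rˣ) (k : ℕ), (z : K) = ((u : R) : K) * (ϖ : K) ^ k := by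
    intro z hz
    obtain ⟨n, u, hu⟩ := IsDiscreteValuationRing.eq_unit_mul_pow_irreducible hz hϖ
    refine ⟨u, n, ?_⟩
    rw [hu]
    push_cast
    rfl
  rcases R.mem_or_inv_mem y with h | h
  · obtain ⟨u, k, hk⟩ := key ⟨y, h⟩ (by intro h0; apply hy; exact congrArg Subtype.val h0)
    exact ⟨u, k, by simpa using hk⟩
  · obtain ⟨u, k, hk⟩ := key ⟨y⁻¹, h⟩ (by
      intro h0; apply hy; exact inv_eq_zero.mp (congrArg Subtype.val h0))
    refine ⟨u⁻¹, -k, ?_⟩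
    have h1 : (((u⁻¹ : Rˣ) : R) : K) * ((u : R) : K) = 1 := by
      exact congrArg (Subtype.val : R → K) (Units.inv_mul u)
    have h2 : ((u : R) : K) ≠ 0 := right_ne_zero_of_mul_eq_one h1
    have h3 : (((u⁻¹ : Rˣ) : R) : K) = ((u : R) : K)⁻¹ := eq_inv_of_mul_eq_one_left h1
    have h4 : (y : K) = (((u : R) : K) * (ϖ : K) ^ k)⁻¹ := by
      rw [← hk]
      simp
    rw [h4, h3, mul_inv, zpow_neg, zpow_natCast]

lemma unit_coe_ne (u : Rˣ) : ((u : R) : K) ≠ 0 := by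
  intro h
  have h1 : (u : R) = 0 := Subtype.ext h
  exact u.ne_zero h1

lemma unit_inv_coe (u : Rˣ) : (((u⁻¹ : Rˣ) : R) : K) = ((u : R) : K)⁻¹ := by
  apply eq_inv_of_mul_eq_one_left
  exact congrArg (Subtype.val : R → K) (Units.inv_mul u)

lemma zpow_mem_iff {ϖ : R} (hϖ : Irreducible ϖ) (k : ℤ) : (ϖ : K) ^ k ∈ R ↔ 0 ≤ k := by
  have h0 : (ϖ : K) ≠ 0 := by
    intro h
    exact hϖ.ne_zero (Subtype.ext h)
  constructor
  · intro h
    by_contra hk
    push Not at hk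
    -- then `ϖ` is a unit
    apply hϖ.not_isUnit
    obtain ⟨n, hn⟩ : ∃ n : ℕ, k = -((n : ℤ) + 1) := ⟨(-k - 1).toNat, by omega⟩
    have h1 : (ϖ : K)⁻¹ ∈ R := by
      have : (ϖ : K)⁻¹ = (ϖ : K) ^ k * (ϖ : K) ^ n := by
        rw [hn, ← zpow_natCast, ← zpow_add₀ h0, ← zpow_neg_one]
        congr 1
        ring
      rw [this]
      exact mul_mem h (pow_mem ϖ.2 n)
    exact IsUnit.of_mul_eq_one ⟨_, h1⟩ (Subtype.ext (mul_inv_cancel₀ h0))
  · intro hk
    obtain ⟨n, rfl⟩ := Int.eq_ofNat_of_zero_le hk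
    rw [zpow_natCast]
    exact pow_mem ϖ.2 n

end

open Foliation

variable {V : Variety}

/-- The derivations in `T` that preserve the discrete valuation ring of a divisor over `X`. -/
lemma discrep (F : Foliation V) (E : DivisorOver V) (D0 : Derivation ℂ V.K V.K)
    (hD0 : F.IsGenerator (V.localRing E.center) D0)
    (hT : ∀ D ∈ F.T, ∃ h : V.K, D = h • D0)
    (hg : ∃ g ∈ E.R, (D0 g)⁻¹ ∈ E.R ∧ D0 g ≠ 0) : ∃ a : ℤ, 0 ≤ a ∧ E.HasDiscrepancy F a := by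
  classical
  have := E.dvr
  obtain ⟨ϖ, hϖ⟩ := IsDiscreteValuationRing.exists_irreducible E.R
  have hϖ0 : (ϖ : V.K) ≠ 0 := by
    intro h
    exact hϖ.ne_zero (Subtype.ext h)
  -- some power of `ϖ` times `D0` preserves `R`
  have hN : ∃ n : ℕ, ∀ r ∈ E.R, (ϖ : V.K) ^ n * D0 r ∈ E.R := by
    obtain ⟨s, hs, hs'⟩ := E.essFiniteType
    have h1 : ∀ y : V.K, ∃ n : ℕ, ∀ m ≥ n, (ϖ : V.K) ^ m * y ∈ E.R := by
      intro y
      by_cases hy : y = 0
      · exact ⟨0, fun m _ => by rw [hy, mul_zero]; exact zero_mem _⟩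
      · obtain ⟨u, k, hk⟩ := exists_unit_zpow E.R hϖ hy
        refine ⟨(-k).toNat, fun m hm => ?_⟩
        rw [hk]
        have : (ϖ : V.K) ^ m * (((u : E.R) : V.K) * (ϖ : V.K) ^ k) =
            ((u : E.R) : V.K) * (ϖ : V.K) ^ ((m : ℤ) + k) := by
          rw [zpow_add₀ hϖ0, zpow_natCast]
          ring
        rw [this]
        refine mul_mem (u : E.R).2 ((zpow_mem_iff E.R hϖ _).mpr ?_)
        omega
    choose N hN using h1
    refine ⟨s.sup fun g => N (D0 g), fun r hr => ?_⟩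
    set n := s.sup fun g => N (D0 g) with hn
    have hadj : ∀ a ∈ Algebra.adjoin ℂ (s : Set V.K), a ∈ E.R ∧ (ϖ : V.K) ^ n * D0 a ∈ E.R := by
      intro a ha
      induction ha using Algebra.adjoin_induction with
      | mem x hx =>
        refine ⟨hs x hx, hN _ _ ?_⟩
        exact Finset.le_sup (f := fun g => N (D0 g)) hx
      | algebraMap c =>
        refine ⟨E.const_mem c, ?_⟩
        rw [Derivation.map_algebraMap, mul_zero]
        exact zero_mem _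
      | add x y _ _ hx hy =>
        refine ⟨add_mem hx.1 hy.1, ?_⟩
        rw [map_add, mul_add]
        exact add_mem hx.2 hy.2
      | mul x y _ _ hx hy =>
        refine ⟨mul_mem hx.1 hy.1, ?_⟩
        rw [Derivation.leibniz]
        simp only [smul_eq_mul]
        have : (ϖ : V.K) ^ n * (x * D0 y + y * D0 x) =
          x * ((ϖ : V.K) ^ n * D0 y) + y * ((ϖ : V.K) ^ n * D0 x) := by ring
        rw [this]
        exact add_mem (mul_mem hx.1 hy.2) (mul_mem hy.1 hx.2)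
    obtain ⟨a, ha, b, hb, hb0, hbR, rfl⟩ := hs' r hr
    obtain ⟨ha1, ha2⟩ := hadj a ha
    obtain ⟨hb1, hb2⟩ := hadj b hb
    rw [← div_eq_mul_inv, Derivation.leibniz_div]
    simp only [smul_eq_mul]
    have : (ϖ : V.K) ^ n * (b⁻¹ ^ 2 * (b * D0 a - a * D0 b)) =
      b⁻¹ ^ 2 * (b * ((ϖ : V.K) ^ n * D0 a) - a * ((ϖ : V.K) ^ n * D0 b)) := by ring
    rw [this]
    exact mul_mem (pow_mem hbR 2) (sub_mem (mul_mem hb1 ha2) (mul_mem ha1 hb2))
  obtain ⟨a, ha, hmin⟩ : ∃ a : ℕ, (∀ r ∈ E.R, (ϖ : V.K) ^ a * D0 r ∈ E.R) ∧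
      ∀ m < a, ¬ ∀ r ∈ E.R, (ϖ : V.K) ^ m * D0 r ∈ E.R :=
    ⟨Nat.find hN, Nat.find_spec hN, fun m hm => Nat.find_min hN hm⟩
  refine ⟨a, Int.natCast_nonneg a, D0, ((ϖ : V.K) ^ a) • D0, hD0, ⟨?_, ?_, ?_, ?_⟩, ϖ, 1, hϖ, ?_⟩
  · exact F.T.smul_mem _ hD0.1
  · exact smul_ne_zero (pow_ne_zero _ hϖ0) hD0.2.1
  · intro r hr
    exact ha r hr
  · intro D' hD' hR
    obtain ⟨h, rfl⟩ := hT D' hD'
    by_cases hh : h = 0
    · refine ⟨0, zero_mem _, ?_⟩
      rw [hh, zero_smul, zero_smul]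
    obtain ⟨u, k, hk⟩ := exists_unit_zpow E.R hϖ hh
    have hu0 := unit_coe_ne E.R u
    have hk' : ∀ r ∈ E.R, (ϖ : V.K) ^ k * D0 r ∈ E.R := by
      intro r hr
      have h1 : h * D0 r ∈ E.R := hR r hr
      have h2 : (ϖ : V.K) ^ k * D0 r = (((u⁻¹ : E.Rˣ) : E.R) : V.K) * (h * D0 r) := by
        rw [unit_inv_coe, hk]
        field_simp
      rw [h2]
      exact mul_mem ((u⁻¹ : E.Rˣ) : E.R).2 h1
    have hka : (a : ℤ) ≤ k := by
      by_contra hlt
      push Not at hlt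
      by_cases hk0 : 0 ≤ k
      · obtain ⟨m, rfl⟩ := Int.eq_ofNat_of_zero_le hk0
        apply hmin m (by exact_mod_cast hlt)
        intro r hr
        simpa using hk' r hr
      · obtain ⟨g, hg, hg', hg0⟩ := hg
        have h3 := mul_mem (hk' g hg) hg'
        rw [mul_assoc, mul_inv_cancel₀ hg0, mul_one, zpow_mem_iff E.R hϖ] at h3
        exact hk0 h3
    refine ⟨((u : E.R) : V.K) * (ϖ : V.K) ^ (k - a), ?_, ?_⟩
    · exact mul_mem (u : E.R).2 ((zpow_mem_iff E.R hϖ _).mpr (by omega))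
    · rw [smul_smul, hk]
      congr 1
      rw [mul_assoc, ← zpow_natCast, ← zpow_add₀ hϖ0]
      congr 2
      ring
  · rw [zpow_natCast]
    congr 1
    simp

end Pool.Agent.Helper38.Fol
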