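import Pool.Agent.Helper38.Fol.FolX

open AlgebraicGeometry CategoryTheory HomogeneousLocalization

set_option linter.all false

noncomputable section
namespace Pool.Agent.Helper38.Fol

lemma LR_eq (x : VX.X) : VX.localRing x = LR x := rfl

lemma Dv_α (c : ChartData) (i : Fin 3) :
    Dv (monK (c.α i)) = (c.wt i : ℂ) • monK (c.α i) := by
  rw [Dv_monK]
  rfl

lemma eps_mul {R : Subring KX} {g : KX} {ε : ℤ} (hε : ε = 1 ∨ ε = -1) (h : (ε : ℂ) • g ∈ R) :
    g ∈ R := by
  rcases hε with rfl | rfl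
  · simpa using h
  · simpa using h

lemma eulerW_typeA (c : ChartData) (hc : TypeA c) (p : R3) :
    eulerW (fun i => (c.wt i : ℂ)) p = MvPolynomial.X 0 * ((c.wt 0 : ℂ) • MvPolynomial.pderiv 0 p) := by
  have : eulerW (fun i => (c.wt i : ℂ)) =
      (MvPolynomial.X 0 : R3) • ((c.wt 0 : ℂ) • MvPolynomial.pderiv 0) := by
    apply MvPolynomial.derivation_ext
    intro i
    rw [eulerW_X]
    simp only [Derivation.smul_apply, smul_eq_mul]
    fin_cases i
    · simp [mul_comm]
    · simp [hc.2.1, MvPolynomial.pderiv_X]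
    · simp [hc.2.2, MvPolynomial.pderiv_X]
  rw [this]
  rfl

/-- The local generator in a chart of type A. -/
def DA (c : ChartData) : Derivation ℂ VX.K VX.K := ((monK (c.α 0))⁻¹ : KX) • DvX

lemma DA_toKX (c : ChartData) (hc : TypeA c) (p : R3) :
    DA c (c.toKX p) = c.toKX ((c.wt 0 : ℂ) • MvPolynomial.pderiv 0 p) := by
  change (monK (c.α 0))⁻¹ * Dv (c.toKX p) = _
  rw [c.Dv_toKX, eulerW_typeA c hc, map_mul, c.toKX_X]
  have := monK_ne (c.α 0)
  field_simp

lemma isGenerator_A (c : ChartData) (hc : TypeA c) (x : VX.X)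
    (hx : c.f ∉ (x : PX).asHomogeneousIdeal.toIdeal) :
    FX.IsGenerator (VX.localRing x) (DA c) := by
  have h0 := monK_ne (c.α 0)
  refine ⟨mem_FX.mpr ⟨_, rfl⟩, ?_, ?_, ?_⟩
  · exact smul_ne_zero (inv_ne_zero h0) Dv_ne
  · refine c.preserves hx (DA c) fun p => ?_
    rw [DA_toKX c hc]
    exact c.toKX_mem hx _
  · intro D' hD' hR
    obtain ⟨h, rfl⟩ := mem_FX.mp hD'
    refine ⟨h * monK (c.α 0), ?_, ?_⟩
    · have h1 : h * Dv (monK (c.α 0)) ∈ LR x := hR _ (c.monK_mem hx 0)
      rw [Dv_α, mul_smul_comm] at h1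
      exact eps_mul hc.1 h1
    · unfold DA
      rw [smul_smul]
      congr 1
      change h = h * monK (c.α 0) * (monK (c.α 0))⁻¹
      field_simp

lemma isGenerator_B (c : ChartData) (hc : TypeB c) (x : VX.X)
    (hx : c.f ∉ (x : PX).asHomogeneousIdeal.toIdeal) :
    FX.IsGenerator (VX.localRing x) DvX := by
  refine ⟨mem_FX.mpr ⟨1, one_smul _ _⟩, Dv_ne, ?_, ?_⟩
  · refine c.preserves hx DvX fun p => ?_
    change Dv (c.toKX p) ∈ _
    rw [c.Dv_toKX]
    exact c.toKX_mem hx _
  · intro D' hD' hR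
    obtain ⟨h, rfl⟩ := mem_FX.mp hD'
    refine ⟨h, ?_, rfl⟩
    have h1 : ∀ i, h * monK (c.α i) ∈ LR x := by
      intro i
      have h1 : h * Dv (monK (c.α i)) ∈ LR x := hR _ (c.monK_mem hx i)
      rw [Dv_α, mul_smul_comm] at h1
      exact eps_mul (hc.1 i) h1
    exact c.mem_of_mul_mem hx (i := 0) (j := 1) (by decide) (h1 0) (h1 1)

lemma Dv_zpow_mul (c : ChartData) (i j : Fin 3) (a b : ℤ) :
    Dv (monK (a • c.α i + b • c.α j)) =
      ((a * c.wt i + b * c.wt j : ℤ) : ℂ) • monK (a • c.α i + b • c.α j) := by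
  rw [Dv_monK]
  congr 2
  simp only [Pi.add_apply, Pi.smul_apply, smul_eq_mul, Finset.sum_add_distrib,
    ← Finset.mul_sum]
  rfl

lemma monK_zsmul (n : ℤ) (u : Fin 3 → ℤ) : monK (n • u) = monK u ^ n := by
  apply j0_injective; rw [map_zpow₀, j0_monK, j0_monK, mon_zsmul]

lemma isCanonical_FX : FX.IsCanonical := by
  intro E _
  obtain ⟨i, hi⟩ := exists_chart (E.center : PX)
  set c := charts i
  have := E.dvr
  rcases type_charts i with hc | hc
  · -- type A
    have h0 := monK_ne (c.α 0)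
    refine discrep FX E (DA c) (isGenerator_A c hc _ hi) ?_ ?_
    · intro D hD
      obtain ⟨h, rfl⟩ := mem_FX.mp hD
      refine ⟨h * monK (c.α 0), ?_⟩
      unfold DA
      rw [smul_smul]
      congr 1
      change h = h * monK (c.α 0) * (monK (c.α 0))⁻¹
      field_simp
    · have h1 : DA c (monK (c.α 0)) = ((c.wt 0 : ℂ) • (1 : KX) : KX) := by
        change (monK (c.α 0))⁻¹ * Dv (monK (c.α 0)) = _
        rw [Dv_α, mul_smul_comm, inv_mul_cancel₀ h0]
      refine ⟨monK (c.α 0), E.le _ (c.monK_mem hi 0), ?_, ?_⟩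
      · rw [h1]
        rcases hc.1 with h | h
        · change c.wt 0 = 1 at h
          rw [h]
          have : (((1 : ℤ) : ℂ) • (1 : KX) : KX)⁻¹ = 1 := by simp
          rw [this]
          exact one_mem E.R
        · change c.wt 0 = -1 at h
          rw [h]
          have : (((-1 : ℤ) : ℂ) • (1 : KX) : KX)⁻¹ = -1 := by simp
          rw [this]
          exact neg_mem (one_mem E.R)
      · rw [h1]
        rcases hc.1 with h | h
        · change c.wt 0 = 1 at h
          rw [h]
          simp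
        · change c.wt 0 = -1 at h
          rw [h]
          simp
  · -- type B
    refine discrep FX E DvX (isGenerator_B c hc _ hi) ?_ ?_
    · intro D hD
      obtain ⟨h, rfl⟩ := mem_FX.mp hD
      exact ⟨h, rfl⟩
    · -- a monomial unit with nonzero weight
      obtain ⟨ϖ, hϖ⟩ := IsDiscreteValuationRing.exists_irreducible E.R
      have hϖ0 : (ϖ : VX.K) ≠ 0 := by
        intro h
        exact hϖ.ne_zero (Subtype.ext h)
      obtain ⟨h1, ⟨i, hi'⟩, ⟨j, hj'⟩⟩ := hc
      obtain ⟨u, k, hk⟩ := exists_unit_zpow E.R hϖ (y := monK (c.α i)) (monK_ne _)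
      obtain ⟨w, l, hl⟩ := exists_unit_zpow E.R hϖ (y := monK (c.α j)) (monK_ne _)
      have hu := unit_coe_ne E.R u
      have hw := unit_coe_ne E.R w
      have hk0 : 0 ≤ k := by
        rw [← zpow_mem_iff E.R hϖ]
        have : (ϖ : VX.K) ^ k = (((u⁻¹ : E.Rˣ) : E.R) : VX.K) * (monK (c.α i) : KX) := by
          rw [hk, unit_inv_coe]
          field_simp
        rw [this]
        exact mul_mem ((u⁻¹ : E.Rˣ) : E.R).2 (E.le _ (c.monK_mem hi i))
      have hl0 : 0 ≤ l := by
        rw [← zpow_mem_iff E.R hϖ]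
        have : (ϖ : VX.K) ^ l = (((w⁻¹ : E.Rˣ) : E.R) : VX.K) * (monK (c.α j) : KX) := by
          rw [hl, unit_inv_coe]
          field_simp
        rw [this]
        exact mul_mem ((w⁻¹ : E.Rˣ) : E.R).2 (E.le _ (c.monK_mem hi j))
      have key : ∀ (a b : ℤ) , a * k + b * l = 0 → a * c.wt i + b * c.wt j ≠ 0 →
          ∃ g ∈ E.R, (DvX g)⁻¹ ∈ E.R ∧ DvX g ≠ 0 := by
        intro a b hab hne
        have hunit : monK (a • c.α i + b • c.α j) = (((u ^ a * w ^ b : E.Rˣ) : E.R) : VX.K) := by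
          have hz : ∀ (t : E.Rˣ) (n : ℤ), (((t ^ n : E.Rˣ) : E.R) : VX.K) =
              ((t : E.R) : VX.K) ^ n := by
            intro t n
            obtain ⟨m, rfl | rfl⟩ := n.eq_nat_or_neg
            · rw [zpow_natCast, zpow_natCast]
              rfl
            · rw [zpow_neg, zpow_neg, unit_inv_coe, zpow_natCast, zpow_natCast]
              rfl
          have hm : (((u ^ a * w ^ b : E.Rˣ) : E.R) : VX.K) =
              ((u : E.R) : VX.K) ^ a * ((w : E.R) : VX.K) ^ b := by
            rw [← hz, ← hz]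
            rfl
          rw [hm, monK_add, monK_zsmul, monK_zsmul]
          change (monK (c.α i) : VX.K) ^ a * (monK (c.α j) : VX.K) ^ b = _
          rw [hk, hl, mul_zpow, mul_zpow, ← zpow_mul, ← zpow_mul]
          have h3 : (ϖ : VX.K) ^ (k * a) * (ϖ : VX.K) ^ (l * b) = 1 := by
            rw [← zpow_add₀ hϖ0]
            have : k * a + l * b = 0 := by linarith
            rw [this, zpow_zero]
          calc _ = ((u : E.R) : VX.K) ^ a * ((w : E.R) : VX.K) ^ b *
                ((ϖ : VX.K) ^ (k * a) * (ϖ : VX.K) ^ (l * b)) := by ring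
            _ = _ := by rw [h3, mul_one]
        have hD : DvX (monK (a • c.α i + b • c.α j)) =
            algebraMap ℂ VX.K ((a * c.wt i + b * c.wt j : ℤ) : ℂ) *
              (((u ^ a * w ^ b : E.Rˣ) : E.R) : VX.K) := by
          have h5 := Dv_zpow_mul c i j a b
          rw [hunit, Algebra.smul_def] at h5
          rw [hunit]
          exact h5
        have hne' : algebraMap ℂ VX.K ((a * c.wt i + b * c.wt j : ℤ) : ℂ) ≠ 0 := by
          rw [Ne, map_eq_zero]
          exact_mod_cast hne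
        refine ⟨monK (a • c.α i + b • c.α j), ?_, ?_, ?_⟩
        · rw [hunit]
          exact ((u ^ a * w ^ b : E.Rˣ) : E.R).2
        · rw [hD, mul_inv, ← map_inv₀, ← unit_inv_coe]
          exact mul_mem (E.const_mem _) ((((u ^ a * w ^ b)⁻¹ : E.Rˣ) : E.R)).2
        · rw [hD]
          exact mul_ne_zero hne' (unit_coe_ne E.R _)
      by_cases hkz : k = 0
      · refine key 1 0 (by simp [hkz]) ?_
        rw [hi']; omega
      by_cases hlz : l = 0
      · refine key 0 1 (by simp [hlz]) ?_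
        rw [hj']; omega
      · refine key l (-k) (by ring) ?_
        rw [hi', hj']
        omega

end Pool.Agent.Helper38.Fol
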