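import Pool.Agent.Helper38.Fol.Frac

open AlgebraicGeometry CategoryTheory HomogeneousLocalization

noncomputable section
namespace Pool.Agent.Helper38.Fol

/-- The threefold, as a scheme. -/
abbrev PX : Scheme.{0} := Proj 𝒜

lemma single_mem {n : ℕ} (p : M) (hp : p.1.2 = n) (c : ℂ) :
    (AddMonoidAlgebra.single p c : S) ∈ 𝒜 n := by
  subst hp
  exact AddMonoidAlgebra.single_mem_gradeBy deg p c

lemma zero_not_mem (I : Ideal S) [I.IsPrime] : (0 : S) ∉ I.primeCompl := by
  intro h
  exact h I.zero_mem

/-- The generator with exponents `a b c`. -/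
def mkExp (a b c : ℕ) : Fin 3 →₀ ℕ := Finsupp.equivFunOnFinite.symm ![a, b, c]

@[simp] lemma mkExp_zero (a b c : ℕ) : mkExp a b c 0 = a := rfl
@[simp] lemma mkExp_one (a b c : ℕ) : mkExp a b c 1 = b := rfl
@[simp] lemma mkExp_two (a b c : ℕ) : mkExp a b c 2 = c := rfl

/-- The generator of the monoid with exponents `a b c`. -/
def gen (a b c : ℕ) (h : a ≤ 2 ∧ b ≤ 2 ∧ c ≤ 2 ∧ 1 ≤ a + b + c ∧ a + b + c ≤ 5) : M :=
  ⟨(mkExp a b c, 1), AddSubmonoid.subset_closure ⟨rfl, by
    intro i
    fin_cases i
    · exact h.1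
    · exact h.2.1
    · exact h.2.2.1, h.2.2.2.1, h.2.2.2.2⟩⟩

/-- The element `1` is in degree zero, and the homogeneous monomial is in degree one. -/
def monoS (p : M) : S := AddMonoidAlgebra.single p 1

lemma monoS_ne (p : M) : monoS p ≠ 0 := by
  intro h
  have : (monoS p).coeff p = (0 : S).coeff p := by rw [h]
  simp [monoS] at this

/-- The generic point. -/
def etaPt : ProjectiveSpectrum 𝒜 where
  asHomogeneousIdeal := ⊥
  isPrime := by
    change (⊥ : Ideal S).IsPrime
    exact Ideal.isPrime_bot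
  not_irrelevant_le := by
    intro h
    have : monoS (gen 1 0 0 (by decide)) ∈ HomogeneousIdeal.irrelevant 𝒜 := by
      rw [HomogeneousIdeal.mem_irrelevant_iff]
      rw [GradedRing.proj_apply]
      exact DirectSum.decompose_of_mem_ne 𝒜
        (single_mem (n := 1) (gen 1 0 0 (by decide)) rfl 1) (by decide)
    have h2 := h this
    exact monoS_ne _ h2

lemma etaPt_le (x : ProjectiveSpectrum 𝒜) : etaPt ≤ x := by
  rw [← ProjectiveSpectrum.as_ideal_le_as_ideal]
  exact bot_le

lemma specializes_iff (x y : PX) : x ⤳ y ↔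
    (x : ProjectiveSpectrum 𝒜).asHomogeneousIdeal ≤ (y : ProjectiveSpectrum 𝒜).asHomogeneousIdeal := by
  rw [ProjectiveSpectrum.as_ideal_le_as_ideal, ProjectiveSpectrum.le_iff_mem_closure]
  exact specializes_iff_mem_closure

lemma closure_eta : closure {(etaPt : PX)} = Set.univ := by
  ext x
  simp only [Set.mem_univ, iff_true]
  exact (ProjectiveSpectrum.le_iff_mem_closure _ _ _).mp (etaPt_le x)

instance : IrreducibleSpace PX := by
  have : IsIrreducible (Set.univ : Set PX) :=
    closure_eta ▸ isIrreducible_singleton.closure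
  exact { isPreirreducible_univ := this.2, toNonempty := ⟨etaPt⟩ }

lemma genericPoint_eq : genericPoint PX = etaPt := by
  refine ((genericPoint_spec PX).eq ?_)
  exact closure_eta

/-- The map from the stalk to `K0`. -/
def rho (x : PX) : PX.presheaf.stalk x →+* K0 :=
  (toK0 _ (zero_not_mem _)).comp (Proj.stalkIso 𝒜 x).hom.hom

lemma toK0_injective (x : Submonoid S) (hx : (0 : S) ∉ x) : Function.Injective (toK0 x hx) := by
  rw [injective_iff_map_eq_zero]
  intro a ha
  obtain ⟨c, rfl⟩ := HomogeneousLocalization.mk_surjective a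
  rw [toK0_mk, div_eq_zero_iff] at ha
  rcases ha with ha | ha
  · rw [IsFractionRing.to_map_eq_zero_iff] at ha
    exact HomogeneousLocalization.mk_eq_zero_of_num _ (Subtype.ext (bar_eq_zero c.num.2 ha))
  · exact absurd ha (den_ne hx c)

lemma rho_injective (x : PX) : Function.Injective (rho x) := by
  have h1 := toK0_injective (x.asHomogeneousIdeal.toIdeal.primeCompl) (zero_not_mem _)
  have h2 : Function.Injective (Proj.stalkIso 𝒜 x).hom.hom :=
    (ConcreteCategory.bijective_of_isIso (Proj.stalkIso 𝒜 x).hom).1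
  exact h1.comp h2

instance (x : PX) : IsDomain (PX.presheaf.stalk x) := (rho_injective x).isDomain (rho x)

instance : IsReduced PX := isReduced_of_isReduced_stalk PX

instance : IsIntegral PX := isIntegral_of_irreducibleSpace_of_isReduced PX

/-- The identification of the function field. -/
def j0 : PX.functionField →+* K0 := rho (genericPoint PX)

lemma j0_injective : Function.Injective j0 := rho_injective _

lemma rho_germ (U : PX.Opens) (x : PX) (hx : x ∈ U) (s : Γ(PX, U)) :
    rho x (PX.presheaf.germ U x hx s) = toK0 _ (zero_not_mem _) (s.1 ⟨x, hx⟩) := by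
  have := Proj.stalkIso'_germ 𝒜 U x hx s
  unfold rho
  rw [RingHom.comp_apply]
  congr 1

lemma j0_algebraMap (x : PX) (g : PX.presheaf.stalk x) :
    j0 (algebraMap (PX.presheaf.stalk x) PX.functionField g) = rho x g := by
  obtain ⟨U, hxU, s, rfl⟩ := PX.presheaf.exists_germ_eq g
  have : Nonempty U := ⟨⟨x, hxU⟩⟩
  rw [Scheme.algebraMap_germ_eq_germToFunctionField, rho_germ]
  unfold Scheme.germToFunctionField j0
  rw [rho_germ]
  obtain ⟨V, hxV, i, n, a, b, h, e⟩ := s.2 ⟨x, hxU⟩
  have hη : genericPoint PX ∈ V := (genericPoint_specializes x).mem_open V.2 hxV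
  have e1 := e ⟨x, hxV⟩
  have e2 := e ⟨genericPoint PX, hη⟩
  simp only at e1 e2
  erw [e1, e2]
  simp

end Pool.Agent.Helper38.Fol
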