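import Pool.Agent.Helper38.Fol.Laurent
import Pool.Agent.Helper38.Fol.Sch

open AlgebraicGeometry CategoryTheory HomogeneousLocalization

noncomputable section
namespace Pool.Agent.Helper38.Fol

/-- The polynomial algebra in three variables is standard smooth of relative dimension three. -/
lemma stdSmooth_R3 : Algebra.IsStandardSmoothOfRelativeDimension 3 ℂ R3 := by
  let P : Algebra.PreSubmersivePresentation ℂ R3 (Fin 3) PEmpty.{1} :=
    { toGenerators := Algebra.Generators.mvPolynomial ℂ (Fin 3)
      relation := PEmpty.elim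
      span_range_relation_eq_ker := by
        symm
        rw [Set.range_eq_empty, Ideal.span_empty, Algebra.Generators.ker_eq_ker_aeval_val]
        rw [← RingHom.injective_iff_ker_eq_bot]
        intro a b h
        have h1 := MvPolynomial.aeval_X_left_apply a
        have h2 := MvPolynomial.aeval_X_left_apply b
        rw [← h1, ← h2]
        exact h
      map := PEmpty.elim
      map_inj := fun a => a.elim }
  have hj : IsUnit P.jacobian := by
    have : P.jacobian = 1 := by
      have : (algebraMap P.Ring R3).mapMatrix P.jacobiMatrix = 1 := by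
        ext (i j : PEmpty)
        contradiction
      rw [Algebra.PreSubmersivePresentation.jacobian_eq_jacobiMatrix_det, RingHom.map_det]
      exact (congrArg Matrix.det this).trans Matrix.det_one
    rw [this]
    exact isUnit_one
  let Q : Algebra.SubmersivePresentation ℂ R3 (Fin 3) PEmpty.{1} := ⟨P, hj⟩
  exact Q.isStandardSmoothOfRelativeDimension (by simp [Algebra.Presentation.dimension])

/-- The data of an affine chart: a vertex `v` of the polytope, its neighbours `m i`, and the dual
coordinates. -/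
structure ChartData where
  v : M
  hv : v.1.2 = 1
  m : Fin 3 → M
  hm : ∀ i, (m i).1.2 = 1
  β : Fin 3 → (Fin 3 → ℤ) →+ ℤ
  hβ : ∀ u : Fin 3 → ℤ, u = ∑ i, β i u • (toZ (m i).1.1 - toZ v.1.1)
  hβα : ∀ i j, β i (toZ (m j).1.1 - toZ v.1.1) = if i = j then 1 else 0
  nonneg : ∀ (p : M) i, 0 ≤ β i (toZ p.1.1 - (p.1.2 : ℤ) • toZ v.1.1)

namespace ChartData

variable (c : ChartData)

/-- The exponents of the coordinates of the chart. -/
def α (i : Fin 3) : Fin 3 → ℤ := toZ (c.m i).1.1 - toZ c.v.1.1

/-- the additive map on exponents given by the chart -/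
def expMap : (Fin 3 →₀ ℕ) →+ (Fin 3 → ℤ) where
  toFun e := ∑ i, (e i : ℤ) • c.α i
  map_zero' := by simp
  map_add' a b := by simp [add_smul, Finset.sum_add_distrib]

lemma expMap_injective : Function.Injective c.expMap := by
  intro a b h
  ext j
  have h1 : ∀ e : Fin 3 →₀ ℕ, c.β j (c.expMap e) = e j := by
    intro e
    change c.β j (∑ i, (e i : ℤ) • c.α i) = _
    rw [map_sum]
    simp only [map_zsmul]
    simp_rw [ChartData.α, c.hβα]
    simp
  have := congrArg (c.β j) h
  rw [h1, h1] at this
  exact_mod_cast this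

/-- The chart map to `K0`: the coordinates are the Laurent monomials with exponents `α i`. -/
def toK : R3 →ₐ[ℂ] K0 := MvPolynomial.aeval fun i => mon (c.α i)

lemma toK_monomial (e : Fin 3 →₀ ℕ) (r : ℂ) :
    c.toK (MvPolynomial.monomial e r) = r • mon (c.expMap e) := by
  unfold toK
  rw [MvPolynomial.aeval_monomial, Algebra.smul_def]
  congr 1
  rw [Finsupp.prod_fintype _ _ (by simp)]
  change _ = mon (∑ i, (e i : ℤ) • c.α i)
  rw [mon_sum]
  refine Finset.prod_congr rfl fun i _ => ?_
  rw [mon_zsmul, zpow_natCast]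

lemma toK_eq (p : R3) :
    c.toK p = Lmap (AddMonoidAlgebra.mapDomainAlgHom ℂ ℂ c.expMap p) := by
  induction p using MvPolynomial.induction_on' with
  | monomial m r =>
    rw [toK_monomial]
    have : AddMonoidAlgebra.mapDomainAlgHom ℂ ℂ c.expMap (MvPolynomial.monomial m r) =
      (AddMonoidAlgebra.single (c.expMap m) r : Lau) := AddMonoidAlgebra.mapDomain_single
    rw [this, Lmap_single]
  | add p q hp hq => rw [map_add, map_add, map_add, hp, hq]

lemma toK_injective : Function.Injective c.toK := by
  intro a b h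
  rw [toK_eq, toK_eq] at h
  exact AddMonoidAlgebra.mapDomain_injective c.expMap_injective (Lmap_injective h)

lemma exists_poly {n : ℕ} (a : S) (ha : a ∈ 𝒜 n) :
    ∃ p : R3, algebraMap R3 K0 (bar a) = mon (toZ c.v.1.1) ^ n * c.toK p := by
  revert a
  apply grade_induction
  · exact ⟨0, by simp⟩
  · rintro a b ⟨p, hp⟩ ⟨q, hq⟩
    exact ⟨p + q, by rw [map_add, map_add, hp, hq, map_add, mul_add]⟩
  · intro p r hp
    have h0 := c.hβ (toZ p.1.1 - (p.1.2 : ℤ) • toZ c.v.1.1)
    refine ⟨MvPolynomial.monomial (Finsupp.equivFunOnFinite.symm fun i =>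
      (c.β i (toZ p.1.1 - (p.1.2 : ℤ) • toZ c.v.1.1)).toNat) r, ?_⟩
    rw [bar_single, algebraMap_monomial, toK_monomial, C_eq, Algebra.smul_def, mul_left_comm]
    congr 1
    have h2 : ∀ u : Fin 3 → ℤ, (∀ i, 0 ≤ c.β i u) → u = ∑ i, c.β i u • c.α i →
        c.expMap (Finsupp.equivFunOnFinite.symm fun i => (c.β i u).toNat) = u := by
      intro u hu hu'
      change (∑ i, (((c.β i u).toNat : ℕ) : ℤ) • c.α i) = u
      conv_rhs => rw [hu']
      refine Finset.sum_congr rfl fun i _ => ?_
      rw [Int.toNat_of_nonneg (hu i)]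
    have h1 := h2 _ (c.nonneg p) h0
    rw [h1, hp, mon_sub, mon_zsmul, zpow_natCast]
    have := mon_ne (toZ c.v.1.1)
    field_simp

/-- the homogeneous element of the chart -/
def f : S := monoS c.v

lemma f_mem : c.f ∈ 𝒜 1 := single_mem _ c.hv 1

lemma f_ne : c.f ≠ 0 := monoS_ne _

lemma zero_not_mem_powers : (0 : S) ∉ Submonoid.powers c.f := by
  rintro ⟨n, hn⟩
  exact (pow_ne_zero n c.f_ne) hn

end ChartData

end Pool.Agent.Helper38.Fol
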