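import Pool.Agent.Helper38.Fol.Smooth

open AlgebraicGeometry CategoryTheory HomogeneousLocalization

set_option linter.all false

noncomputable section
namespace Pool.Agent.Helper38.Fol

/-- The linear form with coefficients `a b c`. -/
def form (a b c : ℤ) : (Fin 3 → ℤ) →+ ℤ where
  toFun u := a * u 0 + b * u 1 + c * u 2
  map_zero' := by simp
  map_add' u v := by simp; ring

@[simp] lemma form_apply (a b c : ℤ) (u : Fin 3 → ℤ) :
    form a b c u = a * u 0 + b * u 1 + c * u 2 := rfl

@[simp] lemma toZ_gen (a b c : ℕ) (h) : toZ (gen a b c h).1.1 = ![(a : ℤ), b, c] := by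
  ext i
  fin_cases i <;> rfl

@[simp] lemma gen_deg (a b c : ℕ) (h) : (gen a b c h).1.2 = 1 := rfl

/-- the chart at the vertex `(1, 0, 0)` -/
def chA0 : ChartData where
  v := gen 1 0 0 (by decide)
  hv := rfl
  m := ![gen 2 0 0 (by decide), gen 0 1 0 (by decide), gen 0 0 1 (by decide)]
  hm := by intro i; fin_cases i <;> rfl
  β := ![form 1 1 1, form 0 1 0, form 0 0 1]
  hβ := by
    intro u
    ext k
    fin_cases k <;> simp [Fin.sum_univ_three] <;> ring
  hβα := by
    intro i j
    fin_cases i <;> fin_cases j <;> simp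
  nonneg := by
    intro p i
    obtain ⟨h1, h2, h3⟩ := M_prop p
    have h10 := h1 0
    have h11 := h1 1
    have h12 := h1 2
    fin_cases i <;>
    simp only [form_apply, Pi.sub_apply, Pi.smul_apply, smul_eq_mul, toZ_gen, toZ_apply,
      Matrix.cons_val, Fin.mk_zero, Fin.mk_one, Fin.reduceFinMk, Fin.isValue] <;> omega

/-- the chart at the vertex `(0, 1, 0)` -/
def chA1 : ChartData where
  v := gen 0 1 0 (by decide)
  hv := rfl
  m := ![gen 0 2 0 (by decide), gen 1 0 0 (by decide), gen 0 0 1 (by decide)]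
  hm := by intro i; fin_cases i <;> rfl
  β := ![form 1 1 1, form 1 0 0, form 0 0 1]
  hβ := by
    intro u
    ext k
    fin_cases k <;> simp [Fin.sum_univ_three] <;> ring
  hβα := by
    intro i j
    fin_cases i <;> fin_cases j <;> simp
  nonneg := by
    intro p i
    obtain ⟨h1, h2, h3⟩ := M_prop p
    have h10 := h1 0
    have h11 := h1 1
    have h12 := h1 2
    fin_cases i <;>
    simp only [form_apply, Pi.sub_apply, Pi.smul_apply, smul_eq_mul, toZ_gen, toZ_apply,
      Matrix.cons_val, Fin.mk_zero, Fin.mk_one, Fin.reduceFinMk, Fin.isValue] <;> omega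

/-- the chart at the vertex `(0, 0, 1)` -/
def chA2 : ChartData where
  v := gen 0 0 1 (by decide)
  hv := rfl
  m := ![gen 0 0 2 (by decide), gen 1 0 0 (by decide), gen 0 1 0 (by decide)]
  hm := by intro i; fin_cases i <;> rfl
  β := ![form 1 1 1, form 1 0 0, form 0 1 0]
  hβ := by
    intro u
    ext k
    fin_cases k <;> simp [Fin.sum_univ_three] <;> ring
  hβα := by
    intro i j
    fin_cases i <;> fin_cases j <;> simp
  nonneg := by
    intro p i
    obtain ⟨h1, h2, h3⟩ := M_prop p
    have h10 := h1 0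
    have h11 := h1 1
    have h12 := h1 2
    fin_cases i <;>
    simp only [form_apply, Pi.sub_apply, Pi.smul_apply, smul_eq_mul, toZ_gen, toZ_apply,
      Matrix.cons_val, Fin.mk_zero, Fin.mk_one, Fin.reduceFinMk, Fin.isValue] <;> omega

/-- the chart at the vertex `(1, 2, 2)` -/
def chC0 : ChartData where
  v := gen 1 2 2 (by decide)
  hv := rfl
  m := ![gen 0 2 2 (by decide), gen 2 1 2 (by decide), gen 2 2 1 (by decide)]
  hm := by intro i; fin_cases i <;> rfl
  β := ![form (-1) (-1) (-1), form 0 (-1) 0, form 0 0 (-1)]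
  hβ := by
    intro u
    ext k
    fin_cases k <;> simp [Fin.sum_univ_three] <;> ring
  hβα := by
    intro i j
    fin_cases i <;> fin_cases j <;> simp
  nonneg := by
    intro p i
    obtain ⟨h1, h2, h3⟩ := M_prop p
    have h10 := h1 0
    have h11 := h1 1
    have h12 := h1 2
    fin_cases i <;>
    simp only [form_apply, Pi.sub_apply, Pi.smul_apply, smul_eq_mul, toZ_gen, toZ_apply,
      Matrix.cons_val, Fin.mk_zero, Fin.mk_one, Fin.reduceFinMk, Fin.isValue] <;> omega

/-- the chart at the vertex `(2, 1, 2)` -/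
def chC1 : ChartData where
  v := gen 2 1 2 (by decide)
  hv := rfl
  m := ![gen 2 0 2 (by decide), gen 1 2 2 (by decide), gen 2 2 1 (by decide)]
  hm := by intro i; fin_cases i <;> rfl
  β := ![form (-1) (-1) (-1), form (-1) 0 0, form 0 0 (-1)]
  hβ := by
    intro u
    ext k
    fin_cases k <;> simp [Fin.sum_univ_three] <;> ring
  hβα := by
    intro i j
    fin_cases i <;> fin_cases j <;> simp
  nonneg := by
    intro p i
    obtain ⟨h1, h2, h3⟩ := M_prop p
    have h10 := h1 0
    have h11 := h1 1
    have h12 := h1 2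
    fin_cases i <;>
    simp only [form_apply, Pi.sub_apply, Pi.smul_apply, smul_eq_mul, toZ_gen, toZ_apply,
      Matrix.cons_val, Fin.mk_zero, Fin.mk_one, Fin.reduceFinMk, Fin.isValue] <;> omega

/-- the chart at the vertex `(2, 2, 1)` -/
def chC2 : ChartData where
  v := gen 2 2 1 (by decide)
  hv := rfl
  m := ![gen 2 2 0 (by decide), gen 1 2 2 (by decide), gen 2 1 2 (by decide)]
  hm := by intro i; fin_cases i <;> rfl
  β := ![form (-1) (-1) (-1), form (-1) 0 0, form 0 (-1) 0]
  hβ := by
    intro u
    ext k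
    fin_cases k <;> simp [Fin.sum_univ_three] <;> ring
  hβα := by
    intro i j
    fin_cases i <;> fin_cases j <;> simp
  nonneg := by
    intro p i
    obtain ⟨h1, h2, h3⟩ := M_prop p
    have h10 := h1 0
    have h11 := h1 1
    have h12 := h1 2
    fin_cases i <;>
    simp only [form_apply, Pi.sub_apply, Pi.smul_apply, smul_eq_mul, toZ_gen, toZ_apply,
      Matrix.cons_val, Fin.mk_zero, Fin.mk_one, Fin.reduceFinMk, Fin.isValue] <;> omega

/-- the chart at the vertex `(2, 0, 0)` -/
def chB100 : ChartData where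
  v := gen 2 0 0 (by decide)
  hv := rfl
  m := ![gen 1 0 0 (by decide), gen 2 1 0 (by decide), gen 2 0 1 (by decide)]
  hm := by intro i; fin_cases i <;> rfl
  β := ![form (-1) 0 0, form 0 1 0, form 0 0 1]
  hβ := by
    intro u
    ext k
    fin_cases k <;> simp [Fin.sum_univ_three] <;> ring
  hβα := by
    intro i j
    fin_cases i <;> fin_cases j <;> simp
  nonneg := by
    intro p i
    obtain ⟨h1, h2, h3⟩ := M_prop p
    have h10 := h1 0
    have h11 := h1 1
    have h12 := h1 2
    fin_cases i <;>
    simp only [form_apply, Pi.sub_apply, Pi.smul_apply, smul_eq_mul, toZ_gen, toZ_apply,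
      Matrix.cons_val, Fin.mk_zero, Fin.mk_one, Fin.reduceFinMk, Fin.isValue] <;> omega

/-- the chart at the vertex `(0, 2, 0)` -/
def chB010 : ChartData where
  v := gen 0 2 0 (by decide)
  hv := rfl
  m := ![gen 1 2 0 (by decide), gen 0 1 0 (by decide), gen 0 2 1 (by decide)]
  hm := by intro i; fin_cases i <;> rfl
  β := ![form 1 0 0, form 0 (-1) 0, form 0 0 1]
  hβ := by
    intro u
    ext k
    fin_cases k <;> simp [Fin.sum_univ_three] <;> ring
  hβα := by
    intro i j
    fin_cases i <;> fin_cases j <;> simp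
  nonneg := by
    intro p i
    obtain ⟨h1, h2, h3⟩ := M_prop p
    have h10 := h1 0
    have h11 := h1 1
    have h12 := h1 2
    fin_cases i <;>
    simp only [form_apply, Pi.sub_apply, Pi.smul_apply, smul_eq_mul, toZ_gen, toZ_apply,
      Matrix.cons_val, Fin.mk_zero, Fin.mk_one, Fin.reduceFinMk, Fin.isValue] <;> omega

/-- the chart at the vertex `(2, 2, 0)` -/
def chB110 : ChartData where
  v := gen 2 2 0 (by decide)
  hv := rfl
  m := ![gen 1 2 0 (by decide), gen 2 1 0 (by decide), gen 2 2 1 (by decide)]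
  hm := by intro i; fin_cases i <;> rfl
  β := ![form (-1) 0 0, form 0 (-1) 0, form 0 0 1]
  hβ := by
    intro u
    ext k
    fin_cases k <;> simp [Fin.sum_univ_three] <;> ring
  hβα := by
    intro i j
    fin_cases i <;> fin_cases j <;> simp
  nonneg := by
    intro p i
    obtain ⟨h1, h2, h3⟩ := M_prop p
    have h10 := h1 0
    have h11 := h1 1
    have h12 := h1 2
    fin_cases i <;>
    simp only [form_apply, Pi.sub_apply, Pi.smul_apply, smul_eq_mul, toZ_gen, toZ_apply,
      Matrix.cons_val, Fin.mk_zero, Fin.mk_one, Fin.reduceFinMk, Fin.isValue] <;> omega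

/-- the chart at the vertex `(0, 0, 2)` -/
def chB001 : ChartData where
  v := gen 0 0 2 (by decide)
  hv := rfl
  m := ![gen 1 0 2 (by decide), gen 0 1 2 (by decide), gen 0 0 1 (by decide)]
  hm := by intro i; fin_cases i <;> rfl
  β := ![form 1 0 0, form 0 1 0, form 0 0 (-1)]
  hβ := by
    intro u
    ext k
    fin_cases k <;> simp [Fin.sum_univ_three] <;> ring
  hβα := by
    intro i j
    fin_cases i <;> fin_cases j <;> simp
  nonneg := by
    intro p i
    obtain ⟨h1, h2, h3⟩ := M_prop p
    have h10 := h1 0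
    have h11 := h1 1
    have h12 := h1 2
    fin_cases i <;>
    simp only [form_apply, Pi.sub_apply, Pi.smul_apply, smul_eq_mul, toZ_gen, toZ_apply,
      Matrix.cons_val, Fin.mk_zero, Fin.mk_one, Fin.reduceFinMk, Fin.isValue] <;> omega

/-- the chart at the vertex `(2, 0, 2)` -/
def chB101 : ChartData where
  v := gen 2 0 2 (by decide)
  hv := rfl
  m := ![gen 1 0 2 (by decide), gen 2 1 2 (by decide), gen 2 0 1 (by decide)]
  hm := by intro i; fin_cases i <;> rfl
  β := ![form (-1) 0 0, form 0 1 0, form 0 0 (-1)]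
  hβ := by
    intro u
    ext k
    fin_cases k <;> simp [Fin.sum_univ_three] <;> ring
  hβα := by
    intro i j
    fin_cases i <;> fin_cases j <;> simp
  nonneg := by
    intro p i
    obtain ⟨h1, h2, h3⟩ := M_prop p
    have h10 := h1 0
    have h11 := h1 1
    have h12 := h1 2
    fin_cases i <;>
    simp only [form_apply, Pi.sub_apply, Pi.smul_apply, smul_eq_mul, toZ_gen, toZ_apply,
      Matrix.cons_val, Fin.mk_zero, Fin.mk_one, Fin.reduceFinMk, Fin.isValue] <;> omega

/-- the chart at the vertex `(0, 2, 2)` -/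
def chB011 : ChartData where
  v := gen 0 2 2 (by decide)
  hv := rfl
  m := ![gen 1 2 2 (by decide), gen 0 1 2 (by decide), gen 0 2 1 (by decide)]
  hm := by intro i; fin_cases i <;> rfl
  β := ![form 1 0 0, form 0 (-1) 0, form 0 0 (-1)]
  hβ := by
    intro u
    ext k
    fin_cases k <;> simp [Fin.sum_univ_three] <;> ring
  hβα := by
    intro i j
    fin_cases i <;> fin_cases j <;> simp
  nonneg := by
    intro p i
    obtain ⟨h1, h2, h3⟩ := M_prop p
    have h10 := h1 0
    have h11 := h1 1
    have h12 := h1 2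
    fin_cases i <;>
    simp only [form_apply, Pi.sub_apply, Pi.smul_apply, smul_eq_mul, toZ_gen, toZ_apply,
      Matrix.cons_val, Fin.mk_zero, Fin.mk_one, Fin.reduceFinMk, Fin.isValue] <;> omega

/-- The twelve charts. -/
def charts : Fin 12 → ChartData :=
  ![chA0, chA1, chA2, chC0, chC1, chC2, chB100, chB010, chB110, chB001, chB101, chB011]

end Pool.Agent.Helper38.Fol
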