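import Pool.Agent.Helper38.Fol.Eig

open AlgebraicGeometry CategoryTheory HomogeneousLocalization

set_option linter.all false

noncomputable section
namespace Pool.Agent.Helper38.Fol

/-- The generic point of the divisor `x = 0`. -/
def delta : PX := ptOf tau (gen 0 1 0 (by decide)) rfl (by
  rw [monoS, tau_single, if_pos]
  · exact monoS_ne _
  · rfl)

lemma mem_delta {n : ℕ} {a : S} (ha : a ∈ 𝒜 n) :
    a ∈ delta.asHomogeneousIdeal.toIdeal ↔ tau a = 0 := mem_ptOf _ _ _ _ ha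

lemma algHom_eq {B : Type} [CommRing B] [Algebra ℂ B] (φ ψ : S →ₐ[ℂ] B)
    (h : ∀ p : M, φ (AddMonoidAlgebra.single p 1) = ψ (AddMonoidAlgebra.single p 1)) (a : S) :
    φ a = ψ a := by
  have : φ = ψ := by
    apply AddMonoidAlgebra.algHom_ext
    · intro p
      exact h p
    · exact Subsingleton.elim _ _
  rw [this]

/-- Evaluation at a point of the plane `x = 0`. -/
def evq (u v : ℂ) : S →ₐ[ℂ] ℂ := (MvPolynomial.aeval ![0, u, v]).comp bar

lemma evq_tau (u v : ℂ) (a : S) : evq u v (tau a) = evq u v a := by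
  refine algHom_eq ((evq u v).comp tau) (evq u v) (fun p => ?_) a
  rw [AlgHom.comp_apply, tau_single]
  split_ifs with h
  · rfl
  · rw [map_zero]
    unfold evq
    rw [AlgHom.comp_apply, bar_single, MvPolynomial.aeval_monomial,
      Finsupp.prod_fintype _ _ (by simp), Fin.prod_univ_three]
    simp [h]

lemma exists_q (u v : ℂ) (h : u ≠ 0 ∨ v ≠ 0) : ∃ q : PX, delta ⤳ q ∧
    ∀ (n : ℕ) (b : S), b ∈ 𝒜 n → b ∉ q.asHomogeneousIdeal.toIdeal →
      MvPolynomial.aeval ![0, u, v] (bar b) ≠ 0 := by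
  obtain ⟨p, hp, hne⟩ : ∃ p : M, p.1.2 = 1 ∧ evq u v (monoS p) ≠ 0 := by
    rcases h with h | h
    · refine ⟨gen 0 1 0 (by decide), rfl, ?_⟩
      unfold evq monoS
      rw [AlgHom.comp_apply, bar_single, MvPolynomial.aeval_monomial,
        Finsupp.prod_fintype _ _ (by simp), Fin.prod_univ_three]
      change _ * ((0 : ℂ) ^ 0 * u ^ 1 * v ^ 0) ≠ 0
      simpa using h
    · refine ⟨gen 0 0 1 (by decide), rfl, ?_⟩
      unfold evq monoS
      rw [AlgHom.comp_apply, bar_single, MvPolynomial.aeval_monomial,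
        Finsupp.prod_fintype _ _ (by simp), Fin.prod_univ_three]
      change _ * ((0 : ℂ) ^ 0 * u ^ 0 * v ^ 1) ≠ 0
      simpa using h
  refine ⟨ptOf (evq u v) p hp hne, ?_, ?_⟩
  · apply ptOf_specializes
    intro a ha
    rw [← evq_tau, ha, map_zero]
  · intro n b hb hbq
    rw [mem_ptOf _ _ _ _ hb] at hbq
    exact hbq

/-- The chart at the point `(0, ∞, ∞)`. -/
abbrev c11 : ChartData := chB011

lemma e_c11_zero (p : M) : c11.e p 0 = p.1.1 0 := by
  change (form 1 0 0 (toZ p.1.1 - (p.1.2 : ℤ) • toZ (gen 0 2 2 (by decide)).1.1)).toNat = _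
  rw [toZ_gen]
  have : form 1 0 0 (toZ p.1.1 - (p.1.2 : ℤ) • ![((0 : ℕ) : ℤ), (2 : ℕ), (2 : ℕ)]) =
      (p.1.1 0 : ℤ) := by
    rw [form_apply]
    simp only [Pi.sub_apply, Pi.smul_apply, smul_eq_mul, toZ_apply, Matrix.cons_val]
    ring
  rw [this, Int.toNat_natCast]

/-- Evaluation at the origin of the chart. -/
def ev1 : S →ₐ[ℂ] ℂ := (MvPolynomial.aeval (fun _ => (0 : ℂ))).comp c11.cp

lemma ev1_eq (a : S) : ev1 a = (c11.cp a).coeff 0 := by
  unfold ev1
  rw [AlgHom.comp_apply]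
  have := MvPolynomial.aeval_zero' (S₁ := ℂ) (c11.cp a)
  rw [this]
  rfl

lemma ev1_tau (a : S) : ev1 (tau a) = ev1 a := by
  refine algHom_eq (ev1.comp tau) ev1 (fun p => ?_) a
  rw [AlgHom.comp_apply, tau_single]
  split_ifs with h
  · rfl
  · rw [map_zero, ev1_eq, ChartData.cp_single, MvPolynomial.coeff_monomial, if_neg]
    intro h0
    apply h
    rw [← e_c11_zero, h0]
    rfl

/-- The point `(0, ∞, ∞)`. -/
def p1 : PX := ptOf ev1 (gen 0 2 2 (by decide)) rfl (by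
  rw [ev1_eq, monoS, ChartData.cp_single]
  have : c11.e (gen 0 2 2 (by decide)) = 0 := by
    ext i
    change (c11.β i (toZ (gen 0 2 2 (by decide)).1.1 -
      (((gen 0 2 2 (by decide)).1.2 : ℕ) : ℤ) • toZ (gen 0 2 2 (by decide)).1.1)).toNat = 0
    rw [gen_deg]
    simp
  rw [this]
  simp)

lemma mem_p1 {n : ℕ} {a : S} (ha : a ∈ 𝒜 n) :
    a ∈ p1.asHomogeneousIdeal.toIdeal ↔ (c11.cp a).coeff 0 = 0 := by
  rw [← ev1_eq]
  exact mem_ptOf _ _ _ _ ha

lemma delta_p1 : delta ⤳ p1 := by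
  apply ptOf_specializes
  intro a ha
  rw [← ev1_tau, ha, map_zero]

/-- set the first variable equal to zero -/
def sub0 : R3 →ₐ[ℂ] R3 := MvPolynomial.aeval ![0, MvPolynomial.X 1, MvPolynomial.X 2]

lemma cp_tau (a : S) : c11.cp (tau a) = sub0 (c11.cp a) := by
  refine algHom_eq (c11.cp.comp tau) (sub0.comp c11.cp) (fun p => ?_) a
  rw [AlgHom.comp_apply, tau_single, AlgHom.comp_apply, ChartData.cp_single]
  unfold sub0
  rw [MvPolynomial.aeval_monomial, Finsupp.prod_fintype _ _ (by simp), Fin.prod_univ_three,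
    e_c11_zero]
  split_ifs with h
  · rw [ChartData.cp_single, h]
    rw [MvPolynomial.monomial_eq, Finsupp.prod_fintype _ _ (by simp), Fin.prod_univ_three,
      e_c11_zero, h]
    simp
  · rw [map_zero]
    simp [h]

lemma tau_eq_zero {n : ℕ} {b : S} (hb : b ∈ 𝒜 n) (h : (MvPolynomial.X 0 : R3) ∣ c11.cp b) :
    tau b = 0 := by
  by_contra h0
  apply c11.cp_ne_zero (tau_mem hb) h0
  rw [cp_tau]
  obtain ⟨r, hr⟩ := h
  rw [hr, map_mul]
  have : sub0 (MvPolynomial.X 0) = 0 := by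
    unfold sub0
    rw [MvPolynomial.aeval_X]
    rfl
  rw [this, zero_mul]

end Pool.Agent.Helper38.Fol
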