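import Pool.Agent.Helper38.Fol.Charts12

open AlgebraicGeometry CategoryTheory HomogeneousLocalization

noncomputable section
namespace Pool.Agent.Helper38.Fol

/-- The twelve vertices. -/
def vert : Fin 12 → ℕ × ℕ × ℕ :=
  ![(1, 0, 0), (0, 1, 0), (0, 0, 1), (1, 2, 2), (2, 1, 2), (2, 2, 1),
    (2, 0, 0), (0, 2, 0), (2, 2, 0), (0, 0, 2), (2, 0, 2), (0, 2, 2)]

lemma charts_v (i : Fin 12) :
    (charts i).v.1 = (mkExp (vert i).1 (vert i).2.1 (vert i).2.2, 1) := by
  fin_cases i <;> rfl

lemma vert_mid (a b c : Fin 3) (h : 1 ≤ (a : ℕ) + b + c ∧ (a : ℕ) + b + c ≤ 5) :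
    ∃ i j : Fin 12, 2 * (a : ℕ) = (vert i).1 + (vert j).1 ∧
      2 * (b : ℕ) = (vert i).2.1 + (vert j).2.1 ∧ 2 * (c : ℕ) = (vert i).2.2 + (vert j).2.2 := by
  revert a b c
  decide

lemma monoS_add (p q : M) : monoS (p + q) = monoS p * monoS q := by
  unfold monoS
  rw [AddMonoidAlgebra.single_mul_single, mul_one]

lemma exists_chart (x : PX) : ∃ i, (charts i).f ∉ x.asHomogeneousIdeal.toIdeal := by
  by_contra! hcon
  have hx := x.isPrime
  set I : Ideal S := x.asHomogeneousIdeal.toIdeal with hI
  have h1 : ∀ p : M, p = 0 ∨ monoS p ∈ I := by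
    rintro ⟨p, hp⟩
    induction hp using AddSubmonoid.closure_induction with
    | mem q hq =>
      right
      obtain ⟨h1, h2, h3, h4⟩ := hq
      have h20 := h2 0
      have h21 := h2 1
      have h22 := h2 2
      obtain ⟨i, j, e1, e2, e3⟩ := vert_mid ⟨q.1 0, by omega⟩ ⟨q.1 1, by omega⟩
        ⟨q.1 2, by omega⟩ ⟨h3, h4⟩
      simp only at e1 e2 e3
      have hq' : q ∈ M := AddSubmonoid.subset_closure ⟨h1, h2, h3, h4⟩
      have h5 : monoS ⟨q, hq'⟩ ^ 2 = (charts i).f * (charts j).f := by
        unfold ChartData.f
        rw [pow_two, ← monoS_add, ← monoS_add]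
        congr 1
        apply Subtype.ext
        have hi := charts_v i
        have hj := charts_v j
        change q + q = (charts i).v.1 + (charts j).v.1
        rw [hi, hj]
        apply Prod.ext
        · ext k
          fin_cases k
          · change q.1 0 + q.1 0 = (vert i).1 + (vert j).1
            omega
          · change q.1 1 + q.1 1 = (vert i).2.1 + (vert j).2.1
            omega
          · change q.1 2 + q.1 2 = (vert i).2.2 + (vert j).2.2
            omega
        · change q.2 + q.2 = 1 + 1
          omega
      exact hx.mem_of_pow_mem 2 (h5 ▸ I.mul_mem_right _ (hcon i))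
    | zero => left; rfl
    | add a b ha hb iha ihb =>
      rcases iha with iha | iha
      · have : a = 0 := congrArg Subtype.val iha
        subst this
        rcases ihb with ihb | ihb
        · left
          have : b = 0 := congrArg Subtype.val ihb
          subst this
          exact Subtype.ext (add_zero _)
        · right
          simpa using ihb
      · right
        have : monoS ⟨a + b, add_mem ha hb⟩ = monoS ⟨a, ha⟩ * monoS ⟨b, hb⟩ :=
          monoS_add ⟨a, ha⟩ ⟨b, hb⟩
        rw [this]
        exact I.mul_mem_right _ iha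
  have h2 : ∀ n, 0 < n → ∀ a ∈ 𝒜 n, a ∈ I := by
    intro n hn
    apply grade_induction
    · exact I.zero_mem
    · intro a b ha hb
      exact I.add_mem ha hb
    · intro p r hp
      have h3 : monoS p ∈ I := by
        rcases h1 p with h | h
        · exfalso
          subst h
          simp at hp
          omega
        · exact h
      have h4 : (AddMonoidAlgebra.single p r : S) = r • monoS p := by
        unfold monoS
        rw [AddMonoidAlgebra.smul_single]
        simp
      rw [h4]
      exact Submodule.smul_of_tower_mem I r h3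
  apply x.not_irrelevant_le
  apply (HomogeneousIdeal.toIdeal_irrelevant_le _).mpr
  intro i hi a ha
  exact h2 i hi a ha

lemma iSup_charts : ⨆ i, Proj.basicOpen 𝒜 (charts i).f = ⊤ := by
  rw [eq_top_iff]
  intro x _
  obtain ⟨i, hi⟩ := exists_chart x
  exact TopologicalSpace.Opens.mem_iSup.mpr ⟨i, hi⟩

instance smoothX : SmoothOfRelativeDimension 3 strX := by
  rw [IsZariskiLocalAtSource.iff_of_iSup_eq_top (P := @SmoothOfRelativeDimension 3) _ iSup_charts]
  intro i
  exact (charts i).smooth_ι

end Pool.Agent.Helper38.Fol
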