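import Mathlib

/-!
# Foliations on complex varieties

The definitions used in the statement of the counterexample.  They follow the problem file, in
the case of foliations of rank one and of the zero boundary divisor.
-/

open AlgebraicGeometry CategoryTheory

noncomputable section
namespace Pool.Agent.Helper38.Fol

attribute [local instance] MvPolynomial.gradedAlgebra

/-- A complex variety: an integral separated scheme of finite type over `Spec ℂ`. -/
structure Variety where
  /-- the underlying scheme -/
  X : Scheme.{0}
  /-- the structure morphism -/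
  str : X ⟶ Spec (.of ℂ)
  integral : IsIntegral X
  separated : IsSeparated str
  locallyOfFiniteType : LocallyOfFiniteType str
  quasiCompact : QuasiCompact str

attribute [instance] Variety.integral Variety.separated Variety.locallyOfFiniteType
  Variety.quasiCompact

namespace Variety

/-- The function field `ℂ(X)` of a variety. -/
abbrev K (V : Variety) : Type := V.X.functionField

/-- The inclusion of the constants `ℂ` in the function field. -/
def const (V : Variety) : ℂ →+* V.K :=
  (Spec.preimage (V.X.fromSpecStalk (genericPoint V.X) ≫ V.str)).hom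

lemma const_eq (V : Variety) : V.const =
    (V.X.presheaf.germ ⊤ (genericPoint V.X) trivial).hom.comp
      ((V.str.appTop).hom.comp (Scheme.ΓSpecIso (.of ℂ)).inv.hom) := by
  have h1 : V.X.fromSpecStalk (genericPoint V.X) ≫ V.str =
      Spec.map (CommRingCat.ofHom ((V.X.presheaf.germ ⊤ (genericPoint V.X) trivial).hom.comp
        ((V.str.appTop).hom.comp (Scheme.ΓSpecIso (.of ℂ)).inv.hom))) := by
    apply ext_of_isAffine
    rw [Scheme.Hom.comp_appTop, Scheme.fromSpecStalk_appTop]
    rw [← cancel_mono (Scheme.ΓSpecIso _).hom, Scheme.ΓSpecIso_naturality]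
    rw [← cancel_epi (Scheme.ΓSpecIso (.of ℂ)).inv]
    simp only [Category.assoc, Iso.inv_hom_id, Category.comp_id, Iso.inv_hom_id_assoc]
    have e : ∀ (S : CommRingCat.{0}) (h : (⊤ : (Spec S).Opens) ≤ ⊤),
        (Spec S).presheaf.map (homOfLE h).op = 𝟙 _ := fun S h => (Spec S).presheaf.map_id _
    erw [e]
    erw [Category.id_comp]
    rw [Iso.inv_hom_id]
    rfl
  unfold const
  rw [h1, Spec.preimage_map]
  rfl

instance instAlgebraK (V : Variety) : Algebra ℂ V.K := V.const.toAlgebra

/-- The local ring of `X` at a point `x`, as a subring of the function field. -/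
def localRing (V : Variety) (x : V.X) : Subring V.K :=
  (algebraMap (V.X.presheaf.stalk x) V.X.functionField).range

/-- Projective space of dimension `n`, with its structure morphism to `Spec ℂ`. -/
def projStr (n : ℕ) :
    Proj (MvPolynomial.homogeneousSubmodule (Fin (n + 1)) ℂ) ⟶ Spec (.of ℂ) :=
  Proj.toSpecZero (MvPolynomial.homogeneousSubmodule (Fin (n + 1)) ℂ) ≫
    Spec.map (CommRingCat.ofHom
      (algebraMap ℂ (MvPolynomial.homogeneousSubmodule (Fin (n + 1)) ℂ 0)))

/-- `X` is projective: it is a closed subscheme, over `ℂ`, of a projective space. -/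
def IsProjective (V : Variety) : Prop :=
  ∃ (n : ℕ) (i : V.X ⟶ Proj (MvPolynomial.homogeneousSubmodule (Fin (n + 1)) ℂ)),
    IsClosedImmersion i ∧ i ≫ projStr n = V.str

end Variety

/-- A foliation on `X`.  A saturated subsheaf `T_F` of the tangent sheaf `T_X` is the same as its
stalk at the generic point, a `ℂ(X)`-linear subspace `T` of the space of `ℂ`-derivations of
`ℂ(X)`: the sections of `T_F` over an open set `U` are the derivations of `O_X(U)` that lie in
`T`.  The subsheaf is closed under the Lie bracket if and only if `T` is. -/
structure Foliation (V : Variety) where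
  /-- the stalk of `T_F` at the generic point -/
  T : Submodule V.K (Derivation ℂ V.K V.K)
  lie_mem : ∀ D₁ ∈ T, ∀ D₂ ∈ T, ⁅D₁, D₂⁆ ∈ T

namespace Foliation

variable {V : Variety}

/-- The rank of a foliation. -/
def rank (F : Foliation V) : ℕ := Module.finrank V.K F.T

/-- The rational map `f` from `X` to `Y` induces the foliation `F`: a derivation `D` of `ℂ(X)`
lies in `T` if and only if it lies in the kernel of `df`, that is, `D` kills the pullback
(an element of `ℂ(X)`) of each section of `O_Y` over each open subset of `Y` that contains the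
image of the generic point of `X`. -/
def Induces (F : Foliation V) {W : Variety} (f : V.X ⤏ W.X) : Prop :=
  ∀ D : Derivation ℂ V.K V.K, D ∈ F.T ↔
    ∀ (U : W.X.Opens) (hU : ⊤ ≤ f.fromFunctionField ⁻¹ᵁ U) (s : Γ(W.X, U)),
      D ((Scheme.ΓSpecIso V.X.functionField).hom (f.fromFunctionField.appLE U ⊤ hU s)) = 0

/-- `F` is algebraically integrable: some dominant rational map to a variety induces it. -/
def AlgebraicallyIntegrable (F : Foliation V) : Prop :=
  ∃ (W : Variety) (f : V.X ⤏ W.X), f.IsDominant ∧ f.compHom W.str = V.str.toRationalMap ∧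
    F.Induces f

/-- Some (dominant) morphism to a variety induces `F`. -/
def InducedByMorphism (F : Foliation V) : Prop :=
  ∃ (W : Variety) (f : V.X ⟶ W.X), IsDominant f ∧ f ≫ W.str = V.str ∧
    F.Induces f.toRationalMap

/-- `D` is a generator of the module `{D' ∈ T | D' R ⊆ R}` of sections of `T_F` over the subring
`R` of `ℂ(X)` (a local ring of `X`, or of a variety birational to `X`), and this module is free
of rank one. -/
def IsGenerator (F : Foliation V) (R : Subring V.K) (D : Derivation ℂ V.K V.K) : Prop :=
  D ∈ F.T ∧ D ≠ 0 ∧ (∀ r ∈ R, D r ∈ R) ∧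
    ∀ D' ∈ F.T, (∀ r ∈ R, D' r ∈ R) → ∃ a ∈ R, D' = a • D

end Foliation

/-- A prime divisor `E` over `X`: the local ring `R` of a variety birational to `X` at a point of
codimension one where it is normal, such that `E` has a centre on `X`.  So `R` is a discrete
valuation ring of `ℂ(X)` containing `ℂ`, it is a localisation of a finitely generated
`ℂ`-algebra, and it dominates the local ring of `X` at the centre. -/
structure DivisorOver (V : Variety) where
  /-- the local ring at the generic point of `E` -/
  R : ValuationSubring V.K
  dvr : IsDiscreteValuationRing R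
  const_mem : ∀ c : ℂ, algebraMap ℂ V.K c ∈ R
  essFiniteType : ∃ s : Finset V.K, (∀ g ∈ s, g ∈ R) ∧ ∀ r ∈ R,
    ∃ a ∈ Algebra.adjoin ℂ (s : Set V.K), ∃ b ∈ Algebra.adjoin ℂ (s : Set V.K),
      b ≠ 0 ∧ b⁻¹ ∈ R ∧ r = a * b⁻¹
  /-- the centre of `E` on `X` -/
  center : V.X
  le : ∀ g ∈ V.localRing center, g ∈ R
  dominates : ∀ g ∈ V.localRing center, g⁻¹ ∈ R → g⁻¹ ∈ V.localRing center

namespace DivisorOver

variable {V : Variety}

/-- `E` is exceptional over `X`: it is not a prime divisor on `X`, that is, its local ring is not
a local ring of `X` (for normal `X`, this says that the centre has codimension at least two). -/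
def IsExceptional (E : DivisorOver V) : Prop := E.R.toSubring ≠ V.localRing E.center

/-- `a` is the discrepancy `a(E, F)` of `E` with respect to a foliation `F` of rank one whose
canonical divisor `K_F` is Cartier at the centre of `E`.  Let `D` be a local generator of
`T_F = O(-K_F)` at the centre of `E` and let `D'` be a generator of the pulled back foliation at
`E`.  Then `D' = u ϖ ^ a • D` with `ϖ` a uniformiser of `R` and `u` a unit of `R`, and
`K_F' = π^* K_F + a E` near the generic point of `E`. -/
def HasDiscrepancy (F : Foliation V) (E : DivisorOver V) (a : ℤ) : Prop :=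
  ∃ D D' : Derivation ℂ V.K V.K, F.IsGenerator (V.localRing E.center) D ∧
    F.IsGenerator E.R.toSubring D' ∧
    ∃ (ϖ : E.R) (u : E.Rˣ), Irreducible ϖ ∧ D' = (((u : E.R) : V.K) * (ϖ : V.K) ^ a) • D

end DivisorOver

/-- The foliation `F` of rank one has canonical singularities: the discrepancy of each
exceptional prime divisor over `X` is nonnegative. -/
def Foliation.IsCanonical {V : Variety} (F : Foliation V) : Prop :=
  ∀ E : DivisorOver V, E.IsExceptional → ∃ a : ℤ, 0 ≤ a ∧ E.HasDiscrepancy F a

end Pool.Agent.Helper38.Fol
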