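import Pool.Agent.Helper38.Fol.Cover
import Pool.Agent.Helper38.Fol.Defs

open AlgebraicGeometry CategoryTheory HomogeneousLocalization

noncomputable section
namespace Pool.Agent.Helper38.Fol

lemma gens_finite : gens.Finite := by
  have : gens ⊆ Set.range (fun q : (Fin 3 → Fin 3) =>
      ((Finsupp.equivFunOnFinite.symm fun i => (q i : ℕ), 1) : Expo)) := by
    rintro p ⟨h1, h2, -, -⟩
    refine ⟨fun i => ⟨p.1 i, by have := h2 i; omega⟩, ?_⟩
    apply Prod.ext
    · ext i; rfl
    · exact h1.symm
  exact (Set.finite_range _).subset this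

instance : AddMonoid.FG M := by
  rw [AddMonoid.fg_iff_addSubmonoid_fg]
  exact ⟨gens_finite.toFinset, by simp [M]⟩

instance : Algebra.FiniteType ℂ S := inferInstance

instance : IsScalarTower ℂ (𝒜 0) S where
  smul_assoc r a s := by
    change (r • (a : S)) * s = r • ((a : S) * s)
    exact smul_mul_assoc r _ _

instance : Algebra.FiniteType (𝒜 0) S := Algebra.FiniteType.of_restrictScalars_finiteType ℂ _ _

lemma deg_zero {p : M} (h : p.1.2 = 0) : p = 0 := by
  obtain ⟨h1, h2, h3⟩ := M_prop p
  apply Subtype.ext
  apply Prod.ext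
  · ext i
    have := h1 i
    rw [h] at this
    change p.1.1 i = 0
    omega
  · exact h

lemma algebraMap_bij : Function.Bijective (algebraMap ℂ (𝒜 0)) := by
  constructor
  · intro a b h
    have h1 : algebraMap ℂ S a = algebraMap ℂ S b := congrArg Subtype.val h
    exact (algebraMap ℂ S).injective h1
  · rintro ⟨a, ha⟩
    have : ∃ r : ℂ, algebraMap ℂ S r = a := by
      revert a
      intro a ha
      revert a
      apply grade_induction
      · exact ⟨0, map_zero _⟩
      · rintro a b ⟨r, rfl⟩ ⟨s, rfl⟩
        exact ⟨r + s, map_add _ _ _⟩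
      · intro p r hp
        rw [deg_zero hp]
        exact ⟨r, rfl⟩
    obtain ⟨r, hr⟩ := this
    exact ⟨r, Subtype.ext hr⟩

instance : IsIso (Spec.map (CommRingCat.ofHom (algebraMap ℂ (𝒜 0)))) := by
  have : IsIso (CommRingCat.ofHom (algebraMap ℂ (𝒜 0))) := by
    rw [ConcreteCategory.isIso_iff_bijective]
    exact algebraMap_bij
  infer_instance

instance : IsProper strX := by
  unfold strX
  infer_instance

/-- The threefold, as a variety. -/
abbrev VX : Variety where
  X := PX
  str := strX
  integral := inferInstance
  separated := inferInstance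
  locallyOfFiniteType := inferInstance
  quasiCompact := inferInstance

end Pool.Agent.Helper38.Fol
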