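import Pool.Agent.Helper38.Fol.Gen
import Pool.Agent.Helper38.Fol.Canon
import Pool.Agent.Helper38.Fol.Cover
import Pool.Agent.Helper38.Fol.VarX

open AlgebraicGeometry CategoryTheory HomogeneousLocalization

set_option linter.all false

noncomputable section
namespace Pool.Agent.Helper38.Fol

/-- total weight -/
def wtM (p : M) : ℤ := ∑ j, toZ p.1.1 j

lemma wtM_gen (a b c : ℕ) (h) : wtM (gen a b c h) = a + b + c := by
  unfold wtM
  rw [toZ_gen, Fin.sum_univ_three]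
  rfl

lemma wt_eq (c : ChartData) (i : Fin 3) : c.wt i = wtM (c.m i) - wtM c.v := by
  unfold ChartData.wt ChartData.α wtM
  rw [← Finset.sum_sub_distrib]
  rfl

/-- chart of type A : the vector field vanishes along a divisor -/
def TypeA (c : ChartData) : Prop :=
  (c.wt 0 = 1 ∨ c.wt 0 = -1) ∧ c.wt 1 = 0 ∧ c.wt 2 = 0

/-- chart of type B : the vector field has an isolated zero with weights of both signs. -/
def TypeB (c : ChartData) : Prop :=
  (∀ i, c.wt i = 1 ∨ c.wt i = -1) ∧ (∃ i, c.wt i = 1) ∧ (∃ i, c.wt i = -1)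

lemma type_chA0 : TypeA chA0 := by
  refine ⟨?_, ?_, ?_⟩ <;> simp [wt_eq, chA0, wtM_gen]
lemma type_chA1 : TypeA chA1 := by
  refine ⟨?_, ?_, ?_⟩ <;> simp [wt_eq, chA1, wtM_gen]
lemma type_chA2 : TypeA chA2 := by
  refine ⟨?_, ?_, ?_⟩ <;> simp [wt_eq, chA2, wtM_gen]
lemma type_chC0 : TypeA chC0 := by
  refine ⟨?_, ?_, ?_⟩ <;> simp [wt_eq, chC0, wtM_gen]
lemma type_chC1 : TypeA chC1 := by
  refine ⟨?_, ?_, ?_⟩ <;> simp [wt_eq, chC1, wtM_gen]
lemma type_chC2 : TypeA chC2 := by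
  refine ⟨?_, ?_, ?_⟩ <;> simp [wt_eq, chC2, wtM_gen]
lemma type_chB100 : TypeB chB100 := by
  refine ⟨?_, ⟨1, ?_⟩, ⟨0, ?_⟩⟩
  · intro i; fin_cases i <;> simp [wt_eq, chB100, wtM_gen]
  all_goals simp [wt_eq, chB100, wtM_gen]
lemma type_chB010 : TypeB chB010 := by
  refine ⟨?_, ⟨0, ?_⟩, ⟨1, ?_⟩⟩
  · intro i; fin_cases i <;> simp [wt_eq, chB010, wtM_gen]
  all_goals simp [wt_eq, chB010, wtM_gen]
lemma type_chB110 : TypeB chB110 := by
  refine ⟨?_, ⟨2, ?_⟩, ⟨1, ?_⟩⟩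
  · intro i; fin_cases i <;> simp [wt_eq, chB110, wtM_gen]
  all_goals simp [wt_eq, chB110, wtM_gen]
lemma type_chB001 : TypeB chB001 := by
  refine ⟨?_, ⟨0, ?_⟩, ⟨2, ?_⟩⟩
  · intro i; fin_cases i <;> simp [wt_eq, chB001, wtM_gen]
  all_goals simp [wt_eq, chB001, wtM_gen]
lemma type_chB101 : TypeB chB101 := by
  refine ⟨?_, ⟨1, ?_⟩, ⟨0, ?_⟩⟩
  · intro i; fin_cases i <;> simp [wt_eq, chB101, wtM_gen]
  all_goals simp [wt_eq, chB101, wtM_gen]
lemma type_chB011 : TypeB chB011 := by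
  refine ⟨?_, ⟨0, ?_⟩, ⟨1, ?_⟩⟩
  · intro i; fin_cases i <;> simp [wt_eq, chB011, wtM_gen]
  all_goals simp [wt_eq, chB011, wtM_gen]

lemma type_charts (i : Fin 12) : TypeA (charts i) ∨ TypeB (charts i) := by
  fin_cases i
  · exact Or.inl type_chA0
  · exact Or.inl type_chA1
  · exact Or.inl type_chA2
  · exact Or.inl type_chC0
  · exact Or.inl type_chC1
  · exact Or.inl type_chC2
  · exact Or.inr type_chB100
  · exact Or.inr type_chB010
  · exact Or.inr type_chB110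
  · exact Or.inr type_chB001
  · exact Or.inr type_chB101
  · exact Or.inr type_chB011

/-- the exponent `(1, 0, 0)` -/
def e0 : Fin 3 → ℤ := ![1, 0, 0]

lemma Dv_ne : Dv ≠ 0 := by
  intro h
  have h1 := Dv_monK e0
  rw [h] at h1
  have h2 : ((∑ i, e0 i : ℤ) : ℂ) = 1 := by
    simp [e0, Fin.sum_univ_three]
  rw [h2, one_smul] at h1
  exact monK_ne e0 h1.symm

example : VX.instAlgebraK = (inferInstance : Algebra ℂ KX) := rfl

/-- The vector field, as a derivation of the function field of the variety. -/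
def DvX : Derivation ℂ VX.K VX.K := Dv

/-- The foliation. -/
def FX : Foliation VX where
  T := Submodule.span VX.K {DvX}
  lie_mem := by
    intro D₁ h₁ D₂ h₂
    rw [Submodule.mem_span_singleton] at h₁ h₂ ⊢
    obtain ⟨a, rfl⟩ := h₁
    obtain ⟨b, rfl⟩ := h₂
    refine ⟨a * DvX b - b * DvX a, ?_⟩
    ext x
    rw [Derivation.commutator_apply]
    simp only [Derivation.smul_apply, smul_eq_mul, Derivation.leibniz]
    ring

lemma mem_FX {D : Derivation ℂ VX.K VX.K} : D ∈ FX.T ↔ ∃ h : VX.K, h • DvX = D :=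
  Submodule.mem_span_singleton

lemma rank_FX : FX.rank = 1 := by
  unfold Foliation.rank
  exact finrank_span_singleton Dv_ne

end Pool.Agent.Helper38.Fol
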