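import Pool.Agent.Helper38.Fol.Claims
import Pool.Agent.Helper38.Fol.FolX

open AlgebraicGeometry CategoryTheory HomogeneousLocalization

set_option linter.all false

noncomputable section
namespace Pool.Agent.Helper38.Fol

lemma c11_wt : c11.wt 0 = 1 ∧ c11.wt 1 = -1 ∧ c11.wt 2 = -1 := by
  refine ⟨?_, ?_, ?_⟩ <;> simp [wt_eq, c11, chB011, wtM_gen]

/-- the weights of the chart -/
def w11 (i : Fin 3) : ℂ := (c11.wt i : ℂ)

lemma w11_zero {m : Fin 3 →₀ ℕ} (h : ∑ i, w11 i * m i = 0) (hm : m ≠ 0) : m 0 ≠ 0 := by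
  obtain ⟨h0, h1, h2⟩ := c11_wt
  unfold w11 at h
  rw [Fin.sum_univ_three, h0, h1, h2] at h
  have h3 : (m 0 : ℂ) = ((m 1 + m 2 : ℕ) : ℂ) := by
    push_cast
    push_cast at h
    linear_combination h
  have h4 : m 0 = m 1 + m 2 := by exact_mod_cast h3
  intro h5
  apply hm
  ext i
  fin_cases i
  · exact h5
  · change m 1 = 0
    omega
  · change m 2 = 0
    omega

/-- A first integral that is regular at `(0, ∞, ∞)` is constant along `x = 0`. -/
lemma claim1 (β : KX) (h1 : β ∈ LR p1) (hD : Dv β = 0) :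
    ∃ c : ℂ, ¬ (β - algebraMap ℂ KX c ≠ 0 ∧ (β - algebraMap ℂ KX c)⁻¹ ∈ LR delta) := by
  obtain ⟨a, b, l, hb, hab, rfl, ha, hb'⟩ := exists_eigen c11.toKX c11.toKX_injective
    c11.exists_reduced w11 (fun p => c11.Dv_toKX p) β hD
  have hbK := c11.toKX_ne hb
  -- `b` does not vanish at the origin
  have hb0 : b.coeff 0 ≠ 0 := by
    obtain ⟨n, a', b', ha', hb'', hbp, e⟩ := c11.mem_LR_cp h1
    rw [mem_p1 hb''] at hbp
    have hb2 : c11.cp b' ≠ 0 := by
      intro h
      rw [h] at hbp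
      exact hbp rfl
    have hb2K := c11.toKX_ne hb2
    have h2 : a * c11.cp b' = c11.cp a' * b := by
      apply c11.toKX_injective
      rw [map_mul, map_mul]
      field_simp at e
      linear_combination e
    have h3 : b ∣ c11.cp b' := hab.symm.dvd_of_dvd_mul_left (Dvd.intro_left _ h2.symm)
    obtain ⟨r, hr⟩ := h3
    intro h0
    apply hbp
    rw [hr]
    have := map_mul (MvPolynomial.constantCoeff : R3 →+* ℂ) b r
    change (b * r).coeff 0 = b.coeff 0 * r.coeff 0 at this
    rw [this, h0, zero_mul]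
  have hl : l = 0 := eigen_zero hb' hb0
  rw [hl] at ha hb'
  have ha0 := X_dvd_sub (a := a) fun m hm hm0 => w11_zero (weight_of_mem ha hm) hm0
  have hb1 := X_dvd_sub (a := b) fun m hm hm0 => w11_zero (weight_of_mem hb' hm) hm0
  set a0 := a.coeff 0
  set b0 := b.coeff 0
  refine ⟨a0 / b0, ?_⟩
  rintro ⟨hne, hinv⟩
  obtain ⟨n, p, q, hp, hq, hqd, e⟩ := c11.mem_LR_cp hinv
  rw [mem_delta hq] at hqd
  have hXq : ¬ (MvPolynomial.X 0 : R3) ∣ c11.cp q := fun h => hqd (tau_eq_zero hq h)
  have hq0 : c11.cp q ≠ 0 := by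
    intro h
    rw [h] at hXq
    exact hXq (dvd_zero _)
  have hqK := c11.toKX_ne hq0
  have hC : ∀ r : ℂ, c11.toKX (MvPolynomial.C r) = algebraMap ℂ KX r := fun r => c11.toKX.commutes r
  have hb0K : algebraMap ℂ KX b0 ≠ 0 := by
    rw [Ne, map_eq_zero]
    exact hb0
  -- the numerator
  have hN : (MvPolynomial.X 0 : R3) ∣ MvPolynomial.C b0 * a - MvPolynomial.C a0 * b := by
    have : MvPolynomial.C b0 * a - MvPolynomial.C a0 * b =
      MvPolynomial.C b0 * (a - MvPolynomial.C a0) - MvPolynomial.C a0 * (b - MvPolynomial.C b0) := by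
      ring
    rw [this]
    exact dvd_sub (Dvd.dvd.mul_left ha0 _) (Dvd.dvd.mul_left hb1 _)
  have e2 : (c11.toKX a / c11.toKX b - algebraMap ℂ KX (a0 / b0)) * c11.toKX (c11.cp p) =
      c11.toKX (c11.cp q) := by
    have e3 : c11.toKX (c11.cp p) =
      (c11.toKX a / c11.toKX b - algebraMap ℂ KX (a0 / b0))⁻¹ * c11.toKX (c11.cp q) := by
      rw [e]
      field_simp
    rw [e3, mul_inv_cancel_left₀ hne]
  have e4 : (MvPolynomial.C b0 * a - MvPolynomial.C a0 * b) * c11.cp p =
      MvPolynomial.C b0 * b * c11.cp q := by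
    apply c11.toKX_injective
    rw [map_mul, map_sub, map_mul, map_mul, map_mul, map_mul, hC, hC, ← e2, map_div₀]
    field_simp
  have h5 : (MvPolynomial.X 0 : R3) ∣ MvPolynomial.C b0 * b * c11.cp q := by
    rw [← e4]
    exact Dvd.dvd.mul_right hN _
  have hpX : Prime (MvPolynomial.X 0 : R3) := MvPolynomial.X_prime
  rcases hpX.dvd_or_dvd h5 with h6 | h6
  · rcases hpX.dvd_or_dvd h6 with h7 | h7
    · obtain ⟨r, hr⟩ := h7
      have := congrArg (MvPolynomial.constantCoeff : R3 →+* ℂ) hr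
      rw [map_mul, MvPolynomial.constantCoeff_C, MvPolynomial.constantCoeff_X, zero_mul] at this
      exact hb0 this
    · obtain ⟨r, hr⟩ := h7
      have := congrArg (MvPolynomial.constantCoeff : R3 →+* ℂ) hr
      rw [map_mul, MvPolynomial.constantCoeff_X, zero_mul] at this
      exact hb0 this
  · exact hXq h6

/-- Scaling an eigenvector. -/
lemma aeval_scale {b : R3} {d : ℕ} (hb : ∀ m : Fin 3 →₀ ℕ, b.coeff m ≠ 0 → ∑ i, m i = d)
    (x : Fin 3 → ℂ) (t : ℂ) :
    MvPolynomial.aeval (fun i => t * x i) b = t ^ d * MvPolynomial.aeval x b := by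
  rw [MvPolynomial.aeval_def, MvPolynomial.aeval_def, MvPolynomial.eval₂_eq',
    MvPolynomial.eval₂_eq', Finset.mul_sum]
  refine Finset.sum_congr rfl fun m hm => ?_
  rw [MvPolynomial.mem_support_iff] at hm
  simp only [mul_pow, Finset.prod_mul_distrib]
  rw [Finset.prod_pow_eq_pow_sum, hb m hm]
  ring

/-- A homogeneous polynomial in two variables over `ℂ` without zeros is constant. -/
lemma degree_zero {b : R3} {d : ℕ} (hb : ∀ m : Fin 3 →₀ ℕ, b.coeff m ≠ 0 → ∑ i, m i = d)
    (h : ∀ u v : ℂ, (u ≠ 0 ∨ v ≠ 0) → MvPolynomial.aeval ![0, u, v] b ≠ 0) : d = 0 := by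
  -- polynomials in one variable
  have key : ∀ (g : Fin 3 → Polynomial ℂ),
      (∀ t : ℂ, MvPolynomial.aeval (fun i => (g i).eval t) b ≠ 0) →
      ∀ t s : ℂ, MvPolynomial.aeval (fun i => (g i).eval t) b =
        MvPolynomial.aeval (fun i => (g i).eval s) b := by
    intro g hg t s
    have h1 : ∀ t : ℂ, (MvPolynomial.aeval g b).eval t =
        MvPolynomial.aeval (fun i => (g i).eval t) b := by
      intro t
      have := MvPolynomial.comp_aeval_apply (f := g) (Polynomial.aeval t : Polynomial ℂ →ₐ[ℂ] ℂ) b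
      simp only [Polynomial.coe_aeval_eq_eval] at this
      exact this
    have h2 : (MvPolynomial.aeval g b).degree ≤ 0 := by
      by_contra hdeg
      obtain ⟨r, hr⟩ := Complex.exists_root (f := MvPolynomial.aeval g b) (by
        push Not at hdeg
        exact hdeg)
      apply hg r
      rw [← h1]
      exact hr
    rw [Polynomial.degree_le_zero_iff] at h2
    rw [← h1, ← h1, h2, Polynomial.eval_C, Polynomial.eval_C]
  have k1 := key ![0, 1, Polynomial.X] (by
    intro t
    have : (fun i => (![0, 1, Polynomial.X] i : Polynomial ℂ).eval t) = ![0, 1, t] := by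
      ext i
      fin_cases i <;> simp
    rw [this]
    exact h _ _ (Or.inl one_ne_zero))
  have k2 := key ![0, Polynomial.X, 1] (by
    intro t
    have : (fun i => (![0, Polynomial.X, 1] i : Polynomial ℂ).eval t) = ![0, t, 1] := by
      ext i
      fin_cases i <;> simp
    rw [this]
    exact h _ _ (Or.inr one_ne_zero))
  have e1 : ∀ t : ℂ, (fun i => (![0, 1, Polynomial.X] i : Polynomial ℂ).eval t) = ![0, 1, t] := by
    intro t
    ext i
    fin_cases i <;> simp
  have e2 : ∀ t : ℂ, (fun i => (![0, Polynomial.X, 1] i : Polynomial ℂ).eval t) = ![0, t, 1] := by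
    intro t
    ext i
    fin_cases i <;> simp
  have k3 := k1 1 2
  have k4 := k2 1 (1 / 2)
  rw [e1, e1] at k3
  rw [e2, e2] at k4
  have k5 := aeval_scale hb ![0, 1 / 2, 1] 2
  have e3 : (fun i => 2 * (![0, 1 / 2, 1] : Fin 3 → ℂ) i) = ![0, 1, 2] := by
    ext i
    fin_cases i <;> simp
  rw [e3, ← k3, ← k4] at k5
  have k6 : MvPolynomial.aeval ![(0 : ℂ), 1, 1] b ≠ 0 := h _ _ (Or.inl one_ne_zero)
  have k7 : (2 : ℂ) ^ d = 1 := by
    have : (2 : ℂ) ^ d * MvPolynomial.aeval ![(0 : ℂ), 1, 1] b =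
        1 * MvPolynomial.aeval ![(0 : ℂ), 1, 1] b := by
      rw [one_mul]
      exact k5.symm
    exact mul_right_cancel₀ k6 this
  by_contra hd
  have k8 : (2 : ℕ) ^ d = 1 := by exact_mod_cast k7
  exact hd (by simpa using k8)

lemma eq_C_of_weight {a : R3} (ha : ∀ m : Fin 3 →₀ ℕ, a.coeff m ≠ 0 → m = 0) :
    a = MvPolynomial.C (a.coeff 0) := by
  ext m
  rw [MvPolynomial.coeff_C]
  by_cases h : m = 0
  · rw [h, if_pos rfl]
  · rw [if_neg (fun h' => h h'.symm)]
    by_contra h2
    exact h (ha m h2)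

/-- A first integral that is regular along `x = 0` is constant. -/
lemma claim2 (β : KX) (hD : Dv β = 0) (h : ∀ q : PX, delta ⤳ q → β ∈ LR q) :
    ∃ c : ℂ, β = algebraMap ℂ KX c := by
  obtain ⟨a, b, l, hb, hab, rfl, ha, hb'⟩ := exists_eigen phi phi_injective
    exists_reduced_phi (fun _ => 1) Dv_phi β hD
  have hbK : phi b ≠ 0 := by rwa [Ne, map_eq_zero_iff _ phi_injective]
  have hne : ∀ u v : ℂ, (u ≠ 0 ∨ v ≠ 0) → MvPolynomial.aeval ![0, u, v] b ≠ 0 := by
    intro u v huv
    obtain ⟨q, hq, hq'⟩ := exists_q u v huv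
    have h1 := h q hq
    rw [mem_LR] at h1
    obtain ⟨n, a', ha', b', hb'', hbq, e⟩ := h1
    have h2 := hq' n b' hb'' hbq
    have hb0 : bar b' ≠ 0 := by
      intro h0
      rw [h0, map_zero] at h2
      exact h2 rfl
    have hb0K : phi (bar b') ≠ 0 := by rwa [Ne, map_eq_zero_iff _ phi_injective]
    have h3 : a * bar b' = bar a' * b := by
      apply phi_injective
      rw [map_mul, map_mul]
      field_simp at e
      linear_combination e
    obtain ⟨r, hr⟩ : b ∣ bar b' := hab.symm.dvd_of_dvd_mul_left (Dvd.intro_left _ h3.symm)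
    intro h4
    apply h2
    rw [hr, map_mul, h4, zero_mul]
  -- `b` is homogeneous
  obtain ⟨m, hm⟩ := MvPolynomial.ne_zero_iff.mp hb
  have hl : ((∑ i, m i : ℕ) : ℂ) = l := by
    have := weight_of_mem hb' hm
    simp only [one_mul] at this
    push_cast
    exact this
  have hw : ∀ (p : R3), eulerW (fun _ => 1) p = l • p → ∀ m' : Fin 3 →₀ ℕ, p.coeff m' ≠ 0 →
      ∑ i, m' i = ∑ i, m i := by
    intro p hp m' hm'
    have := weight_of_mem hp hm'
    simp only [one_mul] at this
    rw [← hl] at this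
    have h2 : ((∑ i, m' i : ℕ) : ℂ) = ((∑ i, m i : ℕ) : ℂ) := by
      push_cast
      push_cast at this
      exact this
    exact_mod_cast h2
  have hd := degree_zero (hw b hb') hne
  have hz : ∀ (p : R3), eulerW (fun _ => 1) p = l • p → p = MvPolynomial.C (p.coeff 0) := by
    intro p hp
    apply eq_C_of_weight
    intro m' hm'
    have h2 := hw p hp m' hm'
    rw [hd, Finset.sum_eq_zero_iff] at h2
    ext i
    exact h2 i (Finset.mem_univ i)
  refine ⟨a.coeff 0 / b.coeff 0, ?_⟩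
  have hC : ∀ r : ℂ, phi (MvPolynomial.C r) = algebraMap ℂ KX r := fun r => phi.commutes r
  conv_lhs => rw [hz a ha, hz b hb']
  rw [hC, hC, map_div₀]

end Pool.Agent.Helper38.Fol
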