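import Mathlib

open AlgebraicGeometry CategoryTheory HomogeneousLocalization

noncomputable section
namespace Pool.Agent.Helper38.Fol

/-- A surjective homomorphism of graded rings induces a closed immersion of `Proj`. -/
theorem isClosedImmersion_projMap {A B : Type} [CommRing A] [CommRing B] {σ τ : Type}
    [SetLike σ A] [AddSubgroupClass σ A] [SetLike τ B] [AddSubgroupClass τ B]
    {𝒜 : ℕ → σ} {ℬ : ℕ → τ} [GradedRing 𝒜] [GradedRing ℬ] (f : 𝒜 →+*ᵍ ℬ)
    (hf : HomogeneousIdeal.irrelevant ℬ ≤ (HomogeneousIdeal.irrelevant 𝒜).map f)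
    (hs : ∀ n, ∀ b ∈ ℬ n, ∃ a ∈ 𝒜 n, f a = b)
    {ι : Type} (x : ι → A) (hx : ∀ i, x i ∈ 𝒜 1)
    (hcov : ⨆ i, Proj.basicOpen 𝒜 (x i) = ⊤) :
    IsClosedImmersion (Proj.map f hf) := by
  rw [IsZariskiLocalAtTarget.iff_of_iSup_eq_top (P := @IsClosedImmersion) _ hcov]
  intro i
  let e : Spec (.of (Away ℬ (f (x i)))) ≅
      (Proj.map f hf ⁻¹ᵁ Proj.basicOpen 𝒜 (x i)).toScheme :=
    (Proj.basicOpenIsoSpec ℬ (f (x i)) (f.map_mem (hx i)) one_pos).symm
  have he : e.hom ≫ (Proj.map f hf ⁻¹ᵁ Proj.basicOpen 𝒜 (x i)).ι =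
      Proj.awayι ℬ (f (x i)) (f.map_mem (hx i)) one_pos := rfl
  have h1 : e.hom ≫ (Proj.map f hf ∣_ (Proj.basicOpen 𝒜 (x i))) =
      Spec.map (CommRingCat.ofHom (Away.map f (x i))) ≫
        (Proj.basicOpenIsoSpec 𝒜 (x i) (hx i) one_pos).inv := by
    rw [← cancel_mono (Proj.basicOpen 𝒜 (x i)).ι, Category.assoc, Category.assoc,
      morphismRestrict_ι, Proj.basicOpenIsoSpec_inv_ι, reassoc_of% he]
    exact Proj.awayι_comp_map f hf one_pos (x i) (hx i)
  have h2 : Function.Surjective (Away.map f (x i)) := by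
    intro z
    obtain ⟨n, b, hb, rfl⟩ := Away.mk_surjective ℬ (f.map_mem (hx i)) z
    obtain ⟨a, ha, rfl⟩ := hs _ b hb
    exact ⟨Away.mk 𝒜 (hx i) n a ha, by simp⟩
  have h3 : IsClosedImmersion (Spec.map (CommRingCat.ofHom (Away.map f (x i)))) :=
    IsClosedImmersion.spec_of_surjective _ h2
  rw [← MorphismProperty.cancel_left_of_respectsIso (P := @IsClosedImmersion) e.hom, h1]
  infer_instance

end Pool.Agent.Helper38.Fol
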