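import Pool.Agent.Helper38.Fol.AlgX

open AlgebraicGeometry CategoryTheory HomogeneousLocalization

set_option linter.all false

noncomputable section
namespace Pool.Agent.Helper38.Fol

lemma exists_DW (w : Fin 3 → ℂ) :
    ∃ D : Derivation ℂ KX KX, ∀ p : R3, D (phi p) = phi (eulerW w p) := by
  letI : Algebra R3 KX := phi.toRingHom.toAlgebra
  haveI : IsScalarTower ℂ R3 KX := IsScalarTower.of_algebraMap_eq fun r => (phi.commutes r).symm
  haveI : FaithfulSMul R3 KX := by
    rw [faithfulSMul_iff_algebraMap_injective]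
    exact phi_injective
  haveI : IsFractionRing R3 KX := IsFractionRing.of_field R3 KX (by
    intro z
    obtain ⟨a, b, -, h⟩ := exists_phi z
    exact ⟨a, b, h⟩)
  obtain ⟨D, hD⟩ := exists_extend ((Algebra.linearMap R3 KX).compDer (eulerW w))
  exact ⟨D, hD⟩

/-- The derivation with weights `w` of the function field. -/
def DW (w : Fin 3 → ℂ) : Derivation ℂ KX KX := (exists_DW w).choose

lemma DW_phi (w : Fin 3 → ℂ) (p : R3) : DW w (phi p) = phi (eulerW w p) :=
  (exists_DW w).choose_spec p

lemma DW_monK_nat (w : Fin 3 → ℂ) (m : Fin 3 →₀ ℕ) :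
    DW w (monK (toZ m)) = (∑ i, w i * m i) • monK (toZ m) := by
  have h := phi_monomial m 1
  rw [one_smul] at h
  rw [← h, DW_phi, eulerW_monomial, map_smul]

lemma DW_monK (w : Fin 3 → ℂ) (u : Fin 3 → ℤ) :
    DW w (monK u) = (∑ i, w i * (u i : ℂ)) • monK u := by
  -- write `u` as a difference of natural vectors
  let a : Fin 3 →₀ ℕ := Finsupp.equivFunOnFinite.symm fun i => (u i).toNat
  let b : Fin 3 →₀ ℕ := Finsupp.equivFunOnFinite.symm fun i => (-u i).toNat
  have hu : u = toZ a - toZ b := by
    ext i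
    change u i = (((u i).toNat : ℕ) : ℤ) - (((-u i).toNat : ℕ) : ℤ)
    omega
  have hsum : (∑ i, w i * (u i : ℂ)) = (∑ i, w i * (a i : ℂ)) - ∑ i, w i * (b i : ℂ) := by
    rw [← Finset.sum_sub_distrib]
    refine Finset.sum_congr rfl fun i _ => ?_
    have : (u i : ℂ) = (a i : ℂ) - (b i : ℂ) := by
      conv_lhs => rw [hu]
      simp
    rw [this]
    ring
  rw [hsum]
  have hb := monK_ne (toZ b)
  have ha := monK_ne (toZ a)
  conv_lhs => rw [hu, monK_sub, Derivation.leibniz_div, DW_monK_nat, DW_monK_nat]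
  conv_rhs => rw [hu, monK_sub]
  rw [sub_smul]
  simp only [smul_eq_mul, Algebra.smul_def]
  field_simp

/-- The vector field whose trajectories are the leaves. -/
def Dv : Derivation ℂ KX KX := DW (fun _ => 1)

lemma Dv_monK (u : Fin 3 → ℤ) : Dv (monK u) = (((∑ i, u i : ℤ)) : ℂ) • monK u := by
  unfold Dv
  rw [DW_monK]
  congr 1
  push_cast
  simp

namespace ChartData
variable (c : ChartData)

/-- The weights of the coordinates of a chart. -/
def wt (i : Fin 3) : ℤ := ∑ j, c.α i j

lemma expMap_sum (e : Fin 3 →₀ ℕ) : ∑ j, c.expMap e j = ∑ i, c.wt i * e i := by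
  change ∑ j, (∑ i, (e i : ℤ) • c.α i) j = _
  simp only [Finset.sum_apply, Pi.smul_apply, smul_eq_mul]
  rw [Finset.sum_comm]
  refine Finset.sum_congr rfl fun i _ => ?_
  unfold wt
  rw [Finset.sum_mul]
  refine Finset.sum_congr rfl fun j _ => ?_
  ring

lemma Dv_toKX (p : R3) : Dv (c.toKX p) = c.toKX (eulerW (fun i => (c.wt i : ℂ)) p) := by
  induction p using MvPolynomial.induction_on' with
  | monomial m r =>
    rw [toKX_monomial, Derivation.map_smul, Dv_monK, eulerW_monomial, map_smul, toKX_monomial,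
      expMap_sum, smul_comm]
    congr 1
    push_cast
    rfl
  | add p q hp hq => rw [map_add, map_add, map_add, map_add, hp, hq]

end ChartData

end Pool.Agent.Helper38.Fol
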