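import Pool.Agent.Helper38.Fol.Pts

open AlgebraicGeometry CategoryTheory HomogeneousLocalization

set_option linter.all false

noncomputable section
namespace Pool.Agent.Helper38.Fol

lemma coeff_eulerW (w : Fin 3 → ℂ) (p : R3) (m : Fin 3 →₀ ℕ) :
    (eulerW w p).coeff m = (∑ i, w i * m i) * p.coeff m := by
  induction p using MvPolynomial.induction_on' with
  | monomial n r =>
    rw [eulerW_monomial, MvPolynomial.coeff_smul, MvPolynomial.coeff_monomial, smul_eq_mul]
    by_cases h : n = m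
    · rw [h]
    · rw [if_neg h, mul_zero, mul_zero]
  | add p q hp hq => rw [map_add, MvPolynomial.coeff_add, MvPolynomial.coeff_add, hp, hq, mul_add]

lemma totalDegree_eulerW (w : Fin 3 → ℂ) (p : R3) :
    (eulerW w p).totalDegree ≤ p.totalDegree := by
  apply Finset.sup_mono
  intro m hm
  rw [MvPolynomial.mem_support_iff] at hm ⊢
  rw [coeff_eulerW] at hm
  exact right_ne_zero_of_mul hm

/-- If `b` divides its Euler derivative then `b` is an eigenvector. -/
lemma eigen_of_dvd (w : Fin 3 → ℂ) (b : R3) (hb : b ≠ 0) (h : b ∣ eulerW w b) :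
    ∃ l : ℂ, eulerW w b = l • b := by
  obtain ⟨r, hr⟩ := h
  by_cases h0 : r = 0
  · exact ⟨0, by rw [hr, h0, mul_zero, zero_smul]⟩
  · have h1 := totalDegree_eulerW w b
    rw [hr, MvPolynomial.totalDegree_mul_of_isDomain hb h0] at h1
    have h2 : r.totalDegree = 0 := by omega
    rw [MvPolynomial.totalDegree_eq_zero_iff_eq_C] at h2
    refine ⟨r.coeff 0, ?_⟩
    conv_lhs => rw [hr, h2]
    rw [MvPolynomial.smul_eq_C_mul, mul_comm]

/-- First integrals are quotients of eigenvectors. -/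
lemma exists_eigen (ι : R3 →ₐ[ℂ] KX) (hι : Function.Injective ι)
    (hfr : ∀ g : KX, ∃ a b : R3, b ≠ 0 ∧ IsRelPrime a b ∧ g = ι a / ι b) (w : Fin 3 → ℂ)
    (hw : ∀ p, Dv (ι p) = ι (eulerW w p)) (β : KX) (hβ : Dv β = 0) :
    ∃ (a b : R3) (l : ℂ), b ≠ 0 ∧ IsRelPrime a b ∧ β = ι a / ι b ∧ eulerW w a = l • a ∧
      eulerW w b = l • b := by
  obtain ⟨a, b, hb, hab, rfl⟩ := hfr β
  have hb' : ι b ≠ 0 := by rwa [Ne, map_eq_zero_iff _ hι]
  rw [Derivation.leibniz_div, hw, hw] at hβ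
  simp only [smul_eq_mul, mul_eq_zero, inv_eq_zero, pow_eq_zero_iff (two_ne_zero)] at hβ
  have h1 := hβ.resolve_left hb'
  have h2 : b * eulerW w a = a * eulerW w b := by
    apply hι
    rw [map_mul, map_mul]
    exact sub_eq_zero.mp h1
  have h3 : b ∣ eulerW w b := hab.symm.dvd_of_dvd_mul_left (Dvd.intro _ h2)
  obtain ⟨l, hl⟩ := eigen_of_dvd w b hb h3
  refine ⟨a, b, l, hb, hab, rfl, ?_, hl⟩
  rw [hl, mul_smul_comm, mul_comm a b, ← mul_smul_comm] at h2
  exact mul_left_cancel₀ hb h2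

lemma exists_reduced_phi (g : KX) :
    ∃ a b : R3, b ≠ 0 ∧ IsRelPrime a b ∧ g = phi a / phi b := by
  letI : Algebra R3 KX := phi.toRingHom.toAlgebra
  haveI : FaithfulSMul R3 KX := by
    rw [faithfulSMul_iff_algebraMap_injective]
    exact phi_injective
  haveI : IsFractionRing R3 KX := IsFractionRing.of_field R3 KX (by
    intro z
    obtain ⟨a, b, -, h⟩ := exists_phi z
    exact ⟨a, b, h⟩)
  obtain ⟨a, b, hab, h⟩ := IsFractionRing.exists_reduced_fraction (A := R3) g
  refine ⟨a, b, nonZeroDivisors.ne_zero b.2, hab, ?_⟩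
  rw [← h, IsFractionRing.mk'_eq_div]
  rfl

lemma Dv_phi (p : R3) : Dv (phi p) = phi (eulerW (fun _ => 1) p) := DW_phi _ p

/-- evaluation at the origin -/
lemma coeff_zero_eulerW (w : Fin 3 → ℂ) (p : R3) : (eulerW w p).coeff 0 = 0 := by
  rw [coeff_eulerW]
  simp

/-- If an eigenvector does not vanish at the origin then the eigenvalue is zero. -/
lemma eigen_zero {w : Fin 3 → ℂ} {b : R3} {l : ℂ} (h : eulerW w b = l • b) (hb : b.coeff 0 ≠ 0) :
    l = 0 := by
  have h1 := coeff_zero_eulerW w b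
  rw [h, MvPolynomial.coeff_smul, smul_eq_mul, mul_eq_zero] at h1
  exact h1.resolve_right hb

lemma weight_of_mem {w : Fin 3 → ℂ} {b : R3} {l : ℂ} (h : eulerW w b = l • b)
    {m : Fin 3 →₀ ℕ} (hm : b.coeff m ≠ 0) : ∑ i, w i * m i = l := by
  have h1 := coeff_eulerW w b m
  rw [h, MvPolynomial.coeff_smul, smul_eq_mul] at h1
  exact (mul_right_cancel₀ hm h1).symm

/-- A polynomial all of whose nonconstant monomials contain `X 0`. -/
lemma X_dvd_sub {a : R3} (h : ∀ m : Fin 3 →₀ ℕ, a.coeff m ≠ 0 → m ≠ 0 → m 0 ≠ 0) :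
    (MvPolynomial.X 0 : R3) ∣ a - MvPolynomial.C (a.coeff 0) := by
  have h1 : a - MvPolynomial.C (a.coeff 0) ∈ Ideal.span (MvPolynomial.X '' {(0 : Fin 3)}) := by
    rw [MvPolynomial.mem_ideal_span_X_image]
    intro m hm
    refine ⟨0, rfl, ?_⟩
    rw [MvPolynomial.mem_support_iff, MvPolynomial.coeff_sub, MvPolynomial.coeff_C] at hm
    by_cases h0 : m = 0
    · rw [if_pos h0.symm, h0, sub_self] at hm
      exact absurd rfl hm
    · rw [if_neg (fun h => h0 h.symm), sub_zero] at hm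
      exact h m hm h0
  rwa [Set.image_singleton, Ideal.mem_span_singleton] at h1

end Pool.Agent.Helper38.Fol
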