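import Pool.Agent.Helper38.Fol.ProjX

open AlgebraicGeometry CategoryTheory HomogeneousLocalization

noncomputable section
namespace Pool.Agent.Helper38.Fol

lemma exists_j0 {n : ℕ} {a b : S} (ha : a ∈ 𝒜 n) (hb : b ∈ 𝒜 n) (hb0 : b ≠ 0) :
    ∃ g, j0 g = algebraMap R3 K0 (bar a) / algebraMap R3 K0 (bar b) := by
  have hbx : b ∉ (genericPoint PX : PX).asHomogeneousIdeal.toIdeal := by
    rw [genericPoint_eq]
    exact hb0
  let y : HomogeneousLocalization.AtPrime 𝒜 (genericPoint PX : PX).asHomogeneousIdeal.toIdeal :=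
    .mk ⟨n, ⟨a, ha⟩, ⟨b, hb⟩, hbx⟩
  refine ⟨(Proj.stalkIso 𝒜 (genericPoint PX)).inv.hom y, ?_⟩
  unfold j0 rho
  rw [RingHom.comp_apply]
  have : (Proj.stalkIso 𝒜 (genericPoint PX)).hom.hom
      ((Proj.stalkIso 𝒜 (genericPoint PX)).inv.hom y) = y := by
    rw [← RingHom.comp_apply, ← CommRingCat.hom_comp, Iso.inv_hom_id]
    rfl
  rw [this]
  rfl

lemma exists_j0_X (i : Fin 3) : ∃ g, j0 g = algebraMap R3 K0 (MvPolynomial.X i) := by
  have h : ∀ (p q : M), p.1.2 = 1 → q.1.2 = 1 → toZ p.1.1 - toZ q.1.1 = Pi.single i 1 →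
      ∃ g, j0 g = algebraMap R3 K0 (MvPolynomial.X i) := by
    intro p q hp hq h
    obtain ⟨g, hg⟩ := exists_j0 (single_mem p hp 1) (single_mem q hq 1) (monoS_ne q)
    refine ⟨g, ?_⟩
    rw [hg]
    change algebraMap R3 K0 (bar (monoS p)) / algebraMap R3 K0 (bar (monoS q)) = _
    rw [ChartData.bar_monoS, ChartData.bar_monoS, ← mon_sub, h]
    unfold mon
    rw [Finset.prod_eq_single i]
    · simp [xs]
    · intro j _ hj
      rw [Pi.single_eq_of_ne hj]
      simp
    · simp
  fin_cases i
  · refine h (gen 2 1 1 (by decide)) (gen 1 1 1 (by decide)) rfl rfl ?_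
    ext k; fin_cases k <;> simp
  · refine h (gen 1 2 1 (by decide)) (gen 1 1 1 (by decide)) rfl rfl ?_
    ext k; fin_cases k <;> simp
  · refine h (gen 1 1 2 (by decide)) (gen 1 1 1 (by decide)) rfl rfl ?_
    ext k; fin_cases k <;> simp

lemma j0_surjective : Function.Surjective j0 := by
  have h1 : ∀ p : R3, algebraMap R3 K0 p ∈ j0.fieldRange := by
    intro p
    induction p using MvPolynomial.induction_on with
    | C r => exact ⟨constX r, j0_const r⟩
    | add p q hp hq => rw [map_add]; exact add_mem hp hq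
    | mul_X p i hp =>
      rw [map_mul]
      obtain ⟨g, hg⟩ := exists_j0_X i
      exact mul_mem hp ⟨g, hg⟩
  intro z
  obtain ⟨a, b, hb, rfl⟩ := IsFractionRing.div_surjective (A := R3) z
  exact div_mem (h1 a) (h1 b)

/-- The identification of the function field with `K0`. -/
def jE : PX.functionField ≃+* K0 := RingEquiv.ofBijective j0 ⟨j0_injective, j0_surjective⟩

lemma jE_apply (g : PX.functionField) : jE g = j0 g := rfl

/-- The map from the polynomial ring to the function field. -/
def phi0 : R3 →+* PX.functionField := jE.symm.toRingHom.comp (algebraMap R3 K0)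

lemma j0_phi0 (p : R3) : j0 (phi0 p) = algebraMap R3 K0 p := jE.apply_symm_apply _

instance : Algebra ℂ PX.functionField := VX.instAlgebraK

lemma algebraMap_constX (r : ℂ) : algebraMap ℂ PX.functionField r = constX r :=
  DFunLike.congr_fun VX.const_eq r

lemma j0_alg (r : ℂ) :
    j0 (algebraMap ℂ PX.functionField r) = algebraMap R3 K0 (MvPolynomial.C r) := by
  rw [algebraMap_constX, j0_const]

/-- The map from the polynomial ring to the function field, as a map of algebras. -/
def phi : R3 →ₐ[ℂ] PX.functionField where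
  __ := phi0
  commutes' r := by
    apply j0_injective
    rw [algebraMap_constX]
    change j0 (phi0 (MvPolynomial.C r)) = j0 (constX r)
    rw [j0_phi0, j0_const]

lemma j0_phi (p : R3) : j0 (phi p) = algebraMap R3 K0 p := j0_phi0 p

lemma phi_injective : Function.Injective phi := by
  intro a b h
  have := congrArg j0 h
  rw [j0_phi, j0_phi] at this
  exact IsFractionRing.injective R3 K0 this

lemma exists_phi (g : PX.functionField) : ∃ a b : R3, b ≠ 0 ∧ g = phi a / phi b := by
  obtain ⟨a, b, hb, h⟩ := IsFractionRing.div_surjective (A := R3) (j0 g)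
  refine ⟨a, b, nonZeroDivisors.ne_zero hb, ?_⟩
  apply j0_injective
  rw [map_div₀, j0_phi, j0_phi, h]

/-- The local ring at a point. -/
def LR (x : PX) : Subring PX.functionField :=
  (algebraMap (PX.presheaf.stalk x) PX.functionField).range

lemma mem_LR (x : PX) (g : PX.functionField) :
    g ∈ LR x ↔ ∃ n, ∃ a ∈ 𝒜 n, ∃ b ∈ 𝒜 n, b ∉ x.asHomogeneousIdeal.toIdeal ∧
      g = phi (bar a) / phi (bar b) := by
  unfold LR
  rw [mem_stalkRange_iff]
  constructor
  · rintro ⟨n, a, ha, b, hb, hbx, e⟩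
    refine ⟨n, a, ha, b, hb, hbx, ?_⟩
    apply j0_injective
    rw [map_div₀, j0_phi, j0_phi, e]
  · rintro ⟨n, a, ha, b, hb, hbx, e⟩
    refine ⟨n, a, ha, b, hb, hbx, ?_⟩
    rw [e, map_div₀, j0_phi, j0_phi]

end Pool.Agent.Helper38.Fol
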