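import Pool.Agent.Helper38.Fol.Ring

open AlgebraicGeometry CategoryTheory HomogeneousLocalization

noncomputable section
namespace Pool.Agent.Helper38.Fol

/-- The field of rational functions in `x, y, z`. -/
abbrev K0 := FractionRing R3

/-- Numerator over denominator, dehomogenised. -/
def fracFun (x : Submonoid S) (c : NumDenSameDeg 𝒜 x) : K0 :=
  algebraMap R3 K0 (bar c.num) / algebraMap R3 K0 (bar c.den)

lemma den_ne {x : Submonoid S} (hx : (0 : S) ∉ x) (c : NumDenSameDeg 𝒜 x) :
    algebraMap R3 K0 (bar c.den) ≠ 0 := by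
  rw [Ne, IsFractionRing.to_map_eq_zero_iff]
  apply bar_ne_zero c.den.2
  intro h
  apply hx
  rw [← h]
  exact c.den_mem

lemma fracFun_eq {x : Submonoid S} (hx : (0 : S) ∉ x) (c d : NumDenSameDeg 𝒜 x)
    (h : (c.num : S) * d.den = d.num * c.den) : fracFun x c = fracFun x d := by
  unfold fracFun
  rw [div_eq_div_iff (den_ne hx c) (den_ne hx d), ← map_mul, ← map_mul, ← map_mul, ← map_mul, h]

lemma fracFun_eq' {x : Submonoid S} (hx : (0 : S) ∉ x) (c d : NumDenSameDeg 𝒜 x)
    (h : NumDenSameDeg.embedding 𝒜 x c = NumDenSameDeg.embedding 𝒜 x d) :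
    fracFun x c = fracFun x d := by
  apply fracFun_eq hx
  simp only [NumDenSameDeg.embedding, Localization.mk_eq_mk_iff, Localization.r_iff_exists] at h
  obtain ⟨u, hu⟩ := h
  have hu0 : (u : S) ≠ 0 := fun h => hx (h ▸ u.2)
  have := mul_left_cancel₀ hu0 hu
  linear_combination this

/-- The ring homomorphism `a / b ↦ bar a / bar b` from homogeneous fractions to `K0`. -/
def toK0 (x : Submonoid S) (hx : (0 : S) ∉ x) : HomogeneousLocalization 𝒜 x →+* K0 where
  toFun := fun y => Quotient.liftOn' y (fracFun x) (fun c d h => fracFun_eq' hx c d h)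
  map_one' := by
    change fracFun x 1 = 1
    simp [fracFun]
  map_zero' := by
    change fracFun x 0 = 0
    simp [fracFun]
  map_mul' := by
    intro a b
    induction a using Quotient.inductionOn'
    induction b using Quotient.inductionOn'
    rename_i c d
    change fracFun x (c * d) = fracFun x c * fracFun x d
    simp [fracFun, NumDenSameDeg.num_mul, NumDenSameDeg.den_mul, mul_div_mul_comm]
  map_add' := by
    intro a b
    induction a using Quotient.inductionOn'
    induction b using Quotient.inductionOn'
    rename_i c d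
    change fracFun x (c + d) = fracFun x c + fracFun x d
    simp only [fracFun, NumDenSameDeg.num_add, NumDenSameDeg.den_add, map_add, map_mul]
    have h1 := den_ne hx c
    have h2 := den_ne hx d
    field_simp
    try ring

@[simp] lemma toK0_mk (x : Submonoid S) (hx : (0 : S) ∉ x) (c : NumDenSameDeg 𝒜 x) :
    toK0 x hx (.mk c) = algebraMap R3 K0 (bar c.num) / algebraMap R3 K0 (bar c.den) := rfl

end Pool.Agent.Helper38.Fol
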