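import Pool.Agent.Helper38.Fol.DerX

open AlgebraicGeometry CategoryTheory HomogeneousLocalization

set_option linter.all false

noncomputable section
namespace Pool.Agent.Helper38.Fol

lemma LR_generic (g : KX) : g ∈ LR (genericPoint PX) := by
  refine ⟨g, ?_⟩
  change (PX.presheaf.stalkSpecializes _).hom g = g
  rw [TopCat.Presheaf.stalkSpecializes_refl]
  rfl

namespace ChartData
variable (c : ChartData)

lemma f_not_mem_generic : c.f ∉ (genericPoint PX : PX).asHomogeneousIdeal.toIdeal := by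
  rw [genericPoint_eq]
  exact c.f_ne

lemma exists_fracX (g : KX) : ∃ a b : R3, b ≠ 0 ∧ g = c.toKX a / c.toKX b := by
  obtain ⟨a, b, hb, -, h⟩ := c.exists_frac c.f_not_mem_generic (LR_generic g)
  exact ⟨a, b, hb, h⟩

lemma exists_reduced (g : KX) : ∃ a b : R3, b ≠ 0 ∧ IsRelPrime a b ∧ g = c.toKX a / c.toKX b := by
  letI : Algebra R3 KX := c.toKX.toRingHom.toAlgebra
  haveI : FaithfulSMul R3 KX := by
    rw [faithfulSMul_iff_algebraMap_injective]
    exact c.toKX_injective
  haveI : IsFractionRing R3 KX := IsFractionRing.of_field R3 KX (by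
    intro z
    obtain ⟨a, b, -, h⟩ := c.exists_fracX z
    exact ⟨a, b, h⟩)
  obtain ⟨a, b, hab, h⟩ := IsFractionRing.exists_reduced_fraction (A := R3) g
  refine ⟨a, b, nonZeroDivisors.ne_zero b.2, hab, ?_⟩
  rw [← h, IsFractionRing.mk'_eq_div]
  rfl

lemma toKX_ne {b : R3} (hb : b ≠ 0) : c.toKX b ≠ 0 := by
  rwa [Ne, map_eq_zero_iff _ c.toKX_injective]

lemma toKX_X (i : Fin 3) : c.toKX (MvPolynomial.X i) = monK (c.α i) := by
  unfold toKX
  rw [MvPolynomial.aeval_X]

/-- If `h` times two coordinates is regular at a point then so is `h`. -/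
lemma mem_of_mul_mem {x : PX} (hx : c.f ∉ x.asHomogeneousIdeal.toIdeal) {h : KX} {i j : Fin 3}
    (hij : i ≠ j) (hi : h * monK (c.α i) ∈ LR x) (hj : h * monK (c.α j) ∈ LR x) : h ∈ LR x := by
  obtain ⟨P, Q, hQ, hPQ, rfl⟩ := c.exists_reduced h
  obtain ⟨a, b, hb, hb', e⟩ := c.exists_frac hx hi
  obtain ⟨a', b', hb0', hbb', e'⟩ := c.exists_frac hx hj
  have h1 : P * (MvPolynomial.X i * b) = a * Q := by
    apply c.toKX_injective
    rw [map_mul, map_mul, map_mul, toKX_X]
    have := c.toKX_ne hb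
    have := c.toKX_ne hQ
    field_simp at e
    linear_combination e
  have h2 : P * (MvPolynomial.X j * b') = a' * Q := by
    apply c.toKX_injective
    rw [map_mul, map_mul, map_mul, toKX_X]
    have := c.toKX_ne hb0'
    have := c.toKX_ne hQ
    field_simp at e'
    linear_combination e'
  have h3 : Q ∣ MvPolynomial.X i * b := hPQ.symm.dvd_of_dvd_mul_left (Dvd.intro_left a h1.symm)
  have h4 : Q ∣ MvPolynomial.X j * b' := hPQ.symm.dvd_of_dvd_mul_left (Dvd.intro_left a' h2.symm)
  obtain ⟨u, hu⟩ := h3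
  obtain ⟨w, hw⟩ := h4
  have h5 : Q * (MvPolynomial.X j * (b' * u)) = Q * (MvPolynomial.X i * (b * w)) := by
    linear_combination (MvPolynomial.X i * b) * hw - (MvPolynomial.X j * b') * hu
  have h6 := mul_left_cancel₀ hQ h5
  have h7 : (MvPolynomial.X i : R3) ∣ b' * u := by
    have hp : Prime (MvPolynomial.X i : R3) := MvPolynomial.X_prime
    rcases hp.dvd_or_dvd (Dvd.intro _ h6.symm) with h | h
    · exfalso
      rw [MvPolynomial.X_dvd_X] at h
      exact hij h
    · exact h
  obtain ⟨t, ht⟩ := h7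
  have h8 : b * b' = Q * t := by
    apply mul_left_cancel₀ (MvPolynomial.X_ne_zero (R := ℂ) i)
    linear_combination b' * hu + Q * ht
  have h9 : c.toKX P / c.toKX Q = c.toKX (P * t) * ((c.toKX b)⁻¹ * (c.toKX b')⁻¹) := by
    have h10 := congrArg c.toKX h8
    rw [map_mul, map_mul] at h10
    have := c.toKX_ne hb
    have := c.toKX_ne hb0'
    have := c.toKX_ne hQ
    rw [map_mul]
    field_simp
    linear_combination c.toKX P * h10
  rw [h9]
  exact mul_mem (c.toKX_mem hx _) (mul_mem hb' hbb')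

/-- A derivation that maps the chart ring to the local ring preserves the local ring. -/
lemma preserves {x : PX} (hx : c.f ∉ x.asHomogeneousIdeal.toIdeal) (D : Derivation ℂ KX KX)
    (hD : ∀ p, D (c.toKX p) ∈ LR x) : ∀ g ∈ LR x, D g ∈ LR x := by
  intro g hg
  obtain ⟨a, b, hb, hb', rfl⟩ := c.exists_frac hx hg
  rw [Derivation.leibniz_div]
  simp only [smul_eq_mul]
  exact mul_mem (pow_mem hb' 2) (sub_mem (mul_mem (c.toKX_mem hx _) (hD _))
    (mul_mem (c.toKX_mem hx _) (hD _)))

end ChartData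

end Pool.Agent.Helper38.Fol
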