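import Pool.Agent.Helper38.Fol.Frac

open AlgebraicGeometry CategoryTheory HomogeneousLocalization

noncomputable section
namespace Pool.Agent.Helper38.Fol

/-- Laurent polynomials in three variables. -/
abbrev Lau := AddMonoidAlgebra ℂ (Fin 3 → ℤ)

/-- The variables in `K0`. -/
def xs (i : Fin 3) : K0 := algebraMap R3 K0 (MvPolynomial.X i)

lemma xs_ne (i : Fin 3) : xs i ≠ 0 := by
  unfold xs
  rw [Ne, IsFractionRing.to_map_eq_zero_iff]
  exact MvPolynomial.X_ne_zero i

/-- The Laurent monomials in `K0`. -/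
def mon (u : Fin 3 → ℤ) : K0 := ∏ i, xs i ^ u i

lemma mon_add (u v : Fin 3 → ℤ) : mon (u + v) = mon u * mon v := by
  unfold mon
  rw [← Finset.prod_mul_distrib]
  exact Finset.prod_congr rfl fun i _ => zpow_add₀ (xs_ne i) _ _

@[simp] lemma mon_zero : mon 0 = 1 := by simp [mon]

lemma mon_ne (u : Fin 3 → ℤ) : mon u ≠ 0 :=
  Finset.prod_ne_zero_iff.mpr fun i _ => zpow_ne_zero _ (xs_ne i)

lemma mon_neg (u : Fin 3 → ℤ) : mon (-u) = (mon u)⁻¹ := by
  apply eq_inv_of_mul_eq_one_left
  rw [← mon_add]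
  simp

lemma mon_sub (u v : Fin 3 → ℤ) : mon (u - v) = mon u / mon v := by
  rw [sub_eq_add_neg, mon_add, mon_neg, div_eq_mul_inv]

lemma mon_nsmul (n : ℕ) (u : Fin 3 → ℤ) : mon (n • u) = mon u ^ n := by
  induction n with
  | zero => simp
  | succ n ih => rw [succ_nsmul, mon_add, ih, pow_succ]

lemma mon_zsmul (n : ℤ) (u : Fin 3 → ℤ) : mon (n • u) = mon u ^ n := by
  cases n with
  | ofNat n => simpa using mon_nsmul n u
  | negSucc n =>
    have := mon_nsmul (n + 1) u
    rw [Int.negSucc_eq, neg_smul, mon_neg, zpow_neg]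
    congr 1

lemma mon_sum {ι : Type*} (s : Finset ι) (f : ι → Fin 3 → ℤ) :
    mon (∑ i ∈ s, f i) = ∏ i ∈ s, mon (f i) := by
  classical
  induction s using Finset.induction_on with
  | empty => simp
  | insert a s ha ih => rw [Finset.sum_insert ha, Finset.prod_insert ha, mon_add, ih]

/-- natural exponents as integral ones -/
def toZ : (Fin 3 →₀ ℕ) →+ (Fin 3 → ℤ) where
  toFun m i := m i
  map_zero' := by ext; simp
  map_add' a b := by ext; simp

@[simp] lemma toZ_apply (m : Fin 3 →₀ ℕ) (i : Fin 3) : toZ m i = m i := rfl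

lemma toZ_injective : Function.Injective toZ := by
  intro a b h
  ext i
  have := congrFun h i
  simpa using this

lemma algebraMap_monomial (m : Fin 3 →₀ ℕ) (c : ℂ) :
    algebraMap R3 K0 (MvPolynomial.monomial m c) =
      algebraMap R3 K0 (MvPolynomial.C c) * mon (toZ m) := by
  rw [MvPolynomial.monomial_eq, map_mul]
  congr 1
  rw [Finsupp.prod_fintype _ _ (by simp), map_prod]
  unfold mon xs
  simp

/-- The inclusion of Laurent polynomials in `K0`. -/
def Lmap : Lau →ₐ[ℂ] K0 :=
  AddMonoidAlgebra.lift ℂ K0 (Fin 3 → ℤ)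
    { toFun := fun u => mon u.toAdd
      map_one' := by simp
      map_mul' := fun a b => by simp [mon_add] }

@[simp] lemma Lmap_single (u : Fin 3 → ℤ) (c : ℂ) :
    Lmap (AddMonoidAlgebra.single u c) = c • mon u := by
  unfold Lmap
  simp

lemma C_eq (c : ℂ) : algebraMap R3 K0 (MvPolynomial.C c) = algebraMap ℂ K0 c := by
  rw [IsScalarTower.algebraMap_apply ℂ R3 K0]
  rfl

/-- the inclusion of polynomials in Laurent polynomials -/
def inclL : R3 →ₐ[ℂ] Lau := AddMonoidAlgebra.mapDomainAlgHom ℂ ℂ toZ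

lemma inclL_single (m : Fin 3 →₀ ℕ) (c : ℂ) :
    inclL (MvPolynomial.monomial m c) = AddMonoidAlgebra.single (toZ m) c :=
  AddMonoidAlgebra.mapDomain_single

lemma inclL_injective : Function.Injective inclL :=
  AddMonoidAlgebra.mapDomain_injective toZ_injective

lemma Lmap_inclL (p : R3) : Lmap (inclL p) = algebraMap R3 K0 p := by
  induction p using MvPolynomial.induction_on' with
  | monomial m c =>
    rw [inclL_single, Lmap_single, algebraMap_monomial, C_eq, Algebra.smul_def]
  | add p q hp hq => rw [map_add, map_add, map_add, hp, hq]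

/-- every Laurent polynomial is a polynomial after multiplication by a monomial -/
lemma exists_mul_single (l : Lau) : ∃ (N : ℕ) (p : R3),
    l * AddMonoidAlgebra.single (fun _ => (N : ℤ)) 1 = inclL p := by
  induction l using AddMonoidAlgebra.induction_on with
  | of u =>
    obtain ⟨A, hA⟩ : ∃ A : ℕ, ∀ i, (u i).natAbs ≤ A :=
      ⟨∑ i, (u i).natAbs, fun i => Finset.single_le_sum (f := fun j => (u j).natAbs)
        (fun _ _ => Nat.zero_le _) (Finset.mem_univ i)⟩
    refine ⟨A, MvPolynomial.monomial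
      (Finsupp.equivFunOnFinite.symm fun i => (u i + (A : ℤ)).toNat) 1, ?_⟩
    rw [inclL_single, AddMonoidAlgebra.of_apply, AddMonoidAlgebra.single_mul_single]
    congr 1
    · ext i
      have h1 := hA i
      simp only [toZ_apply, Finsupp.equivFunOnFinite_symm_apply_apply, Pi.add_apply]
      change u i + (A : ℤ) = _
      omega
    · simp
  | add a b ha hb =>
    obtain ⟨N, p, hp⟩ := ha
    obtain ⟨N', q, hq⟩ := hb
    refine ⟨N + N', p * MvPolynomial.monomial (Finsupp.equivFunOnFinite.symm fun _ => N') 1 +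
      q * MvPolynomial.monomial (Finsupp.equivFunOnFinite.symm fun _ => N) 1, ?_⟩
    rw [map_add, map_mul, map_mul, ← hp, ← hq, inclL_single, inclL_single]
    have h1 : toZ (Finsupp.equivFunOnFinite.symm fun _ => N') = fun _ => (N' : ℤ) := by
      ext; simp
    have h2 : toZ (Finsupp.equivFunOnFinite.symm fun _ => N) = fun _ => (N : ℤ) := by
      ext; simp
    rw [h1, h2]
    have h3 : (AddMonoidAlgebra.single (fun _ => ((N + N' : ℕ) : ℤ)) 1 : Lau) =
        AddMonoidAlgebra.single (fun _ => (N : ℤ)) 1 *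
          AddMonoidAlgebra.single (fun _ => (N' : ℤ)) 1 := by
      rw [AddMonoidAlgebra.single_mul_single, mul_one]
      congr 1
    rw [h3]
    ring
  | smul r a ha =>
    obtain ⟨N, p, hp⟩ := ha
    exact ⟨N, r • p, by rw [map_smul, ← hp, smul_mul_assoc]⟩

lemma Lmap_injective : Function.Injective Lmap := by
  rw [injective_iff_map_eq_zero]
  intro l hl
  obtain ⟨N, p, hp⟩ := exists_mul_single l
  have h1 : Lmap (inclL p) = 0 := by rw [← hp, map_mul, hl, zero_mul]
  rw [Lmap_inclL, IsFractionRing.to_map_eq_zero_iff] at h1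
  rw [h1, map_zero] at hp
  have h2 : (AddMonoidAlgebra.single (fun _ => (N : ℤ)) 1 : Lau) *
      AddMonoidAlgebra.single (fun _ => -(N : ℤ)) 1 = 1 := by
    rw [AddMonoidAlgebra.single_mul_single, AddMonoidAlgebra.one_def]
    congr 1
    · ext; simp
    · simp
  calc l = l * (AddMonoidAlgebra.single (fun _ => (N : ℤ)) 1 *
      AddMonoidAlgebra.single (fun _ => -(N : ℤ)) 1) := by rw [h2, mul_one]
    _ = 0 := by rw [← mul_assoc, hp, zero_mul]

end Pool.Agent.Helper38.Fol
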