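import Pool.Agent.Helper38.Fol.Sch

open AlgebraicGeometry CategoryTheory HomogeneousLocalization

noncomputable section
namespace Pool.Agent.Helper38.Fol

lemma mem_stalkRange_iff (x : PX) (g : PX.functionField) :
    g ∈ (algebraMap (PX.presheaf.stalk x) PX.functionField).range ↔
      ∃ n, ∃ a ∈ 𝒜 n, ∃ b ∈ 𝒜 n, b ∉ x.asHomogeneousIdeal.toIdeal ∧
        j0 g = algebraMap R3 K0 (bar a) / algebraMap R3 K0 (bar b) := by
  constructor
  · rintro ⟨g', rfl⟩
    rw [j0_algebraMap]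
    obtain ⟨c, hc⟩ := HomogeneousLocalization.mk_surjective ((Proj.stalkIso 𝒜 x).hom.hom g')
    refine ⟨c.deg, c.num, c.num.2, c.den, c.den.2, c.den_mem, ?_⟩
    unfold rho
    rw [RingHom.comp_apply, ← hc, toK0_mk]
  · rintro ⟨n, a, ha, b, hb, hbx, e⟩
    let y : HomogeneousLocalization.AtPrime 𝒜 x.asHomogeneousIdeal.toIdeal :=
      .mk ⟨n, ⟨a, ha⟩, ⟨b, hb⟩, hbx⟩
    refine ⟨(Proj.stalkIso 𝒜 x).inv.hom y, ?_⟩
    apply j0_injective
    rw [j0_algebraMap, e]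
    unfold rho
    rw [RingHom.comp_apply]
    have : (Proj.stalkIso 𝒜 x).hom.hom ((Proj.stalkIso 𝒜 x).inv.hom y) = y := by
      rw [← RingHom.comp_apply, ← CommRingCat.hom_comp, Iso.inv_hom_id]
      rfl
    rw [this]
    rfl

/-- The structure morphism. -/
def strX : PX ⟶ Spec (.of ℂ) :=
  Proj.toSpecZero 𝒜 ≫ Spec.map (CommRingCat.ofHom (algebraMap ℂ (𝒜 0)))

/-- The constants in the function field. -/
def constX : ℂ →+* PX.functionField :=
  (PX.presheaf.germ ⊤ (genericPoint PX) trivial).hom.comp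
    ((strX.appTop).hom.comp (Scheme.ΓSpecIso (.of ℂ)).inv.hom)

set_option backward.isDefEq.respectTransparency false in
lemma aux_h1 {X : Scheme.{0}} (U : X.Opens) :
    U.topIso.inv = U.ι.appLE U ⊤ U.ι_preimage_self.ge := by
  simp only [Scheme.Opens.ι, Scheme.ofRestrict_appLE]
  rfl

lemma aux_top {X : Scheme.{0}} (U : X.Opens) (φ : X ⟶ U.toScheme) (h : φ ≫ U.ι = 𝟙 X)
    (e : U = ⊤) :
    U.topIso.inv ≫ φ.appTop = X.presheaf.map (eqToHom e.symm).op := by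
  have h1 := aux_h1 U
  have h2 : φ.appTop = φ.appLE ⊤ ⊤ le_rfl := (Scheme.Hom.app_eq_appLE _)
  rw [h1, h2, Scheme.Hom.appLE_comp_appLE]
  have h3 : ∀ (ψ : X ⟶ X) (hψ : ψ = 𝟙 X) (hh : (⊤ : X.Opens) ≤ ψ ⁻¹ᵁ U),
      ψ.appLE U ⊤ hh = X.presheaf.map (eqToHom e.symm).op := by
    rintro ψ rfl hh
    simp [Scheme.Hom.appLE]
    rfl
  exact h3 _ h _

lemma appTop_eq : (Scheme.ΓSpecIso (.of ℂ)).inv ≫ strX.appTop =
    CommRingCat.ofHom (algebraMap ℂ (𝒜 0)) ≫
      CommRingCat.ofHom (fromZeroRingHom 𝒜 (Submonoid.powers 1)) ≫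
      Proj.awayToSection 𝒜 1 ≫
        PX.presheaf.map (eqToHom (Proj.basicOpen_one 𝒜).symm).op := by
  unfold strX Proj.toSpecZero
  simp only [Scheme.Hom.comp_appTop, Category.assoc, Proj.basicOpenToSpec_app_top]
  rw [← Scheme.ΓSpecIso_inv_naturality_assoc, ← Scheme.ΓSpecIso_inv_naturality_assoc]
  simp only [Iso.inv_hom_id_assoc]
  congr 3
  rw [← aux_top (Proj.basicOpen 𝒜 1)
    (PX.topIso.inv ≫ (PX.isoOfEq (Proj.basicOpen_one 𝒜)).inv) (by simp) (Proj.basicOpen_one 𝒜)]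
  simp only [Scheme.Hom.comp_appTop]

lemma section_val (c : ℂ) (x : PX) :
    ((strX.appTop).hom ((Scheme.ΓSpecIso (.of ℂ)).inv.hom c)).1 ⟨x, trivial⟩ =
      HomogeneousLocalization.fromZeroRingHom 𝒜 _ (algebraMap ℂ (𝒜 0) c) := by
  have := congr($(appTop_eq).hom c)
  simp only [CommRingCat.hom_comp, RingHom.comp_apply] at this
  rw [this]
  simp only [CommRingCat.hom_ofHom]
  erw [Proj.res_apply]
  rfl

lemma j0_const (c : ℂ) : j0 (constX c) = algebraMap R3 K0 (MvPolynomial.C c) := by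
  unfold constX j0
  rw [RingHom.comp_apply, RingHom.comp_apply]
  erw [rho_germ]
  erw [section_val c (genericPoint PX)]
  have h1 : bar (algebraMap ℂ S c) = MvPolynomial.C c := bar.commutes c
  have h2 : bar (1 : S) = 1 := map_one bar
  change algebraMap R3 K0 (bar (algebraMap ℂ S c)) / algebraMap R3 K0 (bar (1 : S)) = _
  rw [h1, h2]
  simp

end Pool.Agent.Helper38.Fol
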