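import Pool.Agent.Helper38.Fol.AlgInt

open AlgebraicGeometry CategoryTheory

set_option linter.all false

noncomputable section
namespace Pool.Agent.Helper38.Fol

lemma appLE_fromSpecStalk (X : Scheme.{0}) (x : X) (V : X.Opens) (hx : x ∈ V)
    (h : ⊤ ≤ X.fromSpecStalk x ⁻¹ᵁ V) :
    (X.fromSpecStalk x).appLE V ⊤ h ≫ (Scheme.ΓSpecIso _).hom = X.presheaf.germ V x hx := by
  rw [Scheme.Hom.appLE, Scheme.fromSpecStalk_app hx]
  simp only [Category.assoc]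
  rw [← Functor.map_comp_assoc]
  have e : ∀ (S : CommRingCat.{0}) (i : Opposite.op (⊤ : (Spec S).Opens) ⟶ Opposite.op ⊤),
      (Spec S).presheaf.map i = 𝟙 _ := fun S i => by
    have : i = 𝟙 _ := Subsingleton.elim _ _
    rw [this, CategoryTheory.Functor.map_id]
  rw [e, Category.id_comp, Iso.inv_hom_id, Category.comp_id]

lemma pull_eq (V : Variety) {W : Scheme.{0}} (f : V.X ⟶ W) (U : W.Opens)
    (hU : ⊤ ≤ (V.X.fromSpecStalk (genericPoint V.X) ≫ f) ⁻¹ᵁ U)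
    (hη : genericPoint V.X ∈ f ⁻¹ᵁ U) (s : Γ(W, U)) :
    pull (V.X.fromSpecStalk (genericPoint V.X) ≫ f) U hU s =
      V.X.presheaf.germ (f ⁻¹ᵁ U) (genericPoint V.X) hη (f.app U s) := by
  have h1 := appLE_fromSpecStalk V.X (genericPoint V.X) (f ⁻¹ᵁ U) hη hU
  have h2 : (V.X.fromSpecStalk (genericPoint V.X) ≫ f).appLE U ⊤ hU =
      f.app U ≫ (V.X.fromSpecStalk (genericPoint V.X)).appLE (f ⁻¹ᵁ U) ⊤ hU :=
    Scheme.Hom.comp_appLE _ _ _ _ _
  rw [pull_apply, h2, ← h1]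
  rfl

lemma top_le (V : Variety) {W : Scheme.{0}} (f : V.X ⟶ W) (U : W.Opens)
    (hη : genericPoint V.X ∈ f ⁻¹ᵁ U) :
    ⊤ ≤ (V.X.fromSpecStalk (genericPoint V.X) ≫ f) ⁻¹ᵁ U := by
  intro p _
  have hp : p = IsLocalRing.closedPoint (V.X.presheaf.stalk (genericPoint V.X)) :=
    Subsingleton.elim (α := PrimeSpectrum V.K) _ _
  rw [hp]
  change f (V.X.fromSpecStalk (genericPoint V.X) (IsLocalRing.closedPoint _)) ∈ U
  rw [Scheme.fromSpecStalk_closedPoint]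
  exact hη

/-- The pullback of a section is in the local ring of each point whose image is in the open
set. -/
lemma pull_mem (V : Variety) {W : Scheme.{0}} (f : V.X ⟶ W) (U : W.Opens)
    (hU : ⊤ ≤ (V.X.fromSpecStalk (genericPoint V.X) ≫ f) ⁻¹ᵁ U) (s : Γ(W, U))
    (x : V.X) (hx : f x ∈ U) :
    pull (V.X.fromSpecStalk (genericPoint V.X) ≫ f) U hU s ∈ V.localRing x := by
  have hη : genericPoint V.X ∈ f ⁻¹ᵁ U :=
    (genericPoint_specializes x).mem_open (f ⁻¹ᵁ U).2 hx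
  rw [pull_eq V f U hU hη]
  have : Nonempty (f ⁻¹ᵁ U) := ⟨⟨x, hx⟩⟩
  exact ⟨V.X.presheaf.germ (f ⁻¹ᵁ U) x hx (f.app U s),
    Scheme.algebraMap_germ_eq_germToFunctionField V.X (U := f ⁻¹ᵁ U) hx (f.app U s)⟩

/-- If the image of `x` is in the basic open set of a section then the pullback of the section is
a unit of the local ring. -/
lemma pull_inv_mem (V : Variety) {W : Scheme.{0}} (f : V.X ⟶ W) (U : W.Opens)
    (hU : ⊤ ≤ (V.X.fromSpecStalk (genericPoint V.X) ≫ f) ⁻¹ᵁ U) (s : Γ(W, U))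
    (x : V.X) (hx : f x ∈ W.basicOpen s) :
    (pull (V.X.fromSpecStalk (genericPoint V.X) ≫ f) U hU s : V.K) ≠ 0 ∧
    (pull (V.X.fromSpecStalk (genericPoint V.X) ≫ f) U hU s : V.K)⁻¹ ∈ V.localRing x := by
  have hxU : f x ∈ U := W.basicOpen_le s hx
  have hη : genericPoint V.X ∈ f ⁻¹ᵁ U :=
    (genericPoint_specializes x).mem_open (f ⁻¹ᵁ U).2 hxU
  have : Nonempty (f ⁻¹ᵁ U) := ⟨⟨x, hxU⟩⟩
  have h1 : IsUnit (V.X.presheaf.germ (f ⁻¹ᵁ U) x hxU (f.app U s)) := by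
    rw [← Scheme.mem_basicOpen, ← Scheme.preimage_basicOpen]
    exact hx
  have h2 : algebraMap (V.X.presheaf.stalk x) V.X.functionField
      (V.X.presheaf.germ (f ⁻¹ᵁ U) x hxU (f.app U s)) =
      pull (V.X.fromSpecStalk (genericPoint V.X) ≫ f) U hU s := by
    rw [pull_eq V f U hU hη]
    exact Scheme.algebraMap_germ_eq_germToFunctionField V.X (U := f ⁻¹ᵁ U) hxU (f.app U s)
  obtain ⟨t, ht⟩ := h1
  have h3 : algebraMap (V.X.presheaf.stalk x) V.X.functionField ↑t⁻¹ *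
      (pull (V.X.fromSpecStalk (genericPoint V.X) ≫ f) U hU s : V.K) = 1 := by
    rw [← h2, ← ht]
    have := congrArg (algebraMap (V.X.presheaf.stalk x) V.X.functionField) (Units.inv_mul t)
    rw [map_mul, map_one] at this
    exact this
  refine ⟨right_ne_zero_of_mul_eq_one h3, ?_⟩
  rw [← eq_inv_of_mul_eq_one_left h3]
  exact ⟨_, rfl⟩

/-- Constant sections. -/
def cst (W : Variety) (U : W.X.Opens) : ℂ →+* Γ(W.X, U) :=
  (W.str.appLE ⊤ U (fun _ _ => trivial)).hom.comp (Scheme.ΓSpecIso (.of ℂ)).inv.hom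

lemma pull_cst (V W : Variety) (f : V.X ⟶ W.X) (hf : f ≫ W.str = V.str) (U : W.X.Opens)
    (hU : ⊤ ≤ (V.X.fromSpecStalk (genericPoint V.X) ≫ f) ⁻¹ᵁ U) (c : ℂ) :
    pull (V.X.fromSpecStalk (genericPoint V.X) ≫ f) U hU (cst W U c) = algebraMap ℂ V.K c := by
  rw [pull_apply]
  unfold cst
  have h1 : W.str.appLE ⊤ U (fun _ _ => trivial) ≫
      (V.X.fromSpecStalk (genericPoint V.X) ≫ f).appLE U ⊤ hU =
      ((V.X.fromSpecStalk (genericPoint V.X) ≫ f) ≫ W.str).appLE ⊤ ⊤ (fun _ _ => trivial) :=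
    Scheme.Hom.appLE_comp_appLE _ _ _ _ _ _ _
  have h2 : (V.X.fromSpecStalk (genericPoint V.X) ≫ f) ≫ W.str =
      Spec.map (CommRingCat.ofHom (algebraMap ℂ V.K)) := by
    rw [Category.assoc, hf, fromSpecStalk_str]
  have h3 : ((V.X.fromSpecStalk (genericPoint V.X) ≫ f) ≫ W.str).appLE ⊤ ⊤ (fun _ _ => trivial) =
      (Spec.map (CommRingCat.ofHom (algebraMap ℂ V.K))).appLE ⊤ ⊤ (fun _ _ => trivial) := by
    congr 1
  have h4 : (Spec.map (CommRingCat.ofHom (algebraMap ℂ V.K))).appLE ⊤ ⊤ (fun _ _ => trivial) =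
      (Spec.map (CommRingCat.ofHom (algebraMap ℂ V.K))).appTop := Scheme.Hom.appLE_eq_app _
  have h5 : (Scheme.ΓSpecIso (.of ℂ)).inv ≫ W.str.appLE ⊤ U (fun _ _ => trivial) ≫
      (V.X.fromSpecStalk (genericPoint V.X) ≫ f).appLE U ⊤ hU ≫ (Scheme.ΓSpecIso _).hom =
      CommRingCat.ofHom (algebraMap ℂ V.K) := by
    rw [← Category.assoc (W.str.appLE ⊤ U (fun _ _ => trivial)), h1, h3, h4,
      Scheme.ΓSpecIso_naturality, Iso.inv_hom_id_assoc]
  exact congrArg (fun φ => φ.hom c) h5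

end Pool.Agent.Helper38.Fol
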