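import Pool.Agent.Helper38.Fol.Morph1
import Pool.Agent.Helper38.Fol.Claims2
import Pool.Agent.Helper38.Fol.AlgInt2
import Pool.Agent.Helper38.Fol.CanonX

open AlgebraicGeometry CategoryTheory

set_option linter.all false

noncomputable section
namespace Pool.Agent.Helper38.Fol

/-- A point at which all functions take values in the constants is closed. -/
lemma isClosed_of_values (W : Variety) (U : W.X.Opens) (hU : IsAffineOpen U) (y : W.X)
    (hy : y ∈ U) (h : ∀ s : Γ(W.X, U), ∃ c, y ∉ W.X.basicOpen (s - cst W U c)) :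
    IsClosed ({y} : Set W.X) := by
  have : JacobsonSpace W.X := LocallyOfFiniteType.jacobsonSpace W.str
  apply isClosed_singleton_of_isLocallyClosed_singleton
  refine ⟨U, closure {y}, U.2, isClosed_closure, ?_⟩
  ext z
  constructor
  · rintro rfl
    exact ⟨hy, subset_closure rfl⟩
  · rintro ⟨hzU, hz⟩
    have hyz : y ⤳ z := specializes_iff_mem_closure.mpr hz
    have hzy : z ⤳ y := by
      rw [specializes_iff_forall_open]
      intro V hV hyV
      obtain ⟨s, hs1, hs2⟩ := hU.exists_basicOpen_le (V := ⟨V, hV⟩) ⟨y, hyV⟩ hy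
      apply hs1
      obtain ⟨c, hc⟩ := h s
      have hc0 : c ≠ 0 := by
        rintro rfl
        rw [map_zero, sub_zero] at hc
        exact hc hs2
      have hz' : z ∉ W.X.basicOpen (s - cst W U c) := fun h => hc (hyz.mem_open
        (W.X.basicOpen (s - cst W U c)).2 h)
      rw [Scheme.mem_basicOpen _ _ _ hzU] at hz' ⊢
      have h1 : IsUnit (W.X.presheaf.germ U z hzU (cst W U c)) := by
        apply RingHom.isUnit_map
        apply RingHom.isUnit_map
        exact isUnit_iff_ne_zero.mpr hc0
      have h2 : W.X.presheaf.germ U z hzU (cst W U c) =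
          W.X.presheaf.germ U z hzU s + -W.X.presheaf.germ U z hzU (s - cst W U c) := by
        rw [map_sub]
        ring
      rw [h2] at h1
      rcases IsLocalRing.isUnit_or_isUnit_of_isUnit_add h1 with h3 | h3
      · exact h3
      · exact absurd (by simpa using h3.neg) hz'
    exact (hzy.antisymm hyz).eq

/-- The foliation is not induced by a morphism. -/
lemma not_inducedByMorphism : ¬ FX.InducedByMorphism := by
  rintro ⟨W, f, -, hf, hI⟩
  -- the map at the generic point
  have hg : f.toRationalMap.fromFunctionField =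
      VX.X.fromSpecStalk (genericPoint VX.X) ≫ f := by
    rw [Scheme.RationalMap.fromFunctionField_toRationalMap]
    exact Scheme.PartialMap.fromSpecStalkOfMem_toPartialMap f _
  unfold Foliation.Induces at hI
  rw [hg] at hI
  -- an affine neighbourhood of the image of `p1`
  obtain ⟨U, hUa, hpU, -⟩ := exists_isAffineOpen_mem_and_subset (x := f p1) (U := ⊤) trivial
  have hη : genericPoint VX.X ∈ f ⁻¹ᵁ U :=
    (genericPoint_specializes (p1 : VX.X)).mem_open (f ⁻¹ᵁ U).2 hpU
  have hU := top_le VX f U hη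
  have hDv : ∀ s : Γ(W.X, U),
      DvX (pull (VX.X.fromSpecStalk (genericPoint VX.X) ≫ f) U hU s) = 0 := by
    intro s
    exact (hI DvX).mp (mem_FX.mpr ⟨1, one_smul _ _⟩) U hU s
  -- the image of the divisor `x = 0` is a closed point
  have hδU : f delta ∈ U := (delta_p1).mem_open (f ⁻¹ᵁ U).2 hpU
  have hcl : IsClosed ({f delta} : Set W.X) := by
    apply isClosed_of_values W U hUa _ hδU
    intro s
    obtain ⟨c, hc⟩ := claim1 (pull (VX.X.fromSpecStalk (genericPoint VX.X) ≫ f) U hU s)
      (pull_mem VX f U hU s p1 hpU) (hDv s)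
    refine ⟨c, fun hmem => hc ?_⟩
    have h1 := pull_inv_mem VX f U hU (s - cst W U c) delta hmem
    rw [map_sub, pull_cst VX W f hf U hU c] at h1
    exact h1
  -- all the first integrals over `U` are constant
  have hconst : ∀ s : Γ(W.X, U), ∃ c : ℂ,
      pull (VX.X.fromSpecStalk (genericPoint VX.X) ≫ f) U hU s = algebraMap ℂ VX.K c := by
    intro s
    apply claim2 _ (hDv s)
    intro q hq
    apply pull_mem VX f U hU s q
    have h1 : f delta ⤳ f q := hq.map f.continuous
    have h2 : f q ∈ ({f delta} : Set W.X) := by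
      rw [← hcl.closure_eq]
      exact specializes_iff_mem_closure.mp h1
    rw [Set.mem_singleton_iff.mp h2]
    exact hδU
  -- so all derivations are tangent to the foliation
  have hall : ∀ D : Derivation ℂ VX.K VX.K, D ∈ FX.T := by
    intro D
    rw [hI]
    intro U' hU' s
    apply der_pull _ D U hUa hU _ U' hU' s
    intro s
    obtain ⟨c, hc⟩ := hconst s
    rw [hc, Derivation.map_algebraMap]
  -- contradiction
  have h1 := (mem_FX_iff _).mp (hall (DW ![1, 0, 0] : Derivation ℂ KX KX)) (MvPolynomial.X 0)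
  rw [psi2_X] at h1
  have h2 : (DW ![1, 0, 0]) (monK (chA0.α (Fin.succ 0))) =
      (∑ i, (![1, 0, 0] : Fin 3 → ℂ) i * ((chA0.α (Fin.succ 0)) i : ℂ)) •
        monK (chA0.α (Fin.succ 0)) := DW_monK _ _
  have h3 : (∑ i, (![1, 0, 0] : Fin 3 → ℂ) i * ((chA0.α (Fin.succ 0)) i : ℂ)) = -1 := by
    have : chA0.α (Fin.succ 0) 0 = -1 := by
      change toZ (gen 0 1 0 (by decide)).1.1 0 - toZ (gen 1 0 0 (by decide)).1.1 0 = -1
      rw [toZ_gen, toZ_gen]
      rfl
    rw [Fin.sum_univ_three]
    rw [this]
    simp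
  rw [h3] at h2
  have h4 : (-1 : ℂ) • monK (chA0.α (Fin.succ 0)) = 0 := h2.symm.trans h1
  rw [neg_smul, one_smul, neg_eq_zero] at h4
  exact monK_ne _ h4

end Pool.Agent.Helper38.Fol
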