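import Pool.Agent.Helper38.Fol.VarX
import Pool.Agent.Helper38.Fol.ClosedProj

open AlgebraicGeometry CategoryTheory HomogeneousLocalization

noncomputable section
namespace Pool.Agent.Helper38.Fol

attribute [local instance] MvPolynomial.gradedAlgebra

/-- the polynomial algebra mapping to `S` -/
def phiHom {n : ℕ} (g : Fin (n + 1) → M) : MvPolynomial (Fin (n + 1)) ℂ →ₐ[ℂ] S :=
  MvPolynomial.aeval fun i => monoS (g i)

lemma phiHom_mem {n : ℕ} (g : Fin (n + 1) → M) (hg : ∀ i, (g i).1.2 = 1) {d : ℕ}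
    {p : MvPolynomial (Fin (n + 1)) ℂ}
    (hp : p ∈ MvPolynomial.homogeneousSubmodule (Fin (n + 1)) ℂ d) : phiHom g p ∈ 𝒜 d := by
  rw [MvPolynomial.mem_homogeneousSubmodule] at hp
  rw [p.as_sum, map_sum]
  refine Submodule.sum_mem _ fun m hm => ?_
  have hd := hp (MvPolynomial.mem_support_iff.mp hm)
  rw [MvPolynomial.monomial_eq, map_mul, MvPolynomial.algHom_C, ← Algebra.smul_def]
  refine Submodule.smul_mem _ _ ?_
  rw [Finsupp.prod_fintype _ _ (by simp), map_prod]
  have h2 : ∑ i, m i • 1 = d := by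
    rw [← hd]
    simp [Finsupp.weight_apply, Finsupp.sum_fintype]
  rw [← h2]
  have h3 : ∏ k ∈ Finset.univ, monoS (g k) ^ m k ∈ 𝒜 (∑ k ∈ Finset.univ, m k • 1) :=
    SetLike.prod_pow_mem_graded (A := 𝒜) (i := fun _ : Fin (n + 1) => 1)
      (g := fun i => monoS (g i)) (F := Finset.univ) (n := fun i => m i)
      (fun i _ => single_mem (g i) (hg i) 1)
  convert h3 using 1
  refine Finset.prod_congr rfl fun i _ => ?_
  rw [map_pow]
  unfold phiHom
  rw [MvPolynomial.aeval_X]

/-- the graded homomorphism from the polynomial algebra to `S` -/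
def phiG {n : ℕ} (g : Fin (n + 1) → M) (hg : ∀ i, (g i).1.2 = 1) :
    (MvPolynomial.homogeneousSubmodule (Fin (n + 1)) ℂ) →+*ᵍ 𝒜 where
  __ := (phiHom g).toRingHom
  map_mem hp := phiHom_mem g hg hp

lemma phiG_surj {n : ℕ} (g : Fin (n + 1) → M) (hg : ∀ i, (g i).1.2 = 1)
    (hs : ∀ p ∈ gens, ∃ i, (g i).1 = p) (d : ℕ) (b : S) (hb : b ∈ 𝒜 d) :
    ∃ a ∈ MvPolynomial.homogeneousSubmodule (Fin (n + 1)) ℂ d, phiG g hg a = b := by
  have h1 : ∀ p : M, ∃ a ∈ MvPolynomial.homogeneousSubmodule (Fin (n + 1)) ℂ p.1.2,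
      phiHom g a = monoS p := by
    rintro ⟨p, hp⟩
    induction hp using AddSubmonoid.closure_induction with
    | mem q hq =>
      obtain ⟨i, hi⟩ := hs q hq
      refine ⟨MvPolynomial.X i, ?_, ?_⟩
      · rw [MvPolynomial.mem_homogeneousSubmodule]
        have := MvPolynomial.isHomogeneous_X ℂ i
        rwa [hq.1]
      · unfold phiHom
        rw [MvPolynomial.aeval_X]
        congr 1
        exact Subtype.ext hi
    | zero => 
      refine ⟨1, ?_, ?_⟩
      · rw [MvPolynomial.mem_homogeneousSubmodule]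
        exact MvPolynomial.isHomogeneous_one _ _
      · rw [map_one]
        rfl
    | add x y hx hy ihx ihy =>
      obtain ⟨a, ha, ha'⟩ := ihx
      obtain ⟨b, hb, hb'⟩ := ihy
      refine ⟨a * b, ?_, ?_⟩
      · rw [MvPolynomial.mem_homogeneousSubmodule] at *
        exact ha.mul hb
      · rw [map_mul, ha', hb']
        exact (monoS_add ⟨x, hx⟩ ⟨y, hy⟩).symm
  revert b
  apply grade_induction
  · exact ⟨0, Submodule.zero_mem _, map_zero (phiHom g)⟩
  · rintro x y ⟨a, ha, ha'⟩ ⟨b, hb, hb'⟩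
    refine ⟨a + b, Submodule.add_mem _ ha hb, ?_⟩
    change phiHom g (a + b) = _
    rw [map_add]
    change phiG g hg a + phiG g hg b = _
    rw [ha', hb']
  · intro p r hp
    obtain ⟨a, ha, ha'⟩ := h1 p
    refine ⟨r • a, Submodule.smul_mem _ _ (hp ▸ ha), ?_⟩
    change phiHom g (r • a) = _
    rw [map_smul, ha']
    unfold monoS
    rw [AddMonoidAlgebra.smul_single]
    simp

lemma exists_enum : ∃ (n : ℕ) (g : Fin (n + 1) → M), (∀ i, (g i).1.2 = 1) ∧
    ∀ p ∈ gens, ∃ i, (g i).1 = p := by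
  have : Finite gens := gens_finite.to_subtype
  have : Nonempty gens := ⟨⟨(mkExp 1 0 0, 1), rfl, by
    intro i; fin_cases i <;> decide, by decide, by decide⟩⟩
  have hpos : 0 < Nat.card gens := Nat.card_pos
  obtain ⟨n, hn⟩ : ∃ n, Nat.card gens = n + 1 := ⟨Nat.card gens - 1, by omega⟩
  let e : Fin (n + 1) ≃ gens := (finCongr hn.symm).trans (Finite.equivFin gens).symm
  refine ⟨n, fun i => ⟨(e i).1, AddSubmonoid.subset_closure (e i).2⟩, fun i => (e i).2.1, ?_⟩
  intro p hp
  exact ⟨e.symm ⟨p, hp⟩, by simp⟩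

theorem VX_projective : VX.IsProjective := by
  obtain ⟨n, g, hg, hs⟩ := exists_enum
  have hsurj := phiG_surj g hg hs
  have hf : HomogeneousIdeal.irrelevant 𝒜 ≤
      (HomogeneousIdeal.irrelevant
        (MvPolynomial.homogeneousSubmodule (Fin (n + 1)) ℂ)).map (phiG g hg) := by
    apply (HomogeneousIdeal.toIdeal_irrelevant_le _).mpr
    intro i hi b hb
    obtain ⟨a, ha, rfl⟩ := hsurj i b hb
    refine Ideal.mem_map_of_mem _ ?_
    change a ∈ HomogeneousIdeal.irrelevant _
    rw [HomogeneousIdeal.mem_irrelevant_iff, GradedRing.proj_apply]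
    exact DirectSum.decompose_of_mem_ne _ ha hi.ne'
  refine ⟨n, Proj.map (phiG g hg) hf, ?_, ?_⟩
  · refine isClosedImmersion_projMap (phiG g hg) hf hsurj (fun i => MvPolynomial.X i)
      (fun i => MvPolynomial.isHomogeneous_X ℂ i) ?_
    apply Proj.iSup_basicOpen_eq_top'
    · intro i
      exact ⟨1, MvPolynomial.isHomogeneous_X ℂ i⟩
    · rw [eq_top_iff]
      intro p _
      induction p using MvPolynomial.induction_on with
      | C r =>
        exact Subalgebra.algebraMap_mem _
          (algebraMap ℂ (MvPolynomial.homogeneousSubmodule (Fin (n + 1)) ℂ 0) r)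
      | add p q hp hq => exact add_mem (hp trivial) (hq trivial)
      | mul_X p i hp => exact mul_mem (hp trivial) (Algebra.subset_adjoin ⟨i, rfl⟩)
  · change _ ≫ Variety.projStr n = strX
    have key : ∀ (i : ℕ) (hi : 0 < i) (s : MvPolynomial (Fin (n + 1)) ℂ)
        (hs : s ∈ MvPolynomial.homogeneousSubmodule (Fin (n + 1)) ℂ i),
        Proj.awayι 𝒜 (phiG g hg s) ((phiG g hg).map_mem hs) hi ≫
          Proj.map (phiG g hg) hf ≫ Variety.projStr n =
        Proj.awayι 𝒜 (phiG g hg s) ((phiG g hg).map_mem hs) hi ≫ strX := by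
      intro i hi s hs
      unfold Variety.projStr strX
      rw [Proj.awayι_comp_map_assoc _ _ hi _ hs, Proj.awayι_toSpecZero_assoc,
        Proj.awayι_toSpecZero_assoc, ← Spec.map_comp, ← Spec.map_comp, ← Spec.map_comp]
      congr 1
      refine CommRingCat.hom_ext (RingHom.ext fun r => ?_)
      change Away.map (phiG g hg) s (fromZeroRingHom _ _ (algebraMap ℂ _ r)) =
        fromZeroRingHom _ _ (algebraMap ℂ _ r)
      have h1 : phiG g hg (MvPolynomial.C r) = algebraMap ℂ S r := (phiHom g).commutes r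
      have h2 : phiG g hg 1 = 1 := map_one (phiHom g)
      refine congrArg HomogeneousLocalization.mk ?_
      refine NumDenSameDeg.ext _ rfl ?_ ?_
      · exact h1
      · exact h2
    refine (Proj.mapAffineOpenCover (phiG g hg) hf).openCover.hom_ext _ _ fun s ↦ ?_
    exact key _ s.1.2 _ s.2.2

end Pool.Agent.Helper38.Fol
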