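import Pool.Agent.Helper38.Fol.Gen
import Pool.Agent.Helper38.Fol.Cover

open AlgebraicGeometry CategoryTheory HomogeneousLocalization

set_option linter.all false

noncomputable section
namespace Pool.Agent.Helper38.Fol

section
variable {B : Type} [CommRing B] [IsDomain B] [Algebra ℂ B] (φ : S →ₐ[ℂ] B) (p : M) (hp : p.1.2 = 1)
  (h : φ (monoS p) ≠ 0)

/-- The point of `X` given by a homomorphism to a domain. -/
def ptOf : PX where
  asHomogeneousIdeal := (RingHom.ker φ).homogeneousCore 𝒜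
  isPrime := (RingHom.ker_isPrime φ.toRingHom).homogeneousCore
  not_irrelevant_le := by
    intro hle
    have : monoS p ∈ HomogeneousIdeal.irrelevant 𝒜 := by
      rw [HomogeneousIdeal.mem_irrelevant_iff]
      rw [GradedRing.proj_apply]
      exact DirectSum.decompose_of_mem_ne 𝒜 (single_mem (n := 1) p hp 1) (by decide)
    have h2 := Ideal.toIdeal_homogeneousCore_le _ _ (hle this)
    exact h h2

lemma mem_ptOf {n : ℕ} {a : S} (ha : a ∈ 𝒜 n) :
    a ∈ (ptOf φ p hp h).asHomogeneousIdeal.toIdeal ↔ φ a = 0 := by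
  constructor
  · intro h2
    exact Ideal.toIdeal_homogeneousCore_le _ _ h2
  · intro h2
    exact Ideal.mem_homogeneousCore_of_homogeneous_of_mem ⟨n, ha⟩ h2

end

lemma ptOf_specializes {B B' : Type} [CommRing B] [IsDomain B] [Algebra ℂ B]
    [CommRing B'] [IsDomain B'] [Algebra ℂ B']
    (φ : S →ₐ[ℂ] B) (φ' : S →ₐ[ℂ] B') (p p' : M) (hp : p.1.2 = 1) (hp' : p'.1.2 = 1)
    (h : φ (monoS p) ≠ 0) (h' : φ' (monoS p') ≠ 0) (hk : ∀ a, φ a = 0 → φ' a = 0) :
    ptOf φ p hp h ⤳ ptOf φ' p' hp' h' := by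
  refine (specializes_iff _ _).mpr ?_
  apply Ideal.homogeneousCore_mono
  exact hk

/-- Restriction to the divisor `x = 0`. -/
def tau : S →ₐ[ℂ] S :=
  AddMonoidAlgebra.lift ℂ S M
    { toFun := fun p => if p.toAdd.1.1 0 = 0 then AddMonoidAlgebra.single p.toAdd 1 else 0
      map_one' := by
        rw [if_pos]
        · rfl
        · rfl
      map_mul' := by
        intro p q
        have h1 : (p * q).toAdd.1.1 0 = p.toAdd.1.1 0 + q.toAdd.1.1 0 := rfl
        have h2 : (p * q).toAdd = p.toAdd + q.toAdd := rfl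
        rw [h1, h2]
        by_cases hp : p.toAdd.1.1 0 = 0
        · by_cases hq : q.toAdd.1.1 0 = 0
          · rw [if_pos hp, if_pos hq, if_pos (by omega), AddMonoidAlgebra.single_mul_single,
              one_mul]
          · rw [if_neg hq, if_neg (by omega), mul_zero]
        · rw [if_neg hp, if_neg (by omega), zero_mul] }

lemma tau_single (p : M) (c : ℂ) : tau (AddMonoidAlgebra.single p c) =
    if p.1.1 0 = 0 then AddMonoidAlgebra.single p c else 0 := by
  unfold tau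
  rw [AddMonoidAlgebra.lift_single]
  change c • (if p.1.1 0 = 0 then _ else _) = _
  split_ifs
  · rw [AddMonoidAlgebra.smul_single, smul_eq_mul, mul_one]
    rfl
  · rw [smul_zero]

lemma tau_mem {n : ℕ} {a : S} (ha : a ∈ 𝒜 n) : tau a ∈ 𝒜 n := by
  revert a
  apply grade_induction
  · rw [map_zero]; exact Submodule.zero_mem _
  · intro a b ha hb
    rw [map_add]; exact Submodule.add_mem _ ha hb
  · intro p c hp
    rw [tau_single]
    split_ifs
    · exact single_mem p hp c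
    · exact Submodule.zero_mem _

namespace ChartData
variable (c : ChartData)

/-- The exponents in the chart, as a map of monoids. -/
def e : M →+ (Fin 3 →₀ ℕ) where
  toFun p := Finsupp.equivFunOnFinite.symm fun i =>
    (c.β i (toZ p.1.1 - (p.1.2 : ℤ) • toZ c.v.1.1)).toNat
  map_zero' := by
    ext i
    change (c.β i (toZ (0 : M).1.1 - ((0 : M).1.2 : ℤ) • toZ c.v.1.1)).toNat = 0
    have : toZ (0 : M).1.1 - ((0 : M).1.2 : ℤ) • toZ c.v.1.1 = 0 := by
      ext i
      simp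
    rw [this, map_zero]
    rfl
  map_add' p q := by
    ext i
    change (c.β i (toZ (p + q).1.1 - ((p + q).1.2 : ℤ) • toZ c.v.1.1)).toNat =
      (c.β i (toZ p.1.1 - (p.1.2 : ℤ) • toZ c.v.1.1)).toNat +
      (c.β i (toZ q.1.1 - (q.1.2 : ℤ) • toZ c.v.1.1)).toNat
    have h : toZ (p + q).1.1 - ((p + q).1.2 : ℤ) • toZ c.v.1.1 =
        (toZ p.1.1 - (p.1.2 : ℤ) • toZ c.v.1.1) + (toZ q.1.1 - (q.1.2 : ℤ) • toZ c.v.1.1) := by
      ext i
      simp
      ring
    rw [h, map_add, Int.toNat_add (c.nonneg p i) (c.nonneg q i)]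

/-- The dehomogenisation in the chart. -/
def cp : S →ₐ[ℂ] R3 := AddMonoidAlgebra.mapDomainAlgHom ℂ ℂ c.e

lemma cp_single (p : M) (r : ℂ) :
    c.cp (AddMonoidAlgebra.single p r) = MvPolynomial.monomial (c.e p) r :=
  AddMonoidAlgebra.mapDomain_single

lemma expMap_e (p : M) : c.expMap (c.e p) = toZ p.1.1 - (p.1.2 : ℤ) • toZ c.v.1.1 := by
  have h0 := c.hβ (toZ p.1.1 - (p.1.2 : ℤ) • toZ c.v.1.1)
  change (∑ i, (((c.β i (toZ p.1.1 - (p.1.2 : ℤ) • toZ c.v.1.1)).toNat : ℕ) : ℤ) • c.α i) = _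
  conv_rhs => rw [h0]
  refine Finset.sum_congr rfl fun i _ => ?_
  rw [Int.toNat_of_nonneg (c.nonneg p i)]
  rfl

lemma phi_bar {n : ℕ} {a : S} (ha : a ∈ 𝒜 n) :
    phi (bar a) = monK (toZ c.v.1.1) ^ n * c.toKX (c.cp a) := by
  revert a
  apply grade_induction
  · simp
  · intro a b ha hb
    rw [map_add, map_add, map_add, map_add, ha, hb, mul_add]
  · intro p r hp
    rw [bar_single, phi_monomial, cp_single, toKX_monomial, expMap_e, hp, monK_sub]
    have h1 : monK ((n : ℤ) • toZ c.v.1.1) = monK (toZ c.v.1.1) ^ n := by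
      apply j0_injective
      rw [map_pow, j0_monK, j0_monK, mon_zsmul, zpow_natCast]
    rw [h1, mul_smul_comm]
    congr 1
    have := monK_ne (toZ c.v.1.1)
    field_simp

lemma cp_ne_zero {n : ℕ} {a : S} (ha : a ∈ 𝒜 n) (h : a ≠ 0) : c.cp a ≠ 0 := by
  intro h0
  have h1 := c.phi_bar ha
  rw [h0, map_zero, mul_zero, map_eq_zero_iff _ phi_injective] at h1
  exact bar_ne_zero ha h h1

/-- Elements of the local ring, in terms of the chart. -/
lemma mem_LR_cp {x : PX} {g : KX} (hg : g ∈ LR x) :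
    ∃ (n : ℕ) (a b : S), a ∈ 𝒜 n ∧ b ∈ 𝒜 n ∧ b ∉ x.asHomogeneousIdeal.toIdeal ∧
      g = c.toKX (c.cp a) / c.toKX (c.cp b) := by
  rw [mem_LR] at hg
  obtain ⟨n, a, ha, b, hb, hbx, e⟩ := hg
  refine ⟨n, a, b, ha, hb, hbx, ?_⟩
  rw [e, c.phi_bar ha, c.phi_bar hb]
  have := pow_ne_zero n (monK_ne (toZ c.v.1.1))
  field_simp

end ChartData

end Pool.Agent.Helper38.Fol
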