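import Mathlib

open AlgebraicGeometry CategoryTheory

noncomputable section
namespace Pool.Agent.Helper38.Fol

/-- Exponents: three exponents for `x, y, z` and one for the grading variable. -/
abbrev Expo := (Fin 3 →₀ ℕ) × ℕ
/-- The polynomial ring in `x, y, z`. -/
abbrev R3 := MvPolynomial (Fin 3) ℂ
/-- The polynomial ring in `x, y, z` and the grading variable. -/
abbrev E4 := AddMonoidAlgebra ℂ Expo

/-- The 25 generating monomials. -/
def gens : Set Expo :=
  {p | p.2 = 1 ∧ (∀ i, p.1 i ≤ 2) ∧ 1 ≤ p.1 0 + p.1 1 + p.1 2 ∧ p.1 0 + p.1 1 + p.1 2 ≤ 5}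

/-- The monoid of exponents. -/
def M : AddSubmonoid Expo := AddSubmonoid.closure gens

/-- The homogeneous coordinate ring. -/
abbrev S := AddMonoidAlgebra ℂ M

/-- The degree. -/
def deg : M →+ ℕ := (AddMonoidHom.snd _ _).comp M.subtype

@[simp] lemma deg_apply (p : M) : deg p = p.1.2 := rfl

/-- The grading of `S`. -/
abbrev 𝒜 : ℕ → Submodule ℂ S := AddMonoidAlgebra.gradeBy ℂ deg

/-- The grading of `E4`. -/
abbrev ℬ : ℕ → Submodule ℂ E4 :=
  AddMonoidAlgebra.gradeBy ℂ (AddMonoidHom.snd (Fin 3 →₀ ℕ) ℕ)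

lemma M_prop (p : M) : (∀ i, p.1.1 i ≤ 2 * p.1.2) ∧ p.1.2 ≤ p.1.1 0 + p.1.1 1 + p.1.1 2 ∧
    p.1.1 0 + p.1.1 1 + p.1.1 2 ≤ 5 * p.1.2 := by
  obtain ⟨p, hp⟩ := p
  induction hp using AddSubmonoid.closure_induction with
  | mem q hq =>
    obtain ⟨h1, h2, h3, h4⟩ := hq
    simp only [h1]
    exact ⟨fun i => by have := h2 i; omega, by omega, by omega⟩
  | zero => simp
  | add a b _ _ iha ihb =>
    obtain ⟨a1, a2, a3⟩ := iha
    obtain ⟨b1, b2, b3⟩ := ihb
    simp only [Prod.fst_add, Prod.snd_add, Finsupp.add_apply] at *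
    refine ⟨fun i => ?_, ?_, ?_⟩
    · have := a1 i; have := b1 i; omega
    · omega
    · omega

/-- The inclusion `S → E4`. -/
def incl : S →ₐ[ℂ] E4 := AddMonoidAlgebra.mapDomainAlgHom ℂ ℂ M.subtype

lemma incl_injective : Function.Injective incl :=
  AddMonoidAlgebra.mapDomain_injective (Subtype.val_injective)

instance : IsDomain S := incl_injective.isDomain incl.toRingHom

/-- Dehomogenisation. -/
def bar : S →ₐ[ℂ] R3 :=
  AddMonoidAlgebra.mapDomainAlgHom ℂ ℂ ((AddMonoidHom.fst _ _).comp M.subtype)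

@[simp] lemma bar_single (p : M) (c : ℂ) :
    bar (AddMonoidAlgebra.single p c) = MvPolynomial.monomial p.1.1 c := by
  exact AddMonoidAlgebra.mapDomain_single

lemma grade_induction {n : ℕ} {P : S → Prop} (h0 : P 0) (hadd : ∀ a b, P a → P b → P (a + b))
    (hs : ∀ (p : M) c, p.1.2 = n → P (AddMonoidAlgebra.single p c)) : ∀ a ∈ 𝒜 n, P a := by
  intro a ha
  have key : a = ∑ p ∈ a.coeff.support, AddMonoidAlgebra.single p (a.coeff p) := by
    apply AddMonoidAlgebra.coeff_injective
    rw [AddMonoidAlgebra.coeff_sum]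
    simp only [AddMonoidAlgebra.coeff_single]
    exact (Finsupp.sum_single a.coeff).symm
  rw [key]
  apply Finset.sum_induction
  · exact hadd
  · exact h0
  · intro p hp
    exact hs p _ (ha p hp)

lemma bar_eq_zero {n : ℕ} {a : S} (ha : a ∈ 𝒜 n) (h : bar a = 0) : a = 0 := by
  apply AddMonoidAlgebra.coeff_injective
  ext p
  by_cases hp : p ∈ a.coeff.support
  · have h2 : (bar a).coeff p.1.1 = a.coeff p := by
      clear h
      have : ∀ q : M, q ∈ a.coeff.support → q.1.1 = p.1.1 → q = p := by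
        intro q hq e
        apply Subtype.ext
        apply Prod.ext e
        have := ha q hq
        have := ha p hp
        simp_all
      change (AddMonoidAlgebra.mapDomain _ a).coeff _ = _
      rw [AddMonoidAlgebra.coeff_mapDomain, Finsupp.mapDomain, Finsupp.sum_apply, Finsupp.sum,
        Finset.sum_eq_single p]
      · simp
      · intro q hq hne
        rw [Finsupp.single_apply, if_neg]
        intro e
        exact hne (this q hq e)
      · intro hp'
        exact absurd hp hp'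
    rw [← h2, h]
    rfl
  · simpa using hp

lemma bar_ne_zero {n : ℕ} {a : S} (ha : a ∈ 𝒜 n) (h : a ≠ 0) : bar a ≠ 0 :=
  fun h' => h (bar_eq_zero ha h')

end Pool.Agent.Helper38.Fol
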