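import Pool.Agent.Helper38.Fol.Chart
import Pool.Agent.Helper38.Fol.Loc

open AlgebraicGeometry CategoryTheory HomogeneousLocalization

noncomputable section
namespace Pool.Agent.Helper38.Fol

namespace ChartData

variable (c : ChartData)

/-- The comparison map from the polynomial ring to the coordinate ring of the chart. -/
def psi : R3 →+* Away 𝒜 c.f :=
  MvPolynomial.eval₂Hom ((fromZeroRingHom 𝒜 (Submonoid.powers c.f)).comp (algebraMap ℂ (𝒜 0)))
    (fun i => Away.mk 𝒜 c.f_mem 1 (monoS (c.m i)) (single_mem _ (by simpa using c.hm i) 1))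

lemma bar_monoS (p : M) : algebraMap R3 K0 (bar (monoS p)) = mon (toZ p.1.1) := by
  unfold monoS
  rw [bar_single, algebraMap_monomial]
  simp

lemma toK0_psi (p : R3) : toK0 _ c.zero_not_mem_powers (c.psi p) = c.toK p := by
  have : (toK0 _ c.zero_not_mem_powers).comp c.psi = c.toK.toRingHom := by
    apply MvPolynomial.ringHom_ext
    · intro r
      have h1 : bar (algebraMap ℂ S r) = MvPolynomial.C r := bar.commutes r
      have h2 : bar (1 : S) = 1 := map_one bar
      have h3 : c.psi (MvPolynomial.C r) =
        fromZeroRingHom 𝒜 (Submonoid.powers c.f) (algebraMap ℂ (𝒜 0) r) := by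
        unfold psi
        simp
      rw [RingHom.comp_apply, h3]
      change algebraMap R3 K0 (bar (algebraMap ℂ S r)) / algebraMap R3 K0 (bar (1 : S)) = _
      rw [h1, h2, map_one, div_one, C_eq]
      change _ = c.toK (MvPolynomial.C r)
      unfold toK
      simp
    · intro i
      have h3 : c.psi (MvPolynomial.X i) =
        Away.mk 𝒜 c.f_mem 1 (monoS (c.m i)) (single_mem _ (by simpa using c.hm i) 1) := by
        unfold psi
        simp
      rw [RingHom.comp_apply, h3]
      change algebraMap R3 K0 (bar (monoS (c.m i))) / algebraMap R3 K0 (bar (c.f ^ 1)) =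
        c.toK (MvPolynomial.X i)
      rw [pow_one]
      unfold f toK
      rw [bar_monoS, bar_monoS, ← mon_sub]
      simp [ChartData.α]
  exact congrArg (fun g : R3 →+* K0 => g p) this

lemma psi_bijective : Function.Bijective c.psi := by
  constructor
  · intro a b h
    apply c.toK_injective
    rw [← toK0_psi, ← toK0_psi, h]
  · intro z
    obtain ⟨n, a, ha, rfl⟩ := Away.mk_surjective 𝒜 c.f_mem z
    obtain ⟨p, hp⟩ := c.exists_poly a ha
    refine ⟨p, ?_⟩
    apply toK0_injective _ c.zero_not_mem_powers
    rw [toK0_psi]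
    change _ = algebraMap R3 K0 (bar a) / algebraMap R3 K0 (bar (c.f ^ n))
    rw [hp, map_pow, map_pow]
    unfold f
    rw [bar_monoS]
    have := mon_ne (toZ c.v.1.1)
    simp only [smul_eq_mul, mul_one]
    field_simp

/-- the coordinate ring of the chart is a polynomial ring -/
def psiEquiv : R3 ≃+* Away 𝒜 c.f := RingEquiv.ofBijective c.psi c.psi_bijective

lemma smooth_away : RingHom.IsStandardSmoothOfRelativeDimension 3
    ((fromZeroRingHom 𝒜 (Submonoid.powers c.f)).comp (algebraMap ℂ (𝒜 0))) := by
  have h1 : (fromZeroRingHom 𝒜 (Submonoid.powers c.f)).comp (algebraMap ℂ (𝒜 0)) =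
      (c.psiEquiv : R3 →+* Away 𝒜 c.f).comp (algebraMap ℂ R3) := by
    refine RingHom.ext fun r => ?_
    change _ = c.psi (MvPolynomial.C r)
    unfold psi
    simp
  rw [h1]
  have h2 := RingHom.isStandardSmoothOfRelativeDimension_algebraMap (n := 3) (R := ℂ) (S := R3)
  have h3 := RingHom.IsStandardSmoothOfRelativeDimension.comp
    (RingHom.IsStandardSmoothOfRelativeDimension.equiv c.psiEquiv) (h2.mpr stdSmooth_R3)
  exact h3

lemma smooth_ι : SmoothOfRelativeDimension 3 ((Proj.basicOpen 𝒜 c.f).ι ≫ strX) := by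
  rw [← MorphismProperty.cancel_left_of_respectsIso (P := @SmoothOfRelativeDimension 3)
    (Proj.basicOpenIsoSpec 𝒜 c.f c.f_mem one_pos).inv, ← Category.assoc,
    ← Proj.awayι]
  unfold strX
  rw [Proj.awayι_toSpecZero_assoc, ← Spec.map_comp,
    HasRingHomProperty.Spec_iff (P := @SmoothOfRelativeDimension 3)]
  apply RingHom.locally_of
  · exact RingHom.isStandardSmoothOfRelativeDimension_respectsIso
  · exact c.smooth_away

end ChartData

end Pool.Agent.Helper38.Fol
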